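import Pool.Agent.Helper16.TP.Defs

/-!
# Block TP-BD: sequences of bounded height are constant along the ultrafilter

PROOF. (Northcott over a fixed number field.) `bdd_vec`: if `vH (x i) ≤ B` and one coordinate is `1`, every
coordinate `y` has `Height.logHeight₁ y ≤ B` (`vH ![y, 1] ≤ vH x` by monotonicity of the local maxima), so it
takes finitely many values (`NumberField.finite_setOfPred_logHeight₁_le`; see the end of
`Pool.Agent.Helper26.DMC.SU1.core2`), hence is constant along `U` (`SU1.ult_finite`), if the
height is not bounded along `U` it tends to infinity (ultrafilter).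
-/

namespace Pool.Agent.Helper16.TP

open NumberField Finset Filter Polynomial
open Pool.Agent.V2 (vn vH)

open Pool.Agent.V2 Pool.Agent.Helper26.DMC Pool.Agent.Helper26.DMC.SU1 in
theorem bdd_vec {K : Type*} [Field K] [NumberField K] (U : Ultrafilter ℕ) {ι : Type*} [Fintype ι]
    (x : ℕ → ι → K) (i0 : ι) (h1 : ∀ᶠ i in (U : Filter ℕ), x i i0 = 1) :
    Tendsto (fun i => vH (x i)) (U : Filter ℕ) atTop ∨
      ∃ y, ∀ᶠ i in (U : Filter ℕ), x i = y := by
  classical
  by_cases h : Tendsto (fun i => vH (x i)) (U : Filter ℕ) atTop
  · exact Or.inl h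
  right
  rw [tendsto_atTop, not_forall] at h
  obtain ⟨B, hB⟩ := h
  have hB' : ∀ᶠ j in (U : Filter ℕ), ¬ (B ≤ vH (x j)) := by
    rw [Ultrafilter.eventually_not]
    exact hB
  have key : ∀ l : ι, ∃ a, ∀ᶠ j in (U : Filter ℕ), x j l = a := by
    intro l
    refine ult_finite U _ (NumberField.finite_setOfPred_logHeight₁_le K B) (fun j => x j l) ?_
    filter_upwards [hB', h1] with j hj hj1
    push Not at hj
    change Height.logHeight₁ (x j l) ≤ B
    rw [Height.logHeight₁_eq_logHeight]
    have hne0 : (![x j l, 1] : Fin 2 → K) ≠ 0 := by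
      intro h
      have := congrFun h 1
      simp at this
    have hx0 : x j ≠ 0 := by
      intro h
      rw [h] at hj1
      exact zero_ne_one hj1
    rw [← vH_eq hne0]
    refine le_trans ?_ hj.le
    refine gsum_mono (finS_vn hne0) (finS_vn hx0) fun v => ?_
    refine Real.log_le_log (vn_pos v hne0) ?_
    refine vn_le v _ (vn_pos v hx0).le ?_
    intro i
    fin_cases i
    · exact le_vn v (x j) l
    · have := le_vn v (x j) i0
      rw [hj1] at this
      exact this
  choose y hy using key
  refine ⟨y, ?_⟩
  filter_upwards [Filter.eventually_all.2 hy] with j hj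
  exact funext hj

end Pool.Agent.Helper16.TP
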