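import Pool.Agent.Helper16.TP.LowerLin

/-!
# Block TP-POL: values of polynomials at multiplicatively independent units

PROOF. Enumerate `Q.support`. The monomials `∏ e_b ^ m_b`, `m ∈ Q.support`, are `SUnit`s, and two different ones are
not proportional (if `e ^ m = c e ^ m'` almost everywhere then `e ^ (m - m') = c` and `MI` gives `m = m'`).
`li`: `Pool.Agent.Helper26.DMC.SU1.main_ind`. `lower_poly`: `lower_lin` with the constant
`C' = C * ∑ b, max m_b`. `upper_poly`: `nv_sum_le` (Helper64/Vojta/Places.lean). `place_le`: for almost all `i`, put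
`a b = log |e_b|_v` in `hsub`.
`prod_ge`: product formula (`Pool.Agent.V2.gsum_nv`: `gsum (log nv v y) = 0`), and for a finite place
`v ∉ T` `nv v (eval Q) ≤ max 1 (pn v Q)`, where `pn v Q = 1` for almost all `v` (`Pool.Agent.V2.finS_pn`); `C = ∑ log (max 1 (pn v Q))`.
-/

namespace Pool.Agent.Helper16.TP

open NumberField Finset Filter
open Pool.Agent.Helper64.Vojta (Pl nv sn)
open Pool.Agent.Helper26.DMC (SUnit)

namespace Pol16

open Pool.Agent.Helper64.Vojta (nv_mul nv_one nv_zero nv_pos nv_nonneg)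

variable {K : Type*} [Field K] [NumberField K]

theorem log_pow (v : Pl K) (x : K) (n : ℕ) :
    Real.log (nv v (x ^ n)) = n * Real.log (nv v x) := by
  have h : nv v (x ^ n) = nv v x ^ n := by
    induction n with
    | zero => simp [nv_one]
    | succ n ih => rw [pow_succ, nv_mul, ih, pow_succ]
  rw [h, Real.log_pow]

theorem log_prod (v : Pl K) {α : Type*} (s : Finset α) (f : α → K) (hf : ∀ a ∈ s, f a ≠ 0) :
    Real.log (nv v (∏ a ∈ s, f a)) = ∑ a ∈ s, Real.log (nv v (f a)) := by
  classical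
  induction s using Finset.induction_on with
  | empty => simp [nv_one]
  | insert a s ha ih =>
    rw [Finset.prod_insert ha, Finset.sum_insert ha, nv_mul,
      Real.log_mul (nv_pos v (hf a (mem_insert_self a s))).ne'
        (nv_pos v (Finset.prod_ne_zero_iff.2 fun b hb => hf b (mem_insert_of_mem hb))).ne',
      ih fun b hb => hf b (mem_insert_of_mem hb)]

/-- the monomial with exponents `m` -/
noncomputable def mon {n : ℕ} (e : Fin n → ℕ → K) (m : Fin n →₀ ℕ) (i : ℕ) : K :=
  ∏ b, e b i ^ m b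

theorem eval_eq {n : ℕ} (e : Fin n → ℕ → K) (Q : MvPolynomial (Fin n) K) (i : ℕ) :
    MvPolynomial.eval (fun b => e b i) Q = ∑ m ∈ Q.support, Q.coeff m * mon e m i :=
  MvPolynomial.eval_eq' _ _

theorem log_mon {n : ℕ} (e : Fin n → ℕ → K) (m : Fin n →₀ ℕ) (i : ℕ) (h : ∀ b, e b i ≠ 0)
    (v : Pl K) :
    Real.log (nv v (mon e m i)) = ∑ b, Real.log (nv v (e b i)) * (m b : ℝ) := by
  unfold mon
  rw [log_prod v _ _ fun b _ => pow_ne_zero _ (h b)]
  exact Finset.sum_congr rfl fun b _ => by rw [log_pow, mul_comm]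

theorem mon_ne {n : ℕ} (e : Fin n → ℕ → K) (m : Fin n →₀ ℕ) (i : ℕ) (h : ∀ b, e b i ≠ 0) :
    mon e m i ≠ 0 :=
  Finset.prod_ne_zero_iff.2 fun b _ => pow_ne_zero _ (h b)

theorem all_unit (U : Ultrafilter ℕ) (T : Finset (FinitePlace K)) {n : ℕ} (e : Fin n → ℕ → K)
    (he : ∀ b, SUnit U T (e b)) :
    ∀ᶠ i in (U : Filter ℕ), ∀ b, e b i ≠ 0 ∧ ∀ v : FinitePlace K, v ∉ T → v (e b i) = 1 :=
  Filter.eventually_all.2 he

theorem sunit_mon (U : Ultrafilter ℕ) (T : Finset (FinitePlace K)) {n : ℕ} (e : Fin n → ℕ → K)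
    (he : ∀ b, SUnit U T (e b)) (m : Fin n →₀ ℕ) : SUnit U T (mon e m) := by
  unfold SUnit
  filter_upwards [all_unit U T e he] with i hi
  refine ⟨mon_ne e m i fun b => (hi b).1, fun v hv => ?_⟩
  unfold mon
  rw [map_prod]
  refine Finset.prod_eq_one fun b _ => ?_
  rw [map_pow, (hi b).2 v hv, one_pow]

theorem mon_inj (U : Ultrafilter ℕ) (T : Finset (FinitePlace K)) {n : ℕ} (e : Fin n → ℕ → K)
    (he : ∀ b, SUnit U T (e b)) (hmi : MI U e) (m m' : Fin n →₀ ℕ) (hm : m ≠ m') :
    ¬ ∃ a : K, ∀ᶠ j in (U : Filter ℕ), mon e m j = a * mon e m' j := by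
  rintro ⟨a, ha⟩
  have h1 := hmi (fun b => (m b : ℤ) - (m' b : ℤ)) ⟨a, ?_⟩
  · apply hm
    ext b
    have h2 := congrFun h1 b
    simp only [Pi.zero_apply] at h2
    omega
  · filter_upwards [ha, all_unit U T e he] with i hi hu
    have h3 : ∏ b, e b i ^ ((m b : ℤ) - (m' b : ℤ)) = mon e m i / mon e m' i := by
      unfold mon
      rw [← Finset.prod_div_distrib]
      refine Finset.prod_congr rfl fun b _ => ?_
      rw [zpow_sub₀ (hu b).1, zpow_natCast, zpow_natCast]
    rw [h3, hi, mul_div_assoc, div_self (mon_ne e m' i fun b => (hu b).1), mul_one]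

theorem sum_enum {n : ℕ} (Q : MvPolynomial (Fin n) K) (f : (Fin n →₀ ℕ) → K) :
    ∑ m ∈ Q.support, f m = ∑ l : Fin Q.support.card, f (Q.support.equivFin.symm l) := by
  rw [← Finset.sum_coe_sort Q.support f, ← Equiv.sum_comp Q.support.equivFin.symm]

open Classical in
theorem gsum_sub (T : Finset (FinitePlace K))
    (g : Pl K → ℝ) (hg : Pool.Agent.V2.FinS g) :
    Pool.Agent.V2.gsum g - lsum T g = Pool.Agent.V2.gsum (K := K) (fun v => match v with
      | .inl _ => 0
      | .inr v => if v ∈ T then 0 else g (.inr v)) := by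
  have h1 : Pool.Agent.V2.FinS (K := K) (fun v => match v with
      | .inl v => g (.inl v)
      | .inr v => if v ∈ T then g (.inr v) else 0) := by
    refine Set.Finite.subset hg fun v hv => ?_
    rw [Function.mem_support] at hv ⊢
    intro h0
    apply hv
    simp only
    split_ifs
    · exact h0
    · rfl
  have h2 : Pool.Agent.V2.FinS (K := K) (fun v => match v with
      | .inl _ => 0
      | .inr v => if v ∈ T then 0 else g (.inr v)) := by
    refine Set.Finite.subset hg fun v hv => ?_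
    rw [Function.mem_support] at hv ⊢
    intro h0
    apply hv
    simp only
    split_ifs
    · rfl
    · exact h0
  have h3 := Pool.Agent.V2.gsum_add h1 h2
  have h4 : (fun v : Pl K => (match v with
      | .inl v => g (.inl v)
      | .inr v => if v ∈ T then g (.inr v) else 0 : ℝ) + (match v with
      | .inl _ => 0
      | .inr v => if v ∈ T then 0 else g (.inr v) : ℝ)) = g := by
    funext v
    rcases v with v | v
    · simp
    · simp only
      split_ifs <;> simp
  rw [h4] at h3
  rw [h3]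
  have h5 := Pool.Agent.Helper26.DMC.SU1.gsum_eq_of_S (K := K) T (fun v => match v with
      | .inl v => g (.inl v)
      | .inr v => if v ∈ T then g (.inr v) else 0) (fun v hv => by simp [hv])
  rw [h5]
  unfold lsum
  have h6 : ∑ v ∈ T, (if v ∈ T then g (.inr v) else 0) = ∑ v ∈ T, g (.inr v) :=
    Finset.sum_congr rfl fun v hv => by simp [hv]
  simp only
  rw [h6]
  ring

end Pol16

variable {K : Type*} [Field K] [NumberField K] (U : Ultrafilter ℕ) (T : Finset (FinitePlace K))
  {n : ℕ} (e : Fin n → ℕ → K)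

open Pol16 Pool.Agent.Helper64.Vojta

theorem li (he : ∀ b, SUnit U T (e b)) (hmi : MI U e) (Q : MvPolynomial (Fin n) K) (hQ : Q ≠ 0) :
    ∀ᶠ i in (U : Filter ℕ), MvPolynomial.eval (fun b => e b i) Q ≠ 0 := by
  classical
  by_contra hcon
  rw [← Ultrafilter.eventually_not] at hcon
  have h1 := Pool.Agent.Helper26.DMC.sunit_indep U T
    (fun l : Fin Q.support.card => mon e (Q.support.equivFin.symm l))
    (fun l => sunit_mon U T e he _)
    (fun l l' hl => mon_inj U T e he hmi _ _ fun h => hl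
      (Q.support.equivFin.symm.injective (Subtype.ext h)))
    (fun l => Q.coeff (Q.support.equivFin.symm l)) (by
      filter_upwards [hcon] with i hi
      push Not at hi
      rw [eval_eq, sum_enum Q fun m => Q.coeff m * mon e m i] at hi
      exact hi)
  obtain ⟨m, hm⟩ := MvPolynomial.support_nonempty.2 hQ
  have h2 := congrFun h1 (Q.support.equivFin ⟨m, hm⟩)
  simp only [Equiv.symm_apply_apply, Pi.zero_apply] at h2
  exact (MvPolynomial.mem_support_iff.1 hm) h2

theorem lower_poly (he : ∀ b, SUnit U T (e b)) (hmi : MI U e) (Q : MvPolynomial (Fin n) K)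
    (hQ : Q ≠ 0) (t : ℕ → ℝ) (ht : Tendsto t (U : Filter ℕ) atTop) (C : ℝ)
    (hC : ∀ b v, ∀ᶠ i in (U : Filter ℕ), |Real.log (nv v (e b i))| ≤ C * t i) (v : Pl K) (δ : ℝ)
    (hδ : 0 < δ) :
    ∀ᶠ i in (U : Filter ℕ), ∀ m ∈ Q.support,
      ∑ b, Real.log (nv v (e b i)) * (m b : ℝ) - δ * t i ≤
        Real.log (nv v (MvPolynomial.eval (fun b => e b i) Q)) := by
  classical
  have h1 := lower_lin U T
    (fun l : Fin Q.support.card => mon e (Q.support.equivFin.symm l))
    (fun l => sunit_mon U T e he _)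
    (fun l l' hl => mon_inj U T e he hmi _ _ fun h => hl
      (Q.support.equivFin.symm.injective (Subtype.ext h)))
    (fun l => Q.coeff (Q.support.equivFin.symm l))
    (fun l => MvPolynomial.mem_support_iff.1 (Q.support.equivFin.symm l).2) t ht
    (∑ m ∈ Q.support, ∑ b, |C| * (m b : ℝ)) (by
      intro l w
      filter_upwards [all_unit U T e he, Filter.eventually_all.2 fun b => hC b w,
        ht.eventually_ge_atTop 0] with i hu hi hti
      rw [log_mon e _ i (fun b => (hu b).1)]
      refine (Finset.abs_sum_le_sum_abs _ _).trans ?_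
      have h2 : ∑ b, |Real.log (nv w (e b i)) * (((Q.support.equivFin.symm l : Fin n →₀ ℕ)) b : ℝ)| ≤
          (∑ b, |C| * (((Q.support.equivFin.symm l : Fin n →₀ ℕ)) b : ℝ)) * t i := by
        rw [Finset.sum_mul]
        refine Finset.sum_le_sum fun b _ => ?_
        rw [abs_mul, Nat.abs_cast]
        have h3 : |Real.log (nv w (e b i))| ≤ |C| * t i :=
          (hi b).trans (mul_le_mul_of_nonneg_right (le_abs_self C) hti)
        calc |Real.log (nv w (e b i))| * (((Q.support.equivFin.symm l : Fin n →₀ ℕ)) b : ℝ)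
            ≤ (|C| * t i) * (((Q.support.equivFin.symm l : Fin n →₀ ℕ)) b : ℝ) :=
              mul_le_mul_of_nonneg_right h3 (Nat.cast_nonneg _)
          _ = _ := by ring
      refine h2.trans (mul_le_mul_of_nonneg_right ?_ hti)
      exact Finset.single_le_sum (f := fun m : Fin n →₀ ℕ => ∑ b, |C| * (m b : ℝ))
        (fun m _ => Finset.sum_nonneg fun b _ => mul_nonneg (abs_nonneg _) (Nat.cast_nonneg _))
        (Q.support.equivFin.symm l).2) v δ hδ
  filter_upwards [h1, all_unit U T e he] with i hi hu m hm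
  have h4 := hi (Q.support.equivFin ⟨m, hm⟩)
  rw [Equiv.symm_apply_apply] at h4
  rw [log_mon e m i (fun b => (hu b).1)] at h4
  rw [eval_eq, sum_enum Q fun m => Q.coeff m * mon e m i]
  exact h4

theorem upper_poly (he : ∀ b, SUnit U T (e b)) (Q : MvPolynomial (Fin n) K) (v : Pl K) :
    ∃ C : ℝ, ∀ᶠ i in (U : Filter ℕ), MvPolynomial.eval (fun b => e b i) Q ≠ 0 →
      ∃ m ∈ Q.support, Real.log (nv v (MvPolynomial.eval (fun b => e b i) Q)) ≤
        ∑ b, Real.log (nv v (e b i)) * (m b : ℝ) + C := by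
  classical
  obtain ⟨A, hA⟩ : ∃ A : ℝ, A = ∑ m ∈ Q.support, nv v (Q.coeff m) := ⟨_, rfl⟩
  refine ⟨Real.log (((Q.support.card : ℝ) + 1) ^ 2 * A), ?_⟩
  filter_upwards [all_unit U T e he] with i hu h0
  have hne : Q.support.Nonempty := by
    rw [Finset.nonempty_iff_ne_empty]
    intro h
    apply h0
    rw [eval_eq, h, Finset.sum_empty]
  obtain ⟨m, hm, hmax⟩ := Finset.exists_max_image Q.support (fun m => nv v (mon e m i)) hne
  refine ⟨m, hm, ?_⟩
  have hmon : 0 < nv v (mon e m i) := nv_pos v (mon_ne e m i fun b => (hu b).1)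
  have hle : ∀ m' ∈ Q.support, nv v (Q.coeff m') ≤ A := by
    intro m' hm'
    rw [hA]
    exact Finset.single_le_sum (f := fun m => nv v (Q.coeff m)) (fun m _ => nv_nonneg v _) hm'
  have hA0 : 0 < A := lt_of_lt_of_le (nv_pos v (MvPolynomial.mem_support_iff.1 hm)) (hle m hm)
  have h1 : nv v (MvPolynomial.eval (fun b => e b i) Q) ≤
      ((Q.support.card : ℝ) + 1) ^ 2 * (A * nv v (mon e m i)) := by
    rw [eval_eq]
    refine nv_sum_le v _ _ _ (by positivity) fun m' hm' => ?_
    rw [nv_mul]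
    exact mul_le_mul (hle m' hm') (hmax m' hm') (nv_nonneg v _) hA0.le
  rw [← log_mon e m i (fun b => (hu b).1)]
  have h2 : Real.log (nv v (mon e m i)) + Real.log (((Q.support.card : ℝ) + 1) ^ 2 * A) =
      Real.log (((Q.support.card : ℝ) + 1) ^ 2 * (A * nv v (mon e m i))) := by
    rw [← Real.log_mul hmon.ne' (by positivity)]
    congr 1
    ring
  rw [h2]
  exact Real.log_le_log (nv_pos v h0) h1

/-- An inclusion of Newton polytopes gives an inequality for the values. -/
theorem place_le (he : ∀ b, SUnit U T (e b)) (hmi : MI U e) (P Q : MvPolynomial (Fin n) K)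
    (hP : P ≠ 0) (hQ : Q ≠ 0)
    (hsub : ∀ a : Fin n → ℝ, ∀ m ∈ P.support, ∃ m' ∈ Q.support,
      ∑ b, a b * (m b : ℝ) ≤ ∑ b, a b * (m' b : ℝ))
    (t : ℕ → ℝ) (ht : Tendsto t (U : Filter ℕ) atTop) (C : ℝ)
    (hC : ∀ b v, ∀ᶠ i in (U : Filter ℕ), |Real.log (nv v (e b i))| ≤ C * t i) (v : Pl K) (δ : ℝ)
    (hδ : 0 < δ) :
    ∀ᶠ i in (U : Filter ℕ), Real.log (nv v (MvPolynomial.eval (fun b => e b i) P)) ≤
      Real.log (nv v (MvPolynomial.eval (fun b => e b i) Q)) + δ * t i := by
  obtain ⟨C0, h0⟩ := upper_poly U T e he P v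
  have h1 := lower_poly U T e he hmi Q hQ t ht C hC v (δ / 2) (by linarith)
  filter_upwards [h0, h1, li U T e he hmi P hP, ht.eventually_ge_atTop (2 * C0 / δ)]
    with i a0 a1 a2 a3
  obtain ⟨m, hm, hm1⟩ := a0 a2
  obtain ⟨m', hm', hm2⟩ := hsub (fun b => Real.log (nv v (e b i))) m hm
  have h3 := a1 m' hm'
  rw [div_le_iff₀ hδ] at a3
  linarith

theorem prod_ge (he : ∀ b, SUnit U T (e b)) (Q : MvPolynomial (Fin n) K) :
    ∃ C : ℝ, ∀ᶠ i in (U : Filter ℕ), MvPolynomial.eval (fun b => e b i) Q ≠ 0 →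
      -C ≤ lsum T fun v => Real.log (nv v (MvPolynomial.eval (fun b => e b i) Q)) := by
  classical
  by_cases hQ : Q = 0
  · refine ⟨0, Eventually.of_forall fun i h => ?_⟩
    rw [hQ, map_zero] at h
    exact absurd rfl h
  obtain ⟨H, hH⟩ : ∃ H : Pl K → ℝ, H = fun v => match v with
      | .inl _ => 0
      | .inr v => max 0 (Real.log (Pool.Agent.V2.pn (.inr v) Q)) := ⟨_, rfl⟩
  have hHf : Pool.Agent.V2.FinS H := by
    refine Set.Finite.subset (Pool.Agent.V2.finS_pn hQ) fun v hv => ?_
    rw [Function.mem_support] at hv ⊢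
    intro h0
    apply hv
    rw [hH]
    have h1 : Real.log (Pool.Agent.V2.pn (.inr v) Q) = 0 := h0
    simp only
    rw [h1, max_self]
  refine ⟨Pool.Agent.V2.gsum H, ?_⟩
  filter_upwards [all_unit U T e he] with i hu h0
  have h1 := gsum_sub T _ (Pool.Agent.V2.finS_nv h0)
  rw [Pool.Agent.V2.gsum_nv h0, zero_sub] at h1
  have h2 : Pool.Agent.V2.gsum (K := K) (fun v => match v with
      | .inl _ => 0
      | .inr v => if v ∈ T then 0 else
          Real.log (nv (.inr v) (MvPolynomial.eval (fun b => e b i) Q))) ≤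
      Pool.Agent.V2.gsum H := by
    refine Pool.Agent.V2.gsum_mono ?_ hHf ?_
    · refine Set.Finite.subset (Pool.Agent.V2.finS_nv h0) fun v hv => ?_
      rw [Function.mem_support] at hv ⊢
      intro h3
      apply hv
      simp only
      split_ifs
      · rfl
      · exact h3
    · rintro (v | v)
      · rw [hH]
      · rw [hH]
        simp only
        split_ifs with hv
        · exact le_max_left _ _
        · refine le_trans ?_ (le_max_right _ _)
          refine Real.log_le_log (nv_pos _ h0) ?_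
          rw [eval_eq]
          refine nv_sum_le_inr v _ _ _ (Pool.Agent.V2.pn_pos _ hQ).le fun m _ => ?_
          rw [nv_mul]
          have h4 : nv (.inr v) (mon e m i) = 1 := by
            change v (mon e m i) = 1
            unfold mon
            rw [map_prod]
            refine Finset.prod_eq_one fun b _ => ?_
            rw [map_pow, (hu b).2 v hv, one_pow]
          rw [h4, mul_one]
          exact Pool.Agent.V2.le_pn _ Q m
  linarith

end Pool.Agent.Helper16.TP
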