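import Pool.Agent.Helper16.TP.Defs

/-!
# Block TP-GR: grouping proportional units

PROOF. Let `J` be the set of the `j` for which `u j` is an `SUnit` (for the others `u j = 0` almost everywhere).
On `J` proportionality almost everywhere (`∃ a, ∀ᶠ i, u j i = a * u j' i`) is an equivalence relation.
For a class `κ` with representative `j_κ` and `u j = a_j u_{j_κ}` almost everywhere for `j ∈ κ`, put
`H_κ = ∑_{j ∈ κ} C a_j * G j`. Then `F = ∑_κ C (u_{j_κ}) * H_κ` almost everywhere. Drop the classes with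
`H_κ = 0`; at least one class remains as `F ≠ 0`. Number them by `Fin m'`, choose one, `κ0`, and put
`ρ κ i = u_{j_κ} i / u_{j_κ0} i` (and `ρ κ i = 1` for the `i` with `u_{j_κ0} i = 0`),
`w i = (u_{j_κ0} i)⁻¹`.
-/

namespace Pool.Agent.Helper16.TP

open NumberField Finset Filter Polynomial
open Pool.Agent.Helper26.DMC (SUnit)

theorem group {K : Type*} [Field K] [NumberField K] (U : Ultrafilter ℕ)
    (T : Finset (FinitePlace K)) {r m : ℕ} (G : Fin m → K[X]) (hG : ∀ j, (G j).natDegree ≤ r)
    (u : Fin m → ℕ → K)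
    (hu : ∀ j, (∀ᶠ i in (U : Filter ℕ), u j i = 0) ∨ SUnit U T (u j)) (F : ℕ → K[X])
    (hF : ∀ᶠ i in (U : Filter ℕ), F i = ∑ j, C (u j i) * G j)
    (hF0 : ∀ᶠ i in (U : Filter ℕ), F i ≠ 0) :
    ∃ (m' : ℕ) (H : Fin m' → K[X]) (ρ : Fin m' → ℕ → K) (κ0 : Fin m') (w : ℕ → K),
      (∀ κ, H κ ≠ 0) ∧ (∀ κ, (H κ).natDegree ≤ r) ∧ (∀ κ, SUnit U T (ρ κ)) ∧
      (∀ κ κ', κ ≠ κ' → ¬ ∃ a : K, ∀ᶠ j in (U : Filter ℕ), ρ κ j = a * ρ κ' j) ∧
      (∀ i, ρ κ0 i = 1) ∧ SUnit U T w ∧
      ∀ᶠ i in (U : Filter ℕ), C (w i) * F i = ∑ κ, C (ρ κ i) * H κ := by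
  classical
  let s := {j : Fin m // SUnit U T (u j)}
  -- the relation of a.e. proportionality
  let r : Setoid s :=
    { r := fun i i' => ∃ a : K, ∀ᶠ n in (U : Filter ℕ), u i n = a * u i' n
      iseqv :=
        { refl := fun i => ⟨1, Filter.Eventually.of_forall fun n => by simp⟩
          symm := by
            rintro i i' ⟨a, ha⟩
            have hne : a ≠ 0 := by
              rintro rfl
              have h := (i.2).and ha
              obtain ⟨n, h1, h2⟩ := h.exists
              exact h1.1 (by rw [h2, zero_mul])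
            refine ⟨a⁻¹, ?_⟩
            filter_upwards [ha] with n hn
            rw [hn, ← mul_assoc, inv_mul_cancel₀ hne, one_mul]
          trans := by
            rintro i i' i'' ⟨a, ha⟩ ⟨b, hb⟩
            refine ⟨a * b, ?_⟩
            filter_upwards [ha, hb] with n h1 h2
            rw [h1, h2, mul_assoc] } }
  let _ : Fintype (Quotient r) := Fintype.ofFinite _
  have hρ : ∀ i : s, ∃ a : K, ∀ᶠ n in (U : Filter ℕ),
      u i n = a * u (Quotient.mk r i).out n := fun i =>
    r.iseqv.symm (Quotient.mk_out (s := r) i)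
  choose lam hlam using hρ
  have hlam' : ∀ᶠ n in (U : Filter ℕ), ∀ i : s, u i n = lam i * u (Quotient.mk r i).out n :=
    Filter.eventually_all.2 hlam
  -- the class sums
  let H' : Quotient r → K[X] := fun q =>
    ∑ i ∈ Finset.univ.filter (fun i : s => Quotient.mk r i = q), C (lam i) * G i
  have hzero : ∀ᶠ n in (U : Filter ℕ), ∀ j : Fin m, ¬ SUnit U T (u j) → u j n = 0 := by
    refine Filter.eventually_all.2 fun j => ?_
    rcases hu j with h | h
    · filter_upwards [h] with n hn _
      exact hn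
    · exact Filter.Eventually.of_forall fun n hn => absurd h hn
  have hFH : ∀ᶠ n in (U : Filter ℕ), F n = ∑ q : Quotient r, C (u q.out n) * H' q := by
    filter_upwards [hF, hlam', hzero] with n h1 h2 h3
    rw [h1]
    have e1 : ∑ j, C (u j n) * G j =
        ∑ j ∈ univ.filter (fun j => SUnit U T (u j)), C (u j n) * G j := by
      refine (Finset.sum_subset (Finset.filter_subset _ _) fun j _ hj => ?_).symm
      rw [h3 j (fun h => hj (Finset.mem_filter.2 ⟨Finset.mem_univ _, h⟩)), C_0, zero_mul]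
    have e2 : ∑ j ∈ univ.filter (fun j => SUnit U T (u j)), C (u j n) * G j =
        ∑ i : s, C (u i n) * G i := by
      rw [← Finset.sum_subtype_eq_sum_filter, Finset.subtype_univ]
    rw [e1, e2, ← Finset.sum_fiberwise Finset.univ (Quotient.mk r)]
    refine Finset.sum_congr rfl fun q _ => ?_
    rw [Finset.mul_sum]
    refine Finset.sum_congr rfl fun i hi => ?_
    have hq : Quotient.mk r i = q := (Finset.mem_filter.1 hi).2
    rw [h2 i, hq, C_mul]
    ring
  -- the classes with nonzero sum
  let Q := {q : Quotient r // H' q ≠ 0}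
  let _ : Fintype Q := Fintype.ofFinite _
  have hQ : Nonempty Q := by
    by_contra hne
    obtain ⟨n, h1, h2⟩ := (hFH.and hF0).exists
    apply h2
    rw [h1]
    refine Finset.sum_eq_zero fun q _ => ?_
    have : H' q = 0 := by
      by_contra h
      exact hne ⟨⟨q, h⟩⟩
    rw [this, mul_zero]
  obtain ⟨q0⟩ := hQ
  have hFQ : ∀ᶠ n in (U : Filter ℕ), F n = ∑ q : Q, C (u q.1.out n) * H' q.1 := by
    filter_upwards [hFH] with n h1
    rw [h1]
    have e1 : ∑ q : Quotient r, C (u q.out n) * H' q =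
        ∑ q ∈ univ.filter (fun q : Quotient r => H' q ≠ 0), C (u q.out n) * H' q := by
      refine (Finset.sum_subset (Finset.filter_subset _ _) fun q _ hq => ?_).symm
      have : H' q = 0 := by
        by_contra h
        exact hq (Finset.mem_filter.2 ⟨Finset.mem_univ _, h⟩)
      rw [this, mul_zero]
    rw [e1]
    exact Finset.sum_subtype _ (fun q => by simp) _
  let e := Fintype.equivFin Q
  refine ⟨Fintype.card Q, fun κ => H' (e.symm κ).1,
    fun κ i => if u q0.1.out i = 0 then 1 else u (e.symm κ).1.out i / u q0.1.out i, e q0,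
    fun i => if u q0.1.out i = 0 then 1 else (u q0.1.out i)⁻¹, fun κ => (e.symm κ).2, ?_, ?_, ?_,
    ?_, ?_, ?_⟩
  · intro κ
    refine natDegree_sum_le_of_forall_le _ _ fun i _ => ?_
    exact (natDegree_C_mul_le _ _).trans (hG _)
  · intro κ
    exact Pool.Agent.Helper26.DMC.SU1.sunit_div (e.symm κ).1.out.2 q0.1.out.2
  · rintro κ κ' hκ ⟨a, ha⟩
    apply hκ
    apply e.symm.injective
    apply Subtype.ext
    have hex : ∃ a : K, ∀ᶠ n in (U : Filter ℕ), u (e.symm κ).1.out n = a * u (e.symm κ').1.out n := by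
      refine ⟨a, ?_⟩
      filter_upwards [ha, q0.1.out.2] with n h1 h2
      simp only [if_neg h2.1] at h1
      rw [div_eq_iff h2.1] at h1
      rw [h1, mul_assoc, div_mul_cancel₀ _ h2.1]
    have h3 : (Quotient.mk r (e.symm κ).1.out) = Quotient.mk r (e.symm κ').1.out :=
      Quotient.sound (s := r) hex
    rwa [Quotient.out_eq, Quotient.out_eq] at h3
  · intro i
    simp only [Equiv.symm_apply_apply]
    split_ifs with h
    · rfl
    · exact div_self h
  · unfold SUnit
    filter_upwards [q0.1.out.2] with n h2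
    simp only [if_neg h2.1]
    refine ⟨inv_ne_zero h2.1, fun v hv => ?_⟩
    rw [map_inv₀, h2.2 v hv, inv_one]
  · filter_upwards [hFQ, q0.1.out.2] with n h1 h2
    simp only [if_neg h2.1]
    rw [h1, Finset.mul_sum, ← Equiv.sum_comp e.symm]
    refine Finset.sum_congr rfl fun κ _ => ?_
    rw [div_eq_mul_inv, C_mul]
    ring

end Pool.Agent.Helper16.TP
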