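import Pool.Agent.Helper16.TP.LowerLin

/-!
# Block TP-HT: the height of the coefficients of the combination bounds the height of the units

PROOF. `t i = vH (fun κ => ρ κ i)`. As `ρ κ0 = 1`: `0 ≤ log (vn v (ρ i))` for all `v`, `log (vn v (ρ i)) ≤ t i`
(`single_le_gsum`), and `|log (nv v (ρ κ i))| ≤ t i` almost everywhere (`le_nv_of_ne_zero`; exactly as in
`Pool.Agent.Helper26.DMC.SU1.core1`), and `vn v (ρ i) = 1` for a finite place `v ∉ T`. Let `v` be infinite or in `T`, `κ` an
index, `s ≤ r` with `(H κ).coeff s ≠ 0`. `lower_lin` for the family of the `ρ κ'` with `(H κ').coeff s ≠ 0`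
(reindexed by `Fin _`) and the constants `(H κ').coeff s` gives
`log (nv v (ρ κ i)) - δ t ≤ log (nv v ((F i).coeff s)) ≤ log (vn v (cf r (F i)))` almost everywhere. So
`log (vn v (ρ i)) - δ t ≤ log (vn v (cf r (F i)))`. Sum over the infinite places and `T`, with
`δ * (number of places) ≤ 1 / 2`, and the other finite places contribute `0` to the height of `ρ` and
`≥ 0` to the height of `cf r (F i)` (`hprim`).
`lsum_le`: the places outside contribute `≥ 0`.
-/

namespace Pool.Agent.Helper16.TP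

open NumberField Finset Filter Polynomial
open Pool.Agent.Helper64.Vojta (Pl nv sn)
open Pool.Agent.Helper26.DMC (SUnit)
open Pool.Agent.Helper61.AD (cf)
open Pool.Agent.V2 (vn vH)

theorem units_le {K : Type*} [Field K] [NumberField K] (U : Ultrafilter ℕ)
    (T : Finset (FinitePlace K)) {m : ℕ} (ρ : Fin m → ℕ → K) (hρ : ∀ κ, SUnit U T (ρ κ))
    (κ0 : Fin m) (h0 : ∀ i, ρ κ0 i = 1) (κ : Fin m) (v : Pl K) :
    ∀ᶠ i in (U : Filter ℕ), |Real.log (nv v (ρ κ i))| ≤ vH (fun κ => ρ κ i) := by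
  have hne : ∀ i, (fun κ => ρ κ i) ≠ 0 := by
    intro i h
    have := congrFun h κ0
    simp only [h0, Pi.zero_apply] at this
    exact one_ne_zero this
  have hN : ∀ i (v : Pl K), 0 ≤ Real.log (vn v (fun κ => ρ κ i)) := by
    intro i v
    refine Real.log_nonneg ?_
    have := Pool.Agent.V2.le_vn v (fun κ => ρ κ i) κ0
    rwa [h0, Pool.Agent.Helper64.Vojta.nv_one] at this
  filter_upwards [hρ κ] with i hi
  have hup : ∀ w : Pl K, Real.log (nv w (ρ κ i)) ≤ Real.log (vn w (fun κ => ρ κ i)) := fun w =>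
    Real.log_le_log (Pool.Agent.Helper64.Vojta.nv_pos w hi.1)
      (Pool.Agent.V2.le_vn w (fun κ => ρ κ i) κ)
  rw [abs_le]
  constructor
  · have h2 := Pool.Agent.V2.le_nv_of_ne_zero hi.1
      (fun w => Real.log (vn w (fun κ => ρ κ i))) (Pool.Agent.V2.finS_vn (hne i)) hup v
    have h3 := hN i v
    have h4 : Pool.Agent.V2.gsum (fun w => Real.log (vn w (fun κ => ρ κ i))) =
      vH (fun κ => ρ κ i) := rfl
    rw [h4] at h2
    linarith
  · exact (hup v).trans (Pool.Agent.V2.single_le_gsum (Pool.Agent.V2.finS_vn (hne i)) (hN i) v)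

theorem lsum_le {K : Type*} [Field K] [NumberField K] (T : Finset (FinitePlace K)) {ι : Type*}
    [Fintype ι] (x : ι → K) (hx : x ≠ 0) (h : ∀ v : FinitePlace K, v ∉ T → 1 ≤ vn (.inr v) x) :
    (lsum T fun v => Real.log (vn v x)) ≤ vH x := by
  classical
  set f : Pl K → ℝ := fun v => Real.log (vn v x) with hf
  set g : Pl K → ℝ := fun v => match v with
    | .inl v => f (.inl v)
    | .inr v => if v ∈ T then f (.inr v) else 0 with hg
  have hg0 : ∀ v : FinitePlace K, v ∉ T → g (.inr v) = 0 := by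
    intro v hv
    simp only [hg, hv, if_false]
  have h1 : Pool.Agent.V2.gsum g = lsum T f := by
    rw [Pool.Agent.Helper26.DMC.SU1.gsum_eq_of_S T g hg0]
    unfold lsum
    congr 1
    refine Finset.sum_congr rfl fun v hv => ?_
    simp only [hg, hv, if_true]
  rw [← h1]
  change Pool.Agent.V2.gsum g ≤ Pool.Agent.V2.gsum f
  refine Pool.Agent.V2.gsum_mono (Pool.Agent.Helper26.DMC.SU1.finS_of_S T g hg0)
    (Pool.Agent.V2.finS_vn hx) ?_
  rintro (v | v)
  · exact le_rfl
  · by_cases hv : v ∈ T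
    · simp only [hg, hv, if_true]; exact le_rfl
    · simp only [hg, hv, if_false]
      exact Real.log_nonneg (h v hv)

theorem height_ge {K : Type*} [Field K] [NumberField K] (U : Ultrafilter ℕ)
    (T : Finset (FinitePlace K)) {r m : ℕ} (H : Fin m → K[X]) (hH : ∀ κ, H κ ≠ 0)
    (hHr : ∀ κ, (H κ).natDegree ≤ r) (ρ : Fin m → ℕ → K) (hρ : ∀ κ, SUnit U T (ρ κ))
    (hne : ∀ κ κ', κ ≠ κ' → ¬ ∃ a : K, ∀ᶠ j in (U : Filter ℕ), ρ κ j = a * ρ κ' j)
    (κ0 : Fin m) (h0 : ∀ i, ρ κ0 i = 1) (F : ℕ → K[X])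
    (hF : ∀ᶠ i in (U : Filter ℕ), F i = ∑ κ, C (ρ κ i) * H κ)
    (hprim : ∀ᶠ i in (U : Filter ℕ), ∀ v : FinitePlace K, v ∉ T → 1 ≤ vn (.inr v) (cf r (F i)))
    (ht : Tendsto (fun i => vH (fun κ => ρ κ i)) (U : Filter ℕ) atTop) :
    ∀ᶠ i in (U : Filter ℕ), vH (fun κ => ρ κ i) ≤ 2 * vH (cf r (F i)) := by
  classical
  set t : ℕ → ℝ := fun i => vH (fun κ => ρ κ i) with htdef
  have hne0 : ∀ i, (fun κ => ρ κ i) ≠ 0 := by
    intro i h
    have := congrFun h κ0
    simp only [h0, Pi.zero_apply] at this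
    exact one_ne_zero this
  set N : ℝ := Fintype.card (InfinitePlace K) + T.card with hN
  have hNpos : 0 < N := by
    have h2 : 0 < Fintype.card (InfinitePlace K) := Fintype.card_pos
    have h3 : (0 : ℝ) < Fintype.card (InfinitePlace K) := by exact_mod_cast h2
    positivity
  set δ : ℝ := 1 / (2 * N) with hδ
  have hδpos : 0 < δ := by positivity
  -- one place, one index
  have key : ∀ (κ : Fin m) (v : Pl K), ∀ᶠ i in (U : Filter ℕ), cf r (F i) ≠ 0 ∧
      Real.log (nv v (ρ κ i)) - δ * t i ≤ Real.log (vn v (cf r (F i))) := by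
    intro κ v
    obtain ⟨s, hs⟩ : ∃ s, (H κ).coeff s ≠ 0 := Pool.Agent.V2.exists_coeff_ne (hH κ)
    have hsr : s ≤ r := by
      by_contra hcon
      push Not at hcon
      exact hs (coeff_eq_zero_of_natDegree_lt (lt_of_le_of_lt (hHr κ) hcon))
    set J : Finset (Fin m) := Finset.univ.filter fun κ' => (H κ').coeff s ≠ 0 with hJ
    set f : Fin J.card ≃ J := J.equivFin.symm with hf
    have hfJ : ∀ l, (H (f l)).coeff s ≠ 0 := fun l => (Finset.mem_filter.mp (f l).2).2
    have hsum : ∀ i, (∑ l, (H (f l)).coeff s * ρ (f l) i) = (∑ κ, C (ρ κ i) * H κ).coeff s := by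
      intro i
      rw [finsetSum_coeff]
      have h1 : ∑ κ' : Fin m, (C (ρ κ' i) * H κ').coeff s =
          ∑ κ' ∈ J, (H κ').coeff s * ρ κ' i := by
        rw [hJ, Finset.sum_filter]
        refine Finset.sum_congr rfl fun κ' _ => ?_
        rw [coeff_C_mul]
        split_ifs with h
        · ring
        · push Not at h
          rw [h, mul_zero]
      rw [h1, ← Finset.sum_coe_sort J (fun κ' => (H κ').coeff s * ρ κ' i)]
      exact Equiv.sum_comp f (fun κ' : J => (H κ').coeff s * ρ κ' i)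
    have hneJ : ∀ l l' : Fin J.card, l ≠ l' →
        ¬ ∃ a : K, ∀ᶠ j in (U : Filter ℕ), ρ (f l) j = a * ρ (f l') j := by
      intro l l' hl
      refine hne _ _ fun h => hl (f.injective (Subtype.ext h))
    have hκJ : κ ∈ J := Finset.mem_filter.mpr ⟨Finset.mem_univ _, hs⟩
    have hnz : ∀ᶠ i in (U : Filter ℕ), (∑ l, (H (f l)).coeff s * ρ (f l) i) ≠ 0 := by
      have h1 : ∀ᶠ i in (U : Filter ℕ), ¬ (∑ l, (H (f l)).coeff s * ρ (f l) i) = 0 := by
        rw [Ultrafilter.eventually_not]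
        intro hcon
        have h2 := Pool.Agent.Helper26.DMC.sunit_indep U T (fun l => ρ (f l))
          (fun l => hρ _) hneJ (fun l => (H (f l)).coeff s) hcon
        have h3 := congrFun h2 (f.symm ⟨κ, hκJ⟩)
        exact hfJ _ h3
      exact h1
    have hlow := lower_lin U T (fun l => ρ (f l)) (fun l => hρ _) hneJ
      (fun l => (H (f l)).coeff s) hfJ t ht 1
      (fun l w => by
        filter_upwards [units_le U T ρ hρ κ0 h0 (f l) w] with i hi
        rw [one_mul]
        exact hi) v δ hδpos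
    filter_upwards [hnz, hlow, hF] with i hi1 hi2 hi3
    have h4 : (F i).coeff s = ∑ l, (H (f l)).coeff s * ρ (f l) i := by
      rw [hi3, hsum]
    have h5 : cf r (F i) ⟨s, by omega⟩ = ∑ l, (H (f l)).coeff s * ρ (f l) i := h4
    have h6 : cf r (F i) ≠ 0 := by
      intro h
      rw [h] at h5
      exact hi1 h5.symm
    refine ⟨h6, ?_⟩
    have h7 := hi2 (f.symm ⟨κ, hκJ⟩)
    have h8 : ((f (f.symm ⟨κ, hκJ⟩) : J) : Fin m) = κ := by
      rw [Equiv.apply_symm_apply]
    simp only [h8] at h7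
    refine h7.trans ?_
    rw [← h5]
    refine Real.log_le_log (Pool.Agent.Helper64.Vojta.nv_pos v ?_) (Pool.Agent.V2.le_vn v _ _)
    rw [h5]
    exact hi1
  -- all indices
  have key2 : ∀ v : Pl K, ∀ᶠ i in (U : Filter ℕ),
      Real.log (vn v (fun κ => ρ κ i)) ≤ Real.log (vn v (cf r (F i))) + δ * t i := by
    intro v
    have h1 : ∀ᶠ i in (U : Filter ℕ), ∀ κ, ρ κ i ≠ 0 ∧ (cf r (F i) ≠ 0 ∧
        Real.log (nv v (ρ κ i)) - δ * t i ≤ Real.log (vn v (cf r (F i)))) := by
      rw [Filter.eventually_all]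
      intro κ
      filter_upwards [hρ κ, key κ v] with i hi1 hi2
      exact ⟨hi1.1, hi2⟩
    filter_upwards [h1] with i hi
    rw [Real.log_le_iff_le_exp (Pool.Agent.V2.vn_pos v (hne0 i))]
    refine Pool.Agent.V2.vn_le v _ (Real.exp_pos _).le ?_
    intro κ
    rw [← Real.log_le_iff_le_exp (Pool.Agent.Helper64.Vojta.nv_pos v (hi κ).1)]
    have := (hi κ).2.2
    linarith
  have keyI : ∀ᶠ i in (U : Filter ℕ), ∀ v : InfinitePlace K,
      Real.log (vn (.inl v) (fun κ => ρ κ i)) ≤ Real.log (vn (.inl v) (cf r (F i))) + δ * t i := by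
    rw [Filter.eventually_all]
    exact fun v => key2 (.inl v)
  have keyT : ∀ᶠ i in (U : Filter ℕ), ∀ v ∈ T,
      Real.log (vn (.inr v) (fun κ => ρ κ i)) ≤ Real.log (vn (.inr v) (cf r (F i))) + δ * t i := by
    rw [Filter.eventually_all_finset]
    exact fun v _ => key2 (.inr v)
  have hall : ∀ᶠ i in (U : Filter ℕ), ∀ κ, ρ κ i ≠ 0 ∧ ∀ v : FinitePlace K, v ∉ T →
      v (ρ κ i) = 1 := by
    rw [Filter.eventually_all]
    exact fun κ => hρ κ
  filter_upwards [keyI, keyT, hall, hprim, key κ0 (.inl (Classical.arbitrary _))] with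
    i hI hT ha hp hk
  have h1 : t i = lsum T fun v => Real.log (vn v (fun κ => ρ κ i)) := by
    change Pool.Agent.V2.gsum (fun v => Real.log (vn v (fun κ => ρ κ i))) = _
    refine Pool.Agent.Helper26.DMC.SU1.gsum_eq_of_S T _ ?_
    intro v hv
    have h5 : ∀ κ, nv (.inr v) (ρ κ i) = 1 := fun κ => (ha κ).2 v hv
    have h4 : vn (.inr v) (fun κ => ρ κ i) = 1 := by
      refine le_antisymm (Pool.Agent.V2.vn_le _ _ zero_le_one fun κ => (h5 κ).le) ?_
      have := Pool.Agent.V2.le_vn (.inr v) (fun κ => ρ κ i) κ0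
      rwa [h5 κ0] at this
    rw [h4, Real.log_one]
  have h2 : (lsum T fun v => Real.log (vn v (fun κ => ρ κ i))) ≤
      (lsum T fun v => Real.log (vn v (cf r (F i)))) + N * (δ * t i) := by
    unfold lsum
    have s1 := Finset.sum_le_sum fun v (_ : v ∈ (Finset.univ : Finset (InfinitePlace K))) => hI v
    have s2 := Finset.sum_le_sum fun v (hv : v ∈ T) => hT v hv
    rw [Finset.sum_add_distrib, Finset.sum_const, Finset.card_univ, nsmul_eq_mul] at s1
    rw [Finset.sum_add_distrib, Finset.sum_const, nsmul_eq_mul] at s2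
    rw [hN]
    linarith
  have h3 := lsum_le T (cf r (F i)) hk.1 hp
  have h4 : N * (δ * t i) = t i / 2 := by
    rw [hδ]
    field_simp
  change t i ≤ 2 * vH (cf r (F i))
  rw [h4] at h2
  linarith

end Pool.Agent.Helper16.TP
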