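import Pool.Agent.Helper16.TP.KSeq
import Pool.Agent.Helper16.TP.Height
import Pool.Agent.Helper16.TP.Group
import Pool.Agent.Helper16.TP.Bdd

/-!
# Block TP-KF: the inequality over `K`

PROOF. Write `P_K = P.map (algebraMap k K)`, `q = p.card`. Suppose there is no `c`; choose for every `n : ℕ` a counterexample
`P n, a n, u n` for `c = n`; `U` = an ultrafilter `≤ atTop` (`Filter.hyperfilter ℕ`).
(1) `vH (cf r (P_K n))` tends to infinity along `U`: `bdd_vec` (the coefficient of `X ^ r` is 1); otherwise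
`cf r (P_K n)` is constant almost everywhere, so `P_K n` is, and the left side of the inequality is constant
while `c = n` tends to infinity (and `0 ≤ (2 r + ε) vH`).
(2) For every `j` either `u · j = 0` almost everywhere or it is an `SUnit` (ultrafilter). `group` with
`F n = C (a n) * P_K n`; put `F' n = C (w n) * F n`. Then `t n = vH (ρ n)` tends to infinity
(`bdd_vec`; otherwise `ρ`, `F' n` are constant almost everywhere, but `vH (cf r (F' n)) = vH (cf r (P_K n))`
(`vH_smul`) tends to infinity).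
(3) `kseq` for `F'` (its hypotheses: degree `r`; `rd r F' ≠ 0` because `P` is separable: `resultant_deriv` or
`resultant_eq_zero_iff`; `F'(x) ≠ 0`; if `G ∣ F' n` almost everywhere with `G` not constant then the
minimal polynomial of a root of `G` over `k` is `P n` (in an algebraic closure of `K`), so `P n` takes finitely many values,
so is constant almost everywhere, a contradiction to (1); `units_le`) with `δ' = ε / 4`,
`height_ge` (`|F'|_v = |F|_v ≥ 1` for `v ∉ T` because `w` is a unit there): almost everywhere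
`lsum T ((q - 1) log |F'|_v - log |rd r F'|_v - ∑ log |F'(x)|_v) ≤ ε/4 * t ≤ ε/2 * vH (cf r P_K)`.
(4) The expression `(2 r - 1 + q) log |F|_v - log |rd r F|_v - ∑ log |F(x)|_v` does not change if `F` is
multiplied by a constant (`rd r (C b * F) = b ^ (2 r - 1) * rd r F`), and it is
`(q - 1) log |F'|_v - ... + 2 r log |F'|_v`, with `lsum T (log |F'|_v) ≤ vH (cf r F') = vH (cf r P_K)` (`lsum_le`). So the
left side for `P n` is `≤ (2 r + ε/2) vH (cf r P_K)` almost everywhere, contradiction.
-/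

namespace Pool.Agent.Helper16.TP

open NumberField Finset Filter Polynomial
open Pool.Agent.Helper64.Vojta (Pl nv sn)
open Pool.Agent.Helper61.AD (cf)
open Pool.Agent.V2 (vn vH)

section aux12

open Pool.Agent.Helper64.Vojta (nv_mul nv_one nv_pos nv_inv nv_zero)
open Pool.Agent.V2 (vn_smul vn_pos vH_smul vH_nonneg)
open Pool.Agent.Helper26.DMC (SUnit)

variable {K : Type*} [Field K] [NumberField K]

theorem nv_pow12 (v : Pl K) (b : K) (n : ℕ) : nv v (b ^ n) = nv v b ^ n := by
  induction n with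
  | zero => rw [pow_zero, pow_zero, nv_one]
  | succ n ih => rw [pow_succ, nv_mul, ih, pow_succ]

omit [NumberField K] in
theorem cf_C_mul12 (r : ℕ) (b : K) (P : K[X]) : cf r (C b * P) = b • cf r P := by
  funext j
  simp [cf]

omit [NumberField K] in
theorem rd_C_mul12 {r : ℕ} (hr : 1 ≤ r) (b : K) (P : K[X]) :
    rd r (C b * P) = b ^ (2 * r - 1) * rd r P := by
  unfold rd
  rw [derivative_C_mul, resultant_C_mul_left, resultant_C_mul_right, ← mul_assoc, ← pow_add]
  congr 2
  omega

theorem expr_eq12 {r : ℕ} (hr : 1 ≤ r) (p : Finset K) (v : Pl K) {b : K} (hb : b ≠ 0) {Q : K[X]}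
    (hQ : cf r Q ≠ 0) (hrd : rd r Q ≠ 0) (hx : ∀ x ∈ p, Q.eval x ≠ 0) :
    (2 * (r : ℝ) - 1 + p.card) * Real.log (vn v (cf r Q)) - Real.log (nv v (rd r Q)) -
        ∑ x ∈ p, Real.log (nv v (Q.eval x)) =
      (((p.card : ℝ) - 1) * Real.log (vn v (cf r (C b * Q))) - Real.log (nv v (rd r (C b * Q))) -
        ∑ x ∈ p, Real.log (nv v ((C b * Q).eval x))) +
        2 * r * Real.log (vn v (cf r (C b * Q))) := by
  have h1 : Real.log (vn v (cf r (C b * Q))) = Real.log (nv v b) + Real.log (vn v (cf r Q)) := by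
    rw [cf_C_mul12, vn_smul, Real.log_mul (nv_pos v hb).ne' (vn_pos v hQ).ne']
  have h2 : Real.log (nv v (rd r (C b * Q))) =
      (2 * (r : ℝ) - 1) * Real.log (nv v b) + Real.log (nv v (rd r Q)) := by
    rw [rd_C_mul12 hr, nv_mul, nv_pow12, Real.log_mul (pow_pos (nv_pos v hb) _).ne'
      (nv_pos v hrd).ne', Real.log_pow]
    congr 2
    rw [Nat.cast_sub (by omega)]
    push_cast
    ring
  have h3 : ∑ x ∈ p, Real.log (nv v ((C b * Q).eval x)) =
      p.card * Real.log (nv v b) + ∑ x ∈ p, Real.log (nv v (Q.eval x)) := by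
    rw [← nsmul_eq_mul, ← Finset.sum_const, ← Finset.sum_add_distrib]
    refine Finset.sum_congr rfl fun x hx' => ?_
    rw [eval_mul, eval_C, nv_mul, Real.log_mul (nv_pos v hb).ne' (nv_pos v (hx x hx')).ne']
  rw [h1, h2, h3]
  ring

theorem lsum_add_mul12 (T : Finset (FinitePlace K)) (f g : Pl K → ℝ) (c : ℝ) :
    (lsum T fun v => f v + c * g v) = lsum T f + c * lsum T g := by
  unfold lsum
  rw [Finset.sum_add_distrib, Finset.sum_add_distrib, ← Finset.mul_sum, ← Finset.mul_sum]
  ring

theorem eventually_zero_or_sunit12 (U : Ultrafilter ℕ) (T : Finset (FinitePlace K)) (y : ℕ → K)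
    (h : ∀ n, y n = 0 ∨ ∀ v : FinitePlace K, v ∉ T → v (y n) = 1) :
    (∀ᶠ n in (U : Filter ℕ), y n = 0) ∨ SUnit U T y := by
  by_cases h0 : ∀ᶠ n in (U : Filter ℕ), y n = 0
  · exact Or.inl h0
  · right
    rw [← Ultrafilter.eventually_not] at h0
    unfold SUnit
    filter_upwards [h0] with n hn
    exact ⟨hn, (h n).resolve_left hn⟩

omit [NumberField K] in
/-- two polynomials of degree at most `r` with the same coefficient vectors agree -/
theorem eq_of_cf12 {r : ℕ} {P Q : K[X]} (hP : P.natDegree ≤ r) (hQ : Q.natDegree ≤ r)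
    (h : cf r P = cf r Q) : P = Q := by
  ext j
  by_cases hj : j ≤ r
  · have := congrFun h ⟨j, Nat.lt_succ_of_le hj⟩
    exact this
  · rw [coeff_eq_zero_of_natDegree_lt (by omega), coeff_eq_zero_of_natDegree_lt (by omega)]

end aux12

theorem kfinal {k K : Type*} [Field k] [NumberField k] [Field K] [NumberField K] [Algebra k K]
    {r m : ℕ} (hr : 1 ≤ r) (T : Finset (FinitePlace K)) (G : Fin m → K[X])
    (hG : ∀ j, (G j).natDegree ≤ r) (p : Finset K) (hp : p.Nonempty) (ε : ℝ) (hε : 0 < ε) :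
    ∃ c : ℝ, ∀ P : k[X], P.Monic → Irreducible P → P.natDegree = r →
      (∀ x ∈ p, (P.map (algebraMap k K)).eval x ≠ 0) → ∀ (a : K) (u : Fin m → K), a ≠ 0 →
      (∀ j, u j = 0 ∨ ∀ v : FinitePlace K, v ∉ T → v (u j) = 1) →
      C a * P.map (algebraMap k K) = ∑ j, C (u j) * G j →
      (∀ v : FinitePlace K, v ∉ T → 1 ≤ vn (.inr v) (cf r (C a * P.map (algebraMap k K)))) →
      (lsum T fun v =>
        (2 * (r : ℝ) - 1 + p.card) * Real.log (vn v (cf r (P.map (algebraMap k K)))) -
          Real.log (nv v (rd r (P.map (algebraMap k K)))) -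
          ∑ x ∈ p, Real.log (nv v ((P.map (algebraMap k K)).eval x))) ≤
        (2 * r + ε) * vH (cf r (P.map (algebraMap k K))) + c := by
  classical
  by_contra hcon
  push Not at hcon
  choose P hPm hPi hPd hPx a u ha hu hsum hprim hbad using fun n : ℕ => hcon n
  let U : Ultrafilter ℕ := Filter.hyperfilter ℕ
  have hU : (U : Filter ℕ) ≤ atTop := _root_.Nat.hyperfilter_le_atTop
  let Q : ℕ → K[X] := fun n => (P n).map (algebraMap k K)
  have hQm : ∀ n, (Q n).Monic := fun n => (hPm n).map _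
  have hQd : ∀ n, (Q n).natDegree = r := fun n => by
    rw [← hPd n]
    exact (hPm n).natDegree_map _
  have hcf1 : ∀ n, cf r (Q n) (Fin.last r) = 1 := by
    intro n
    have h1 := (hQm n).coeff_natDegree
    rw [hQd n] at h1
    exact h1
  have hcf0 : ∀ n, cf r (Q n) ≠ 0 := by
    intro n h
    have h1 := hcf1 n
    rw [h] at h1
    exact zero_ne_one h1
  have hrd0 : ∀ n, rd r (Q n) ≠ 0 := by
    intro n h
    have hsep : (Q n).Separable := ((hPi n).separable).map
    have hder : (derivative (Q n)).natDegree = r - 1 := by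
      rw [natDegree_derivative, hQd n]
    have h1 : resultant (Q n) (derivative (Q n)) = 0 := by
      rw [hQd n, hder]
      exact h
    rw [resultant_eq_zero_iff] at h1
    exact h1.2 hsep
  have hvH0 : ∀ n, 0 ≤ vH (cf r (Q n)) := fun n => Pool.Agent.V2.vH_nonneg (hcf0 n)
  have hcoef : 0 ≤ 2 * (r : ℝ) + ε := by positivity
  -- (1)
  have hlim : Tendsto (fun n => vH (cf r (Q n))) (U : Filter ℕ) atTop := by
    rcases bdd_vec U (fun n => cf r (Q n)) (Fin.last r) (Filter.Eventually.of_forall hcf1) with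
      h | ⟨y, hy⟩
    · exact h
    · exfalso
      obtain ⟨n0, hn0⟩ := hy.exists
      have h2 : ∀ᶠ n in (U : Filter ℕ), Q n = Q n0 := by
        filter_upwards [hy] with n hn
        exact eq_of_cf12 (hQd n).le (hQd n0).le (hn.trans hn0.symm)
      set L := lsum T fun v =>
        (2 * (r : ℝ) - 1 + p.card) * Real.log (vn v (cf r (Q n0))) -
          Real.log (nv v (rd r (Q n0))) - ∑ x ∈ p, Real.log (nv v ((Q n0).eval x)) with hL
      have h3 : ∀ᶠ n : ℕ in (U : Filter ℕ), L < (n : ℝ) :=
        ((tendsto_natCast_atTop_atTop (R := ℝ)).eventually_gt_atTop L).filter_mono hU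
      obtain ⟨n, hn1, hn2⟩ := (h2.and h3).exists
      have h4 := hbad n
      change (2 * (r : ℝ) + ε) * vH (cf r (Q n)) + n < lsum T fun v =>
        (2 * (r : ℝ) - 1 + p.card) * Real.log (vn v (cf r (Q n))) -
          Real.log (nv v (rd r (Q n))) - ∑ x ∈ p, Real.log (nv v ((Q n).eval x)) at h4
      have h5 := mul_nonneg hcoef (hvH0 n)
      rw [hn1] at h4 h5
      rw [← hL] at h4
      linarith
  -- (2)
  let F : ℕ → K[X] := fun n => C (a n) * Q n
  obtain ⟨m', H, ρ, κ0, w, hH0, hHd, hρ, hne, hρ0, hw, hFw⟩ := group U T G hG (fun j n => u n j)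
    (fun j => eventually_zero_or_sunit12 U T _ fun n => hu n j) F
    (Filter.Eventually.of_forall fun n => hsum n)
    (Filter.Eventually.of_forall fun n => mul_ne_zero (C_ne_zero.2 (ha n)) (hQm n).ne_zero)
  let F' : ℕ → K[X] := fun n => C (w n) * F n
  have hF'b : ∀ n, F' n = C (w n * a n) * Q n := by
    intro n
    simp only [F', F, C_mul, mul_assoc]
  have hw0 : ∀ᶠ n in (U : Filter ℕ), w n * a n ≠ 0 := by
    filter_upwards [hw] with n hn
    exact mul_ne_zero hn.1 (ha n)
  have hvHF : ∀ᶠ n in (U : Filter ℕ), vH (cf r (F' n)) = vH (cf r (Q n)) := by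
    filter_upwards [hw0] with n hn
    rw [hF'b n, cf_C_mul12]
    exact Pool.Agent.V2.vH_smul (hcf0 n) hn
  have ht : Tendsto (fun n => vH (fun κ => ρ κ n)) (U : Filter ℕ) atTop := by
    rcases bdd_vec U (fun n κ => ρ κ n) κ0 (Filter.Eventually.of_forall hρ0) with h | ⟨y, hy⟩
    · exact h
    · exfalso
      have h2 : ∀ᶠ n in (U : Filter ℕ), vH (cf r (Q n)) = vH (cf r (∑ κ, C (y κ) * H κ)) := by
        filter_upwards [hy, hFw, hvHF] with n h3 h4 h5
        rw [← h5]
        have h6 : F' n = ∑ κ, C (y κ) * H κ := by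
          rw [← h3]
          exact h4
        rw [h6]
      have h3 := hlim.eventually_gt_atTop (vH (cf r (∑ κ, C (y κ) * H κ)))
      obtain ⟨n, h4, h5⟩ := (h2.and h3).exists
      exact absurd h4 h5.ne'
  -- (3)
  have hF'deg : ∀ᶠ n in (U : Filter ℕ), (F' n).natDegree = r := by
    filter_upwards [hw0] with n hn
    rw [hF'b n, natDegree_C_mul hn, hQd n]
  have hF'res : ∀ᶠ n in (U : Filter ℕ), rd r (F' n) ≠ 0 := by
    filter_upwards [hw0] with n hn
    rw [hF'b n, rd_C_mul12 hr]
    exact mul_ne_zero (pow_ne_zero _ hn) (hrd0 n)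
  have hF'x : ∀ x ∈ p, ∀ᶠ n in (U : Filter ℕ), (F' n).eval x ≠ 0 := by
    intro x hx
    filter_upwards [hw0] with n hn
    rw [hF'b n, eval_mul, eval_C]
    exact mul_ne_zero hn (hPx n x hx)
  have hF'G : ∀ G : K[X], 0 < G.natDegree → ∀ᶠ n in (U : Filter ℕ), ¬ G ∣ F' n := by
    intro G hG
    by_contra hnot
    rw [← Ultrafilter.eventually_not] at hnot
    simp only [not_not] at hnot
    obtain ⟨α, hα⟩ := IsAlgClosed.exists_aeval_eq_zero (AlgebraicClosure K) G
      (by
        intro h
        rw [natDegree_eq_of_degree_eq_some (n := 0) (by simpa using h)] at hG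
        exact lt_irrefl _ hG)
    have h1 : ∀ᶠ n in (U : Filter ℕ), P n = minpoly k α := by
      filter_upwards [hnot, hw0] with n h2 h3
      have h4 : aeval α (F' n) = 0 := by
        obtain ⟨R, hR⟩ := h2
        rw [hR, map_mul, hα, zero_mul]
      rw [hF'b n, map_mul, aeval_C] at h4
      have h5 : aeval α (Q n) = 0 := by
        rcases mul_eq_zero.1 h4 with h | h
        · exfalso
          apply h3
          exact (map_eq_zero (algebraMap K (AlgebraicClosure K))).1 h
        · exact h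
      have h6 : aeval α (P n) = 0 := by
        simp only [Q] at h5
        rwa [aeval_map_algebraMap] at h5
      exact minpoly.eq_of_irreducible_of_monic (hPi n) h6 (hPm n)
    have h3 := hlim.eventually_gt_atTop (vH (cf r ((minpoly k α).map (algebraMap k K))))
    obtain ⟨n, h4, h5⟩ := (h1.and h3).exists
    simp only [Q, h4] at h5
    exact lt_irrefl _ h5
  have hF'prim : ∀ᶠ n in (U : Filter ℕ), ∀ v : FinitePlace K, v ∉ T →
      1 ≤ vn (.inr v) (cf r (F' n)) := by
    filter_upwards [hw] with n hn v hv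
    have h1 : F' n = C (w n) * F n := rfl
    have h2 : nv (.inr v) (w n) = 1 := hn.2 v hv
    rw [h1, cf_C_mul12, Pool.Agent.V2.vn_smul, h2, one_mul]
    exact hprim n v hv
  have hk := kseq U T hr H hHd ρ hρ F' hFw hF'deg hF'res p hp hF'x hF'G _ ht
    (fun κ v => units_le U T ρ hρ κ0 hρ0 κ v) (ε / 4) (by positivity)
  have hh := height_ge U T H hH0 hHd ρ hρ hne κ0 hρ0 F' hFw hF'prim ht
  -- (4)
  have hpos := hlim.eventually_gt_atTop 0
  obtain ⟨n, h1, h2, h3, h4, h5, h6⟩ :=
    (hk.and (hh.and (hw0.and (hvHF.and (hF'prim.and hpos))))).exists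
  have h7 := hbad n
  change (2 * (r : ℝ) + ε) * vH (cf r (Q n)) + n < lsum T fun v =>
    (2 * (r : ℝ) - 1 + p.card) * Real.log (vn v (cf r (Q n))) -
      Real.log (nv v (rd r (Q n))) - ∑ x ∈ p, Real.log (nv v ((Q n).eval x)) at h7
  have e1 : (fun v => (2 * (r : ℝ) - 1 + p.card) * Real.log (vn v (cf r (Q n))) -
      Real.log (nv v (rd r (Q n))) - ∑ x ∈ p, Real.log (nv v ((Q n).eval x))) =
      fun v => (((p.card : ℝ) - 1) * Real.log (vn v (cf r (F' n))) -
        Real.log (nv v (rd r (F' n))) - ∑ x ∈ p, Real.log (nv v ((F' n).eval x))) +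
        2 * r * Real.log (vn v (cf r (F' n))) := by
    funext v
    rw [hF'b n]
    exact expr_eq12 hr p v h3 (hcf0 n) (hrd0 n) (hPx n)
  rw [e1, lsum_add_mul12] at h7
  have hcfF : cf r (F' n) ≠ 0 := by
    rw [hF'b n, cf_C_mul12]
    exact smul_ne_zero h3 (hcf0 n)
  have h8 := lsum_le T (cf r (F' n)) hcfF h5
  rw [h4] at h8 h2
  have h9 : 2 * (r : ℝ) * lsum T (fun v => Real.log (vn v (cf r (F' n)))) ≤
      2 * r * vH (cf r (Q n)) := by gcongr
  have h10 : (0 : ℝ) ≤ n := Nat.cast_nonneg n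
  nlinarith

end Pool.Agent.Helper16.TP
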