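import Pool.Agent.Helper16.TP.Defs
import Pool.Agent.Helper61.AD.Tower
import Pool.Agent.Helper61.AD.Gauss
import Pool.Agent.Helper61.AD.Fin2

/-!
# Block TP-NL: from closenesses over `N` to quantities over `K`

PROOF. `P_N = ∏ (X - x_i)`, `P_K = P.map (algebraMap k K)`, `q' = p.card`; `|F|_w` = maximum of the coefficients. For
a place `w` of `N` above the place `v` of `K`:
`∑ i, log (sn w ![x i, 1]) = log |P|_w + O(1)` (`gauss_fin`, `gauss_inf`, `easy_fin`, `easy_inf`),
for `y ∈ p`: `∑ i, cl w (x i) (some y) = ∑ log sn w ![x i, 1] + r log sn w ![y, 1] - log |P(y)|_w`,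
`∑ i, cl w (x i) none = ∑ log sn w ![x i, 1]`,
`∑ i, ∑ j ≠ i, cl w (x i) (some (x j)) = (2 r - 2) ∑ log sn w ![x i, 1] - log |rd r P|_w`
(`rd r P = ± ∏ i, ∏ j ≠ i, (x i - x j)`: `resultant_eq_prod_eval`, `derivative` of the product at the roots).
All closenesses are `≥ -log 4` (`cl_ge`), so the sum over `pts g q N ⊆ p ∪ {none}` is at most
the sum over the image of `p` and `none`, plus a constant. So at `w`
`∑ closenesses ≤ (2 r - 1 + q') log |P|_w - log |rd r P|_w - ∑ y, log |P(y)|_w + C`.
Sum over the `w` above `v`: `Pool.Agent.Helper52.Vojta.sum_log_nv`, `sum_log_sn` (`vn = sn` for vectors indexed by `Fin`), there are at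
most `D` of them; and the sum over the `w` above `ν ∈ S` is the sum over `v ∈ upW K S` of the sums over `w` above `v`
(`sum_above_tower`). The places in `T` which are not in `upW K S` contribute `≥ -C` to the right side (the right side
over `K` times `[N : K]` is, up to constants, a sum of closenesses for them too).
-/

namespace Pool.Agent.Helper16.TP

open NumberField Finset Polynomial Module
open Pool.Agent.Helper64.Vojta (Pl nv sn above)
open Pool.Agent.Helper61.AD (cf pts cl)
open Pool.Agent.Helper52.Vojta (upW)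
open Pool.Agent.V2 (vn vH)

universe u

namespace NLev

theorem rd_prod {N : Type*} [Field N] {r : ℕ} (x : Fin r → N) :
    rd r (∏ i, (X - C (x i))) = ∏ i, ∏ j ∈ Finset.univ.erase i, (x i - x j) := by
  classical
  unfold rd
  have hQd : (∏ i, (X - C (x i))).natDegree = r := by
    rw [natDegree_prod_of_monic _ _ fun i _ => monic_X_sub_C _]
    simp
  have hQm : (∏ i, (X - C (x i))).Monic := monic_prod_of_monic _ _ fun i _ => monic_X_sub_C _
  have hsp : (∏ i, (X - C (x i))).Splits := Splits.prod fun i _ => Splits.X_sub_C _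
  have h3 := resultant_eq_prod_eval (∏ i, (X - C (x i))) (derivative (∏ i, (X - C (x i)))) (r - 1)
    ((natDegree_derivative_le _).trans (by rw [hQd])) hsp
  rw [hQd, hQm.leadingCoeff, one_pow, one_mul] at h3
  rw [h3]
  have : (∏ i, (X - C (x i))).roots = Finset.univ.val.map x := by
    have := roots_multiset_prod_X_sub_C (Finset.univ.val.map x)
    rw [Multiset.map_map] at this
    exact this
  rw [this, Multiset.map_map]
  refine Finset.prod_congr rfl fun i _ => ?_
  exact Pool.Agent.Helper61.AD.Fin2.eval_deriv_prod x i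

theorem rd_map {A B : Type*} [CommRing A] [CommRing B] (f : A →+* B) (r : ℕ) (F : A[X]) :
    rd r (F.map f) = f (rd r F) := by
  unfold rd
  rw [derivative_map, resultant_map_map]

theorem nv_neg {N : Type*} [Field N] [NumberField N] (w : Pl N) (y : N) : nv w (-y) = nv w y := by
  have := Pool.Agent.Helper61.AD.Fin2.nv_neg_one_pow w 1 y
  rwa [pow_one, neg_one_mul] at this

/-- The full sum of the closenesses at a place. -/
noncomputable def full {N : Type*} [Field N] [NumberField N] (w : Pl N) {r : ℕ} (x : Fin r → N)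
    (p : Finset N) : ℝ :=
  (∑ i, (cl w (x i) none + ∑ y ∈ p, cl w (x i) (some y))) +
    ∑ i, ∑ j ∈ Finset.univ.erase i, cl w (x i) (some (x j))

theorem full_eq {N : Type*} [Field N] [NumberField N] (w : Pl N) {r : ℕ} (x : Fin r → N)
    (hinj : Function.Injective x) (p : Finset N) (hp : ∀ y ∈ p, ∀ i, x i ≠ y) :
    full w x p = (2 * (r : ℝ) - 1 + p.card) * ∑ i, Real.log (sn w ![x i, 1])
      - Real.log (nv w (rd r (∏ i, (X - C (x i)))))
      - ∑ y ∈ p, Real.log (nv w ((∏ i, (X - C (x i))).eval y))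
      + r * ∑ y ∈ p, Real.log (sn w ![y, 1]) := by
  classical
  unfold full
  rw [Pool.Agent.Helper61.AD.Fin2.cl_sum w x hinj, rd_prod]
  have h1 : ∀ i, cl w (x i) none + ∑ y ∈ p, cl w (x i) (some y)
      = (1 + p.card) * Real.log (sn w ![x i, 1]) + ∑ y ∈ p, Real.log (sn w ![y, 1])
        - ∑ y ∈ p, Real.log (nv w (x i - y)) := by
    intro i
    change Real.log (sn w ![x i, 1]) + ∑ y ∈ p, (Real.log (sn w ![x i, 1]) + Real.log (sn w ![y, 1])
      - Real.log (nv w (x i - y))) = _
    rw [Finset.sum_sub_distrib, Finset.sum_add_distrib, Finset.sum_const, nsmul_eq_mul]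
    ring
  have h2 : ∀ y ∈ p, Real.log (nv w ((∏ i, (X - C (x i))).eval y)) = ∑ i, Real.log (nv w (x i - y)) := by
    intro y hy
    rw [eval_prod, Pool.Agent.Helper61.AD.Fin2.nv_prod, Real.log_prod]
    · refine Finset.sum_congr rfl fun i _ => ?_
      rw [eval_sub, eval_X, eval_C, ← nv_neg, neg_sub]
    · intro i _
      refine (Pool.Agent.Helper64.Vojta.nv_pos w ?_).ne'
      rw [eval_sub, eval_X, eval_C, sub_ne_zero]
      exact (hp y hy i).symm
  rw [Finset.sum_congr rfl h2, Finset.sum_comm (s := p)]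
  simp_rw [h1]
  rw [Finset.sum_sub_distrib, Finset.sum_add_distrib, Finset.sum_const, ← Finset.mul_sum,
    Finset.card_univ, Fintype.card_fin, nsmul_eq_mul]
  ring

theorem log4 : 0 ≤ Real.log 4 := Real.log_nonneg (by norm_num)

theorem full_ge {N : Type*} [Field N] [NumberField N] (w : Pl N) {r : ℕ} (x : Fin r → N)
    (hinj : Function.Injective x) (p : Finset N) (hp : ∀ y ∈ p, ∀ i, x i ≠ y) :
    0 ≤ full w x p + r * (1 + p.card + r) * Real.log 4 := by
  classical
  unfold full
  have h1 : ∀ i ∈ (Finset.univ : Finset (Fin r)), -((1 + p.card) * Real.log 4) ≤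
      cl w (x i) none + ∑ y ∈ p, cl w (x i) (some y) := by
    intro i _
    have a1 := Pool.Agent.Helper61.AD.cl_ge w (x i) none (by simp)
    have a2 : ∑ y ∈ p, (-Real.log 4) ≤ ∑ y ∈ p, cl w (x i) (some y) := by
      refine Finset.sum_le_sum fun y hy => Pool.Agent.Helper61.AD.cl_ge w (x i) (some y) ?_
      intro h
      exact hp y hy i (Option.some_injective _ h).symm
    rw [Finset.sum_const, nsmul_eq_mul] at a2
    linarith
  have h2 : ∀ i ∈ (Finset.univ : Finset (Fin r)), -(r * Real.log 4) ≤
      ∑ j ∈ Finset.univ.erase i, cl w (x i) (some (x j)) := by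
    intro i _
    have a2 : ∑ j ∈ Finset.univ.erase i, (-Real.log 4) ≤
        ∑ j ∈ Finset.univ.erase i, cl w (x i) (some (x j)) := by
      refine Finset.sum_le_sum fun j hj => Pool.Agent.Helper61.AD.cl_ge w (x i) (some (x j)) ?_
      intro h
      exact (Finset.mem_erase.mp hj).1 (hinj (Option.some_injective _ h))
    rw [Finset.sum_const, nsmul_eq_mul] at a2
    refine le_trans ?_ a2
    have a3 : ((Finset.univ.erase i : Finset (Fin r)).card : ℝ) ≤ r := by
      have := Finset.card_le_univ (Finset.univ.erase i)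
      rw [Fintype.card_fin] at this
      exact_mod_cast this
    have := mul_le_mul_of_nonneg_right a3 log4
    linarith
  have h3 := Finset.sum_le_sum h1
  have h4 := Finset.sum_le_sum h2
  rw [Finset.sum_const, Finset.card_univ, Fintype.card_fin, nsmul_eq_mul] at h3 h4
  have e : (r : ℝ) * (1 + p.card + r) * Real.log 4 = -(r * -((1 + p.card) * Real.log 4)) - (r * -(r * Real.log 4)) := by
    ring
  rw [e]
  linarith

theorem part_le {K N : Type*} [Field K] [Field N] [NumberField N] [Algebra K N] (w : Pl N) {r : ℕ}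
    (x : Fin r → N) (p : Finset K) [DecidableEq N]
    (hp : ∀ y ∈ p, ∀ i, x i ≠ algebraMap K N y) (Q : Finset (Option K))
    (hQ : Q ⊆ Finset.insertNone p) (i : Fin r) :
    ∑ z ∈ Q, cl w (x i) (z.map (algebraMap K N)) ≤
      cl w (x i) none + ∑ y ∈ p.image (algebraMap K N), cl w (x i) (some y) +
        (1 + p.card) * Real.log 4 := by
  classical
  have h0 : ∀ z ∈ Finset.insertNone p, 0 ≤ cl w (x i) (z.map (algebraMap K N)) + Real.log 4 := by
    intro z hz
    have := Pool.Agent.Helper61.AD.cl_ge w (x i) (z.map (algebraMap K N)) (by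
      intro h
      rcases z with _ | z
      · simp at h
      · have hz' : z ∈ p := by simpa using hz
        exact hp z hz' i (Option.some_injective _ h).symm)
    linarith
  have h1 : ∑ z ∈ Q, cl w (x i) (z.map (algebraMap K N)) ≤
      ∑ z ∈ Q, (cl w (x i) (z.map (algebraMap K N)) + Real.log 4) := by
    refine Finset.sum_le_sum fun z _ => ?_
    have := log4
    linarith
  have h2 := Finset.sum_le_sum_of_subset_of_nonneg hQ (fun z hz _ => h0 z hz)
  refine (h1.trans h2).trans (le_of_eq ?_)
  rw [Finset.sum_add_distrib, Finset.sum_const, Finset.card_insertNone, nsmul_eq_mul,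
    Finset.sum_insertNone, Finset.sum_image (fun a _ b _ h => (algebraMap K N).injective h)]
  push_cast
  simp only [Option.map_none, Option.map_some]
  ring

theorem log_sn_le (r : ℕ) : ∃ c : ℝ, 0 ≤ c ∧ ∀ (N : Type u) [Field N] [NumberField N]
    (w : Pl N) (x : Fin r → N),
    ∑ i, Real.log (sn w ![x i, 1]) ≤ Real.log (vn w (cf r (∏ i, (X - C (x i))))) + c := by
  obtain ⟨c0, hc0, h⟩ := Pool.Agent.Helper61.AD.gauss_inf r
  refine ⟨Real.log c0, Real.log_nonneg hc0, ?_⟩
  intro N _ _ w x
  rw [← Real.log_prod (fun i _ => (Pool.Agent.Helper61.AD.Fin2.sn_one_pos w (x i)).ne')]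
  have hpos : 0 < ∏ i, sn w ![x i, 1] :=
    Finset.prod_pos fun i _ => Pool.Agent.Helper61.AD.Fin2.sn_one_pos w _
  have hQd : (∏ i, (X - C (x i))).natDegree = r := by
    rw [natDegree_prod_of_monic _ _ fun i _ => monic_X_sub_C _]
    simp
  have hQm : (∏ i, (X - C (x i))).Monic := monic_prod_of_monic _ _ fun i _ => monic_X_sub_C _
  have hcfx : cf r (∏ i, (X - C (x i))) ≠ 0 := by
    intro h
    have := congrFun h (Fin.last r)
    simp only [cf, Fin.val_last, Pi.zero_apply] at this
    have h2 := hQm.coeff_natDegree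
    rw [hQd] at h2
    rw [h2] at this
    exact one_ne_zero this
  have hvpos : 0 < vn w (cf r (∏ i, (X - C (x i)))) := Pool.Agent.Helper64.Vojta.sn_pos w hcfx
  rcases w with w | w
  · have h1 := Real.log_le_log hpos (h N w x)
    rw [Real.log_mul (by linarith) hvpos.ne'] at h1
    linarith
  · have h1 := Real.log_le_log hpos (Pool.Agent.Helper61.AD.gauss_fin w x)
    have := Real.log_nonneg hc0
    linarith

theorem sn_one_ge {N : Type*} [Field N] [NumberField N] (w : Pl N) (a : N) : 1 ≤ sn w ![a, 1] := by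
  have := Pool.Agent.Helper64.Vojta.le_sn w ![a, 1] 1
  simpa [Pool.Agent.Helper64.Vojta.nv_one] using this

theorem log_sn_up {K N : Type*} [Field K] [NumberField K] [Field N] [NumberField N] [Algebra K N]
    {v : Pl K} {w : Pl N} (h : w ∈ above N v) (y : K) {D : ℕ} (hD : finrank K N ≤ D) :
    Real.log (sn w ![algebraMap K N y, 1]) ≤ D * Real.log (sn v ![y, 1]) := by
  have h1 := Pool.Agent.Helper52.Vojta.sn_above (by norm_num : 0 < 2) h ![y, 1]
  have e : (fun i => algebraMap K N (![y, 1] i)) = ![algebraMap K N y, 1] := by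
    funext i
    fin_cases i <;> simp
  rw [e] at h1
  rw [h1, Real.log_pow]
  refine mul_le_mul_of_nonneg_right ?_ (Real.log_nonneg (sn_one_ge v y))
  have h2 : Pool.Agent.Helper52.Vojta.ldeg v w ≤ finrank K N := by
    rw [← Pool.Agent.Helper52.Vojta.sum_ldeg (L' := N) v]
    exact Finset.single_le_sum (f := fun w => Pool.Agent.Helper52.Vojta.ldeg v w)
      (fun _ _ => Nat.zero_le _) h
  exact_mod_cast h2.trans hD

end NLev

open NLev

theorem nlevel {k K : Type u} [Field k] [NumberField k] [Field K] [NumberField K] [Algebra k K]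
    (g : k[X]) (hg : g ≠ 0) (hspK : (g.map (algebraMap k K)).Splits) (q : ℕ) (S : Finset (Pl k))
    (hS : ∀ v : InfinitePlace k, Sum.inl v ∈ S) (T : Finset (FinitePlace K))
    (hT : ∀ v : FinitePlace K, Sum.inr v ∈ upW K S → v ∈ T) (p : Finset K)
    (hp : ∀ x ∈ g.aroots K, x ∈ p) (r : ℕ) (hr : 1 ≤ r) (D : ℕ) :
    ∃ c : ℝ, ∀ (N : Type u) [Field N] [NumberField N] [Algebra k N] [Algebra K N]
      [IsScalarTower k K N], finrank k N ≤ D → ∀ P : k[X], P.Monic → Irreducible P →
      P.natDegree = r → (∀ x ∈ p, (P.map (algebraMap k K)).eval x ≠ 0) → ∀ x : Fin r → N,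
      P.map (algebraMap k N) = ∏ i, (X - C (x i)) →
      ∑ ν ∈ S, ∑ w ∈ above N ν, ((∑ i, ∑ p ∈ pts g q N, cl w (x i) p) +
          ∑ i, ∑ j ∈ Finset.univ.erase i, cl w (x i) (some (x j))) ≤
        finrank K N * (lsum T fun v =>
          (2 * (r : ℝ) - 1 + p.card) * Real.log (vn v (cf r (P.map (algebraMap k K)))) -
            Real.log (nv v (rd r (P.map (algebraMap k K)))) -
            ∑ x ∈ p, Real.log (nv v ((P.map (algebraMap k K)).eval x))) + c := by
  classical
  obtain ⟨c0, hc0, hgauss⟩ := log_sn_le.{u} r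
  have hq0 : (0 : ℝ) ≤ 2 * (r : ℝ) - 1 + p.card := by
    have : (1 : ℝ) ≤ r := by exact_mod_cast hr
    have : (0 : ℝ) ≤ p.card := Nat.cast_nonneg _
    linarith
  -- the constants
  set Cv : Pl K → ℝ := fun v => (2 * (r : ℝ) - 1 + p.card) * c0 + r * (1 + p.card + r) * Real.log 4
    + r * ∑ y ∈ p, D * Real.log (sn v ![y, 1]) with hCv
  have hCv0 : ∀ v, 0 ≤ Cv v := by
    intro v
    have a1 : 0 ≤ ∑ y ∈ p, D * Real.log (sn v ![y, 1]) :=
      Finset.sum_nonneg fun y _ => mul_nonneg (Nat.cast_nonneg _) (Real.log_nonneg (sn_one_ge v y))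
    have := log4
    rw [hCv]
    positivity
  refine ⟨lsum T fun v => D * Cv v, ?_⟩
  intro N _ _ _ _ _ hND P hPm hPi hPd hPp x hx
  set PK := P.map (algebraMap k K) with hPK
  have hPN : PK.map (algebraMap K N) = ∏ i, (X - C (x i)) := by
    rw [← hx, hPK, Polynomial.map_map, ← IsScalarTower.algebraMap_eq]
  have hKND : finrank K N ≤ D := by
    refine le_trans ?_ hND
    rw [← finrank_mul_finrank k K N]
    exact Nat.le_mul_of_pos_left _ finrank_pos
  have hinj : Function.Injective x := by
    have hsep : (P.map (algebraMap k N)).Separable := hPi.separable.map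
    rw [hx] at hsep
    exact separable_prod_X_sub_C_iff.mp hsep
  have hne : ∀ y ∈ p, ∀ i, x i ≠ algebraMap K N y := by
    intro y hy i h
    have h1 : (∏ i, (X - C (x i))).eval (algebraMap K N y) = 0 := by
      rw [eval_prod]
      refine Finset.prod_eq_zero (Finset.mem_univ i) ?_
      rw [eval_sub, eval_X, eval_C, h, sub_self]
    rw [← hPN, eval_map, eval₂_at_apply, map_eq_zero] at h1
    exact hPp y hy h1
  have hne' : ∀ y ∈ p.image (algebraMap K N), ∀ i, x i ≠ y := by
    intro y hy i
    obtain ⟨z, hz, rfl⟩ := Finset.mem_image.mp hy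
    exact hne z hz i
  have hcard : (p.image (algebraMap K N)).card = p.card :=
    Finset.card_image_of_injective _ (algebraMap K N).injective
  have hQ : pts g q K ⊆ Finset.insertNone p := by
    intro z hz
    rcases z with _ | z
    · exact Finset.none_mem_insertNone
    · rw [Finset.some_mem_insertNone]
      apply hp
      unfold pts at hz
      rw [Finset.mem_union] at hz
      rcases hz with hz | hz
      · obtain ⟨a, ha, hb⟩ := Finset.mem_image.mp hz
        rw [← Option.some_injective _ hb]
        exact Multiset.mem_toFinset.mp ha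
      · split_ifs at hz
        · simp at hz
        · simp at hz
  -- local functions
  set gK : Pl K → ℝ := fun v => (2 * (r : ℝ) - 1 + p.card) * Real.log (vn v (cf r PK)) -
            Real.log (nv v (rd r PK)) - ∑ x ∈ p, Real.log (nv v (PK.eval x)) with hgK
  set gN : Pl N → ℝ := fun w => (2 * (r : ℝ) - 1 + p.card) * Real.log (vn w (cf r (PK.map (algebraMap K N)))) -
            Real.log (nv w (algebraMap K N (rd r PK))) -
            ∑ x ∈ p, Real.log (nv w (algebraMap K N (PK.eval x))) with hgN
  have hsumg : ∀ v : Pl K, ∑ w ∈ above N v, gN w = finrank K N * gK v := by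
    intro v
    have h1 := Pool.Agent.Helper61.AD.Fin2.sum_log_vn (N := N) r v PK
    have h2 := Pool.Agent.Helper52.Vojta.sum_log_nv (L' := N) v (rd r PK)
    have h3 : ∑ w ∈ above N v, ∑ x ∈ p, Real.log (nv w (algebraMap K N (PK.eval x)))
        = ∑ x ∈ p, finrank K N * Real.log (nv v (PK.eval x)) := by
      rw [Finset.sum_comm]
      exact Finset.sum_congr rfl fun y _ => Pool.Agent.Helper52.Vojta.sum_log_nv (L' := N) v (PK.eval y)
    rw [hgN, hgK]
    rw [Finset.sum_sub_distrib, Finset.sum_sub_distrib, ← Finset.mul_sum, h1, h2, h3, ← Finset.mul_sum]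
    ring
  have hfull : ∀ v : Pl K, ∀ w ∈ above N v,
      full w x (p.image (algebraMap K N)) + r * (1 + p.card + r) * Real.log 4 ≤ gN w + Cv v := by
    intro v w hw
    rw [full_eq w x hinj _ hne', hcard, ← hPN, rd_map,
      Finset.sum_image (fun a _ b _ h => (algebraMap K N).injective h),
      Finset.sum_image (fun a _ b _ h => (algebraMap K N).injective h)]
    have e1 : ∀ y, (PK.map (algebraMap K N)).eval (algebraMap K N y) = algebraMap K N (PK.eval y) := by
      intro y
      rw [eval_map, eval₂_at_apply]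
    simp_rw [e1]
    have h1 := mul_le_mul_of_nonneg_left (hgauss N w x) hq0
    rw [← hPN] at h1
    have h2 : ∑ y ∈ p, Real.log (sn w ![algebraMap K N y, 1]) ≤ ∑ y ∈ p, D * Real.log (sn v ![y, 1]) :=
      Finset.sum_le_sum fun y _ => log_sn_up hw y hKND
    have h3 := mul_le_mul_of_nonneg_left h2 (Nat.cast_nonneg (α := ℝ) r)
    rw [hgN, hCv]
    linarith
  have hnn : ∀ v : Pl K, ∀ w ∈ above N v, 0 ≤ gN w + Cv v := by
    intro v w hw
    have h1 := full_ge w x hinj (p.image (algebraMap K N)) hne'
    rw [hcard] at h1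
    exact h1.trans (hfull v w hw)
  have hA : ∀ v : Pl K, ∀ w ∈ above N v, (∑ i, ∑ p ∈ pts g q N, cl w (x i) p) +
          ∑ i, ∑ j ∈ Finset.univ.erase i, cl w (x i) (some (x j)) ≤ gN w + Cv v := by
    intro v w hw
    refine le_trans ?_ (hfull v w hw)
    unfold full
    have h1 : ∀ i ∈ (Finset.univ : Finset (Fin r)), ∑ p ∈ pts g q N, cl w (x i) p ≤
        cl w (x i) none + ∑ y ∈ p.image (algebraMap K N), cl w (x i) (some y) +
        (1 + p.card) * Real.log 4 := by
      intro i _
      rw [Pool.Agent.Helper61.AD.sum_pts (K := K) g hg hspK q]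
      exact part_le w x p hne _ hQ i
    have h2 := Finset.sum_le_sum h1
    rw [Finset.sum_add_distrib (f := fun i => cl w (x i) none +
      ∑ y ∈ p.image (algebraMap K N), cl w (x i) (some y)), Finset.sum_const, Finset.card_univ,
      Fintype.card_fin, nsmul_eq_mul] at h2
    have h3 : 0 ≤ (r : ℝ) * r * Real.log 4 := by
      have := log4
      positivity
    have e : (r : ℝ) * (1 + p.card + r) * Real.log 4 = r * ((1 + p.card) * Real.log 4) + r * r * Real.log 4 := by
      ring
    rw [e]
    linarith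
  -- sum over the places above v
  have hh : ∀ v : Pl K, ∑ w ∈ above N v, (gN w + Cv v) ≤ finrank K N * gK v + D * Cv v := by
    intro v
    rw [Finset.sum_add_distrib, hsumg, Finset.sum_const, nsmul_eq_mul]
    have h7 : ((above N v).card : ℝ) ≤ D := by
      exact_mod_cast (Pool.Agent.Helper64.Vojta.card_above_le v).trans hKND
    have := mul_le_mul_of_nonneg_right h7 (hCv0 v)
    linarith
  have hh0 : ∀ v : Pl K, 0 ≤ finrank K N * gK v + D * Cv v := fun v =>
    (Finset.sum_nonneg fun w hw => hnn v w hw).trans (hh v)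
  rw [Pool.Agent.Helper61.AD.sum_above_tower (K := K) S]
  have s1 : ∑ v ∈ upW K S, ∑ w ∈ above N v, ((∑ i, ∑ p ∈ pts g q N, cl w (x i) p) +
          ∑ i, ∑ j ∈ Finset.univ.erase i, cl w (x i) (some (x j))) ≤
      ∑ v ∈ upW K S, (finrank K N * gK v + D * Cv v) :=
    Finset.sum_le_sum fun v _ => (Finset.sum_le_sum fun w hw => hA v w hw).trans (hh v)
  have s2 : ∑ v ∈ upW K S, (finrank K N * gK v + D * Cv v) ≤
      ∑ v ∈ (Finset.univ : Finset (InfinitePlace K)).disjSum T, (finrank K N * gK v + D * Cv v) := by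
    refine Finset.sum_le_sum_of_subset_of_nonneg ?_ fun v _ _ => hh0 v
    intro v hv
    rcases v with v | v
    · simp
    · simpa using hT v hv
  refine (s1.trans s2).trans (le_of_eq ?_)
  rw [Finset.sum_disjSum]
  unfold lsum
  simp only [Finset.sum_add_distrib, ← Finset.mul_sum]
  ring

end Pool.Agent.Helper16.TP
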