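import Pool.Agent.Helper16.TP.KFinal
import Pool.Agent.Helper16.TP.NLevel
import Pool.Agent.Helper61.AD2.Main2
import Pool.Agent.Helper61.AD.Fin1
import Pool.Agent.Helper61.AD.Fin2

/-!
# Assembly of the theorem on combinations of units
-/

namespace Pool.Agent.Helper16.TP

open NumberField Finset Polynomial Module
open Pool.Agent.Helper64.Vojta (Pl nv sn above)
open Pool.Agent.Helper61.AD (cf pts cl)
open Pool.Agent.Helper52.Vojta (upW ldeg)
open Pool.Agent.V2 (vn vH vH_nonneg vH_eq)

universe u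

/-- The places of `K'` above the places in `T` or in `S`. -/
noncomputable def bigT {k K K' : Type u} [Field k] [NumberField k] [Field K] [NumberField K]
    [Field K'] [NumberField K'] [Algebra k K'] [Algebra K K'] (S : Finset (Pl k))
    (T : Finset (FinitePlace K)) : Finset (FinitePlace K') := by
  classical
  exact (T.biUnion fun v => (above K' (Sum.inr v : Pl K)).toRight) ∪ (upW K' S).toRight

theorem exists_not_mem {k K K' : Type u} [Field k] [NumberField k] [Field K] [NumberField K]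
    [Field K'] [NumberField K'] [Algebra k K'] [Algebra K K'] (S : Finset (Pl k))
    (T : Finset (FinitePlace K)) (w : FinitePlace K') (hw : w ∉ bigT S T) :
    ∃ v : FinitePlace K, v ∉ T ∧ (Sum.inr w : Pl K') ∈ above K' (Sum.inr v : Pl K) := by
  classical
  obtain ⟨ν, hν⟩ := Pool.Agent.Helper52.Vojta.exists_below (L := K) (Sum.inr w : Pl K')
  rcases ν with ν | ν
  · exact absurd (Pool.Agent.Helper64.Vojta.mem_above.1 hν) id
  · refine ⟨ν, fun hT => hw ?_, hν⟩
    unfold bigT
    rw [Finset.mem_union]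
    left
    rw [Finset.mem_biUnion]
    exact ⟨ν, hT, Finset.mem_toRight.2 hν⟩

theorem fin_eval {K K' : Type u} [Field K] [NumberField K] [Field K'] [NumberField K'] [Algebra K K']
    {v : FinitePlace K} {w : FinitePlace K'} (h : (Sum.inr w : Pl K') ∈ above K' (Sum.inr v : Pl K))
    (y : K) : w (algebraMap K K' y) = v y ^ ldeg (Sum.inr v : Pl K) (Sum.inr w : Pl K') :=
  Pool.Agent.Helper52.Vojta.nv_above h y

theorem cf_map {K K' : Type*} [Field K] [Field K'] [Algebra K K'] (r : ℕ) (F : K[X]) :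
    cf r (F.map (algebraMap K K')) = fun i => algebraMap K K' (cf r F i) := by
  funext i
  simp [cf]

theorem one_le_vn {K : Type*} [Field K] [NumberField K] {r : ℕ} (v : FinitePlace K)
    (x : Fin (r + 1) → K) : 1 ≤ vn (.inr v) x ↔ ∃ i, 1 ≤ v (x i) := by
  constructor
  · intro h
    obtain ⟨i, hi⟩ := exists_eq_ciSup_of_finite (f := fun i => nv (.inr v) (x i))
    refine ⟨i, ?_⟩
    have h1 : nv (.inr v) (x i) = vn (.inr v) x := hi
    change 1 ≤ nv (.inr v) (x i)
    rw [h1]
    exact h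
  · rintro ⟨i, hi⟩
    exact le_trans hi (Pool.Agent.V2.le_vn (.inr v) x i)

theorem vojta_tp {k K : Type u} [Field k] [NumberField k] [Field K] [NumberField K] [Algebra k K]
    (g : k[X]) (hg : Squarefree g) (q : ℕ) (hq1 : g.natDegree ≤ q) (hq2 : q ≤ g.natDegree + 1)
    (S : Finset (Pl k)) (hS : ∀ v : InfinitePlace k, Sum.inl v ∈ S) (r : ℕ) (hr : 2 ≤ r)
    (T : Finset (FinitePlace K)) {m : ℕ} (G : Fin m → K[X]) (hG : ∀ j, (G j).natDegree ≤ r)
    (ε : ℝ) (hε : 0 < ε) :
    ∃ c : ℝ, ∀ (L : Type u) [Field L] [NumberField L] [Algebra k L], finrank k L = r →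
      ∀ y : L, (minpoly k y).natDegree = r → aeval y g ≠ 0 → ∀ (a : K) (u : Fin m → K), a ≠ 0 →
      (∀ j, u j = 0 ∨ ∀ v : FinitePlace K, v ∉ T → v (u j) = 1) →
      C a * (minpoly k y).map (algebraMap k K) = ∑ j, C (u j) * G j →
      (∀ v : FinitePlace K, v ∉ T →
        1 ≤ vn (.inr v) (cf r (C a * (minpoly k y).map (algebraMap k K)))) →
      -(2 * (Height.logHeight ![y, 1] / finrank k L)) +
        ∑ ν ∈ S, (∑ w ∈ above L ν, (q * Real.log (sn w ![y, 1]) - Real.log (nv w (aeval y g))))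
          / finrank k L
      ≤ ε * (Height.logHeight ![y, 1] / finrank k L)
        + (∑ᶠ (v : FinitePlace k) (_ : Sum.inr v ∉ S),
          ((2 * r - 2) * Real.log (vn (.inr v) (cf r (minpoly k y))) -
            Real.log (nv (.inr v) (minpoly k y).discr))) / r + c := by
  classical
  obtain ⟨K', iF, iN, iA, iA', iT, -, hspK⟩ :=
    Pool.Agent.Helper61.AD2.exists_ext (k := k) (N := K) g hg.ne_zero
  have hr1 : 1 ≤ r := by omega
  have hfdK' : FiniteDimensional k K' := Module.Finite.right ℚ k K'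
  set T' : Finset (FinitePlace K') := bigT S T with hT'
  set p : Finset K' := (g.aroots K').toFinset ∪ {0} with hp
  have hpne : p.Nonempty := ⟨0, by rw [hp]; simp⟩
  obtain ⟨c1, h1⟩ := kfinal (k := k) (K := K') hr1 T' (fun j => (G j).map (algebraMap K K'))
    (fun j => (natDegree_map_le).trans (hG j)) p hpne ε hε
  set D : ℕ := finrank k K' * (r + 1) ^ r with hD
  obtain ⟨c2, h2⟩ := nlevel (k := k) (K := K') g hg.ne_zero hspK q S hS T'
    (fun v hv => by
      rw [hT']
      unfold bigT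
      rw [Finset.mem_union]
      exact Or.inr (Finset.mem_toRight.2 hv)) p (fun x hx => by
        rw [hp, Finset.mem_union, Multiset.mem_toFinset]
        exact Or.inl hx) r hr1 D
  obtain ⟨c5, h5⟩ := Pool.Agent.Helper61.AD.ht_le (k := k) r hr1 D
  choose c3 h3 using fun ν : Pl k =>
    Pool.Agent.Helper61.AD.lam_le g hg q hq1 hq2 ν r hr1 D
  obtain ⟨c4, h4⟩ := Pool.Agent.Helper61.AD.disc_le S hS r hr1 D
  refine ⟨|c1| + |c2| + |∑ ν ∈ S, c3 ν| + |c4| + (2 + ε) * |c5|, ?_⟩
  intro L _ _ _ hL y hy hgy a u ha hu hau hprim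
  haveI : FiniteDimensional k L := Module.finite_of_finrank_pos (by rw [hL]; exact hr1)
  have hint : IsIntegral k y := Algebra.IsIntegral.isIntegral y
  set P : k[X] := minpoly k y with hPdef
  have hmon : P.Monic := minpoly.monic hint
  have hirr : Irreducible P := minpoly.irreducible hint
  obtain ⟨N, jF, jN, jA, jA', jT, hNK, hspP⟩ :=
    Pool.Agent.Helper61.AD2.exists_ext (k := k) (N := K') P hmon.ne_zero
  rw [hy] at hNK
  haveI : FiniteDimensional k N := Module.Finite.right ℚ k N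
  have hNfin : finrank k N ≤ D := by
    rw [← Module.finrank_mul_finrank k K' N, hD]
    exact Nat.mul_le_mul_left _ hNK
  have hspg : (g.map (algebraMap k N)).Splits := by
    rw [IsScalarTower.algebraMap_eq k K' N, ← Polynomial.map_map]
    exact hspK.map (algebraMap K' N)
  obtain ⟨x, -, hx, -⟩ := Pool.Agent.Helper61.AD.exists_enum (N := N) P hmon hirr hspP hy
  have hndvd : ¬ P ∣ g := fun h => hgy ((minpoly.dvd_iff).1 h)
  -- the values at the points of p
  have hpev : ∀ z ∈ p, (P.map (algebraMap k K')).eval z ≠ 0 := by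
    intro z hz h0
    rw [eval_map_algebraMap] at h0
    have hmin : P = minpoly k z := minpoly.eq_of_irreducible_of_monic hirr h0 hmon
    rw [hp, Finset.mem_union, Multiset.mem_toFinset, Finset.mem_singleton] at hz
    rcases hz with hz | hz
    · apply hndvd
      rw [hmin]
      exact minpoly.dvd k z ((mem_aroots.1 hz).2)
    · rw [hmin, hz, minpoly.zero, natDegree_X] at hy
      omega
  -- the units
  have hu' : ∀ j, algebraMap K K' (u j) = 0 ∨
      ∀ w : FinitePlace K', w ∉ T' → w (algebraMap K K' (u j)) = 1 := by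
    intro j
    rcases hu j with h | h
    · left; rw [h, map_zero]
    · right
      intro w hw
      obtain ⟨v, hv, hvw⟩ := exists_not_mem S T w hw
      rw [fin_eval hvw, h v hv, one_pow]
  have hmap : P.map (algebraMap k K') = (P.map (algebraMap k K)).map (algebraMap K K') := by
    rw [Polynomial.map_map, ← IsScalarTower.algebraMap_eq]
  have hau' : C (algebraMap K K' a) * P.map (algebraMap k K') =
      ∑ j, C (algebraMap K K' (u j)) * (G j).map (algebraMap K K') := by
    have h6 := congrArg (Polynomial.map (algebraMap K K')) hau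
    rw [Polynomial.map_mul, map_C, ← hmap, Polynomial.map_sum] at h6
    rw [h6]
    exact Finset.sum_congr rfl fun j _ => by rw [Polynomial.map_mul, map_C]
  have hprim' : ∀ w : FinitePlace K', w ∉ T' →
      1 ≤ vn (.inr w) (cf r (C (algebraMap K K' a) * P.map (algebraMap k K'))) := by
    intro w hw
    obtain ⟨v, hv, hvw⟩ := exists_not_mem S T w hw
    have h6 : C (algebraMap K K' a) * P.map (algebraMap k K') =
        (C a * P.map (algebraMap k K)).map (algebraMap K K') := by
      rw [Polynomial.map_mul, map_C, hmap]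
    rw [h6, cf_map, one_le_vn]
    obtain ⟨i, hi⟩ := (one_le_vn v _).1 (hprim v hv)
    refine ⟨i, ?_⟩
    rw [fin_eval hvw]
    exact one_le_pow₀ hi
  have ha' : algebraMap K K' a ≠ 0 := by
    rw [Ne, map_eq_zero]; exact ha
  have A1 := h1 P hmon hirr hy hpev (algebraMap K K' a) (fun j => algebraMap K K' (u j)) ha' hu'
    hau' hprim'
  have A2 := h2 N hNfin P hmon hirr hy hpev x hx
  have A5 := h5 L N hL hNfin y hy x hx
  have A4 := h4 N hNfin P hmon hirr hy x hx
  -- heights
  have hcf0 : cf r P ≠ 0 := by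
    intro h
    have h6 := congrFun h (Fin.last r)
    have h7 : P.coeff r = 0 := h6
    rw [← hy, hmon.coeff_natDegree] at h7
    exact one_ne_zero h7
  have hVK : vH (cf r (P.map (algebraMap k K'))) = finrank k K' * vH (cf r P) := by
    have h6 : cf r (P.map (algebraMap k K')) ≠ 0 := by
      rw [cf_map]
      intro h
      apply hcf0
      funext i
      have h7 := congrFun h i
      simpa using h7
    rw [vH_eq h6, cf_map, Pool.Agent.Helper52.Vojta.logHeight_algebraMap hcf0, vH_eq hcf0]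
  set V : ℝ := vH (cf r P) with hV
  set dK : ℝ := (finrank k K' : ℝ) with hdK
  set dN : ℝ := (finrank K' N : ℝ) with hdN
  set d : ℝ := (finrank k N : ℝ) with hdd
  have hmul : dK * dN = d := by
    rw [hdK, hdN, hdd, ← Module.finrank_mul_finrank k K' N]
    push_cast
    rfl
  haveI : FiniteDimensional K' N := Module.Finite.right ℚ K' N
  have hdK1 : (1 : ℝ) ≤ dK := by
    have : 0 < finrank k K' := Module.finrank_pos
    rw [hdK]; exact_mod_cast this
  have hdN1 : (1 : ℝ) ≤ dN := by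
    have : 0 < finrank K' N := Module.finrank_pos
    rw [hdN]; exact_mod_cast this
  have hd1 : (1 : ℝ) ≤ d := by rw [← hmul]; nlinarith
  set h : ℝ := Height.logHeight ![y, 1] with hh
  set M1 : ℝ := ∑ ν ∈ S, ∑ w ∈ above N ν, ∑ i, ∑ p ∈ pts g q N, cl w (x i) p with hM1
  set M2 : ℝ := ∑ ν ∈ S, ∑ w ∈ above N ν, ∑ i, ∑ j ∈ Finset.univ.erase i,
    cl w (x i) (some (x j)) with hM2
  have hM : ∑ ν ∈ S, ∑ w ∈ above N ν, ((∑ i, ∑ p ∈ pts g q N, cl w (x i) p) +
      ∑ i, ∑ j ∈ Finset.univ.erase i, cl w (x i) (some (x j))) = M1 + M2 := by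
    rw [hM1, hM2, ← Finset.sum_add_distrib]
    exact Finset.sum_congr rfl fun ν _ => Finset.sum_add_distrib
  rw [hM] at A2
  rw [hVK] at A1
  have A3 : d * ∑ ν ∈ S, ∑ w ∈ above L ν,
      (q * Real.log (sn w ![y, 1]) - Real.log (nv w (aeval y g))) ≤ M1 + ∑ ν ∈ S, c3 ν := by
    rw [Finset.mul_sum, ← Finset.sum_add_distrib]
    exact Finset.sum_le_sum fun ν _ => h3 ν L N hL hNfin hspg y hy hgy x hx
  set Lam : ℝ := ∑ ν ∈ S, ∑ w ∈ above L ν,
    (q * Real.log (sn w ![y, 1]) - Real.log (nv w (aeval y g))) with hLam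
  set Fo : ℝ := ∑ᶠ (v : FinitePlace k) (_ : Sum.inr v ∉ S),
          ((2 * r - 2) * Real.log (vn (.inr v) (cf r P)) -
            Real.log (nv (.inr v) P.discr)) with hFo
  have hV0 : 0 ≤ V := vH_nonneg hcf0
  -- main computation
  have B1 : M1 + M2 ≤ dN * ((2 * r + ε) * (dK * V) + c1) + c2 :=
    le_trans A2 (by gcongr)
  have B2 : M1 + M2 ≤ d * ((2 * r + ε) * V) + dN * |c1| + |c2| := by
    have e1 : dN * ((2 * r + ε) * (dK * V) + c1) = d * ((2 * r + ε) * V) + dN * c1 := by
      rw [← hmul]; ring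
    have e2 : dN * c1 ≤ dN * |c1| := mul_le_mul_of_nonneg_left (le_abs_self _) (by linarith)
    have e3 := le_abs_self c2
    linarith
  have B3 : d * Lam ≤ d * Fo + d * ((2 + ε) * V) + dN * |c1| + |c2| + |∑ ν ∈ S, c3 ν| + |c4| := by
    have e1 := le_abs_self (∑ ν ∈ S, c3 ν)
    have e2 := le_abs_self c4
    have e4 : d * ((2 * r + ε) * V) - d * ((2 * r - 2) * V) = d * ((2 + ε) * V) := by ring
    linarith
  have hdNd : dN ≤ d := by rw [← hmul]; nlinarith
  have B4 : d * Lam ≤ d * (Fo + (2 + ε) * V + |c1| + |c2| + |∑ ν ∈ S, c3 ν| + |c4|) := by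
    have e1 : dN * |c1| ≤ d * |c1| := mul_le_mul_of_nonneg_right hdNd (abs_nonneg _)
    have e2 : |c2| ≤ d * |c2| := le_mul_of_one_le_left (abs_nonneg _) hd1
    have e3 : |∑ ν ∈ S, c3 ν| ≤ d * |∑ ν ∈ S, c3 ν| := le_mul_of_one_le_left (abs_nonneg _) hd1
    have e4 : |c4| ≤ d * |c4| := le_mul_of_one_le_left (abs_nonneg _) hd1
    have e5 : d * (Fo + (2 + ε) * V + |c1| + |c2| + |∑ ν ∈ S, c3 ν| + |c4|) =
      d * Fo + d * ((2 + ε) * V) + d * |c1| + d * |c2| + d * |∑ ν ∈ S, c3 ν| + d * |c4| := by ring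
    linarith
  have B5 : Lam ≤ Fo + (2 + ε) * V + |c1| + |c2| + |∑ ν ∈ S, c3 ν| + |c4| :=
    le_of_mul_le_mul_left B4 (by linarith)
  have B6 : (2 + ε) * V ≤ (2 + ε) * h + (2 + ε) * |c5| := by
    have e1 : V ≤ h + |c5| := le_trans A5 (by have := le_abs_self c5; linarith)
    calc (2 + ε) * V ≤ (2 + ε) * (h + |c5|) := by gcongr
      _ = _ := by ring
  set Ct : ℝ := |c1| + |c2| + |∑ ν ∈ S, c3 ν| + |c4| + (2 + ε) * |c5| with hCt
  have hCt0 : 0 ≤ Ct := by positivity
  have B7 : Lam ≤ Fo + (2 + ε) * h + Ct := by rw [hCt]; linarith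
  have hrR : (1 : ℝ) ≤ r := by exact_mod_cast hr1
  have hr0 : (0 : ℝ) < r := by linarith
  rw [hL, ← Finset.sum_div]
  have B8 : Lam / r ≤ (Fo + (2 + ε) * h + Ct) / r := div_le_div_of_nonneg_right B7 hr0.le
  have B9 : Ct / r ≤ Ct := div_le_self hCt0 hrR
  have e9 : (Fo + (2 + ε) * h + Ct) / r = Fo / r + (2 + ε) * (h / r) + Ct / r := by
    field_simp
  rw [e9] at B8
  linarith

end Pool.Agent.Helper16.TP
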