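import Pool.Agent.Helper16.TP.Defs

/-!
# Block TP-UN: multiplicatively independent generators

PROOF. `Λ = {a : J → ℤ : ∏ ρ_j ^ a_j is constant along U}` is a subgroup of `J → ℤ`, and the quotient is
torsion-free: if `y ^ k = c` almost everywhere, `k > 0`, then `y` takes finitely many values (roots of
`X ^ k - c`), so it is constant almost everywhere (`Pool.Agent.Helper26.DMC.SU1.ult_finite`).
So the quotient is free of finite rank `n` (`Module.Free` of a finitely generated torsion-free `ℤ`-module);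
lift a basis of the quotient to `χ b : J → ℤ`. For every `j` the unit vector of `j` is
`∑ m j b • χ b + (element of Λ)`, so `ρ_j = c_j * ∏ (ρ ^ χ b) ^ m j b` almost everywhere with `c_j ≠ 0`. If
`∏ (ρ ^ χ b) ^ a b` is constant then `∑ a b • χ b ∈ Λ`, so `a = 0`. (All `ρ_j` are `≠ 0` almost everywhere.)
-/

namespace Pool.Agent.Helper16.TP

private theorem h42_zpow_sum {K : Type*} [Field K] {ι : Type*} (s : Finset ι) (f : ι → ℤ) {x : K}
    (hx : x ≠ 0) : x ^ (∑ b ∈ s, f b) = ∏ b ∈ s, x ^ f b := by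
  classical
  induction s using Finset.induction_on with
  | empty => simp
  | insert a s ha ih => rw [Finset.sum_insert ha, Finset.prod_insert ha, zpow_add₀ hx, ih]

private theorem h42_mon_sum {K : Type*} [Field K] {J : Type*} [Fintype J] {ι : Type*} [Fintype ι]
    (r : J → K) (hr : ∀ j, r j ≠ 0) (χ : ι → J → ℤ) (n : ι → ℤ) :
    ∏ j, r j ^ (∑ b, n b • χ b) j = ∏ b, (∏ j, r j ^ χ b j) ^ n b := by
  have h1 : ∀ j, r j ^ (∑ b, n b • χ b) j = ∏ b, (r j ^ χ b j) ^ n b := by
    intro j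
    rw [Finset.sum_apply, h42_zpow_sum _ _ (hr j)]
    refine Finset.prod_congr rfl fun b _ => ?_
    rw [Pi.smul_apply, smul_eq_mul, mul_comm, zpow_mul]
  simp_rw [h1]
  rw [Finset.prod_comm]
  exact Finset.prod_congr rfl fun b _ => Finset.prod_zpow _ _ _

/-- the exponent vectors whose monomial is constant along `U` -/
private noncomputable def h42_lam {K : Type*} [Field K] (U : Ultrafilter ℕ) {J : Type*} [Fintype J]
    (ρ : J → ℕ → K) (hρ : ∀ᶠ i in (U : Filter ℕ), ∀ j, ρ j i ≠ 0) : Submodule ℤ (J → ℤ) where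
  carrier := {a | ∃ c : K, ∀ᶠ i in (U : Filter ℕ), ∏ j, ρ j i ^ a j = c}
  add_mem' := by
    rintro a b ⟨c, hc⟩ ⟨d, hd⟩
    refine ⟨c * d, ?_⟩
    filter_upwards [hc, hd, hρ] with i h1 h2 h3
    rw [← h1, ← h2, ← Finset.prod_mul_distrib]
    exact Finset.prod_congr rfl fun j _ => by rw [Pi.add_apply, zpow_add₀ (h3 j)]
  zero_mem' := ⟨1, Filter.Eventually.of_forall fun i => by simp⟩
  smul_mem' := by
    rintro n a ⟨c, hc⟩
    refine ⟨c ^ n, ?_⟩
    filter_upwards [hc] with i h1
    rw [← h1, ← Finset.prod_zpow]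
    exact Finset.prod_congr rfl fun j _ => by
      rw [Pi.smul_apply, smul_eq_mul, mul_comm, zpow_mul]

private theorem h42_root {K : Type*} [Field K] (U : Ultrafilter ℕ) (y : ℕ → K) (k : ℕ) (hk : 0 < k)
    (c : K) (h : ∀ᶠ i in (U : Filter ℕ), y i ^ k = c) :
    ∃ d : K, ∀ᶠ i in (U : Filter ℕ), y i = d := by
  classical
  refine Pool.Agent.Helper26.DMC.SU1.ult_finite U
    ((Polynomial.nthRoots k c).toFinset : Set K) (Finset.finite_toSet _) y ?_
  filter_upwards [h] with i hi
  rw [Finset.mem_coe, Multiset.mem_toFinset, Polynomial.mem_nthRoots hk]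
  exact hi

theorem units {K : Type*} [Field K] (U : Ultrafilter ℕ) {J : Type*} [Fintype J] (ρ : J → ℕ → K)
    (hρ : ∀ j, ∀ᶠ i in (U : Filter ℕ), ρ j i ≠ 0) :
    ∃ (n : ℕ) (χ : Fin n → J → ℤ) (m : J → Fin n → ℤ) (c : J → K), (∀ j, c j ≠ 0) ∧
      (∀ j, ∀ᶠ i in (U : Filter ℕ), ρ j i = c j * ∏ b, (∏ j', ρ j' i ^ χ b j') ^ m j b) ∧
      MI U (fun b i => ∏ j', ρ j' i ^ χ b j') := by
  classical
  have hall : ∀ᶠ i in (U : Filter ℕ), ∀ j, ρ j i ≠ 0 := Filter.eventually_all.2 hρ
  set Λ := h42_lam U ρ hall with hΛ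
  have hmem : ∀ a : J → ℤ, a ∈ Λ ↔ ∃ c : K, ∀ᶠ i in (U : Filter ℕ), ∏ j, ρ j i ^ a j = c :=
    fun a => Iff.rfl
  have htf : Module.IsTorsionFree ℤ ((J → ℤ) ⧸ Λ) := by
    refine Module.IsTorsionFree.of_smul_eq_zero fun r x h => ?_
    by_cases hr : r = 0
    · exact Or.inl hr
    · right
      induction x using Submodule.Quotient.induction_on with
      | H a =>
        rw [← Submodule.Quotient.mk_smul, Submodule.Quotient.mk_eq_zero, hmem] at h
        rw [Submodule.Quotient.mk_eq_zero, hmem]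
        obtain ⟨c, hc⟩ := h
        have h2 : ∀ᶠ i in (U : Filter ℕ), (∏ j, ρ j i ^ a j) ^ r = c := by
          filter_upwards [hc] with i h1
          rw [← h1, ← Finset.prod_zpow]
          exact Finset.prod_congr rfl fun j _ => by
            rw [Pi.smul_apply, smul_eq_mul, mul_comm, zpow_mul]
        obtain ⟨k, hk | hk⟩ := Int.eq_nat_or_neg r
        · refine h42_root U _ k (by omega) c ?_
          filter_upwards [h2] with i hi
          rwa [hk, zpow_natCast] at hi
        · refine h42_root U _ k (by omega) c⁻¹ ?_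
          filter_upwards [h2] with i hi
          rw [hk, zpow_neg, zpow_natCast] at hi
          rw [← hi, inv_inv]
  have hfree : Module.Free ℤ ((J → ℤ) ⧸ Λ) := Module.free_of_finite_type_torsion_free'
  set B := Module.finBasis ℤ ((J → ℤ) ⧸ Λ) with hB
  have hlift : ∀ b, ∃ a : J → ℤ, (Submodule.Quotient.mk a : (J → ℤ) ⧸ Λ) = B b :=
    fun b => Submodule.Quotient.mk_surjective Λ (B b)
  choose χ hχ using hlift
  have hmk : ∀ a : Fin (Module.finrank ℤ ((J → ℤ) ⧸ Λ)) → ℤ,
      (Submodule.Quotient.mk (∑ b, a b • χ b) : (J → ℤ) ⧸ Λ) = ∑ b, a b • B b := by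
    intro a
    have := map_sum Λ.mkQ (fun b => a b • χ b) Finset.univ
    simp only [map_smul, Submodule.mkQ_apply, hχ] at this
    exact this
  have hex : ∀ j, ∃ c : K, ∀ᶠ i in (U : Filter ℕ),
      ρ j i = c * ∏ b, (∏ j', ρ j' i ^ χ b j') ^ (B.repr (Submodule.Quotient.mk (Pi.single j 1))) b := by
    intro j
    have h1 : (Pi.single j 1 - ∑ b, (B.repr (Submodule.Quotient.mk (Pi.single j 1))) b • χ b) ∈ Λ := by
      rw [← Submodule.Quotient.mk_eq_zero, Submodule.Quotient.mk_sub, hmk, B.sum_repr, sub_self]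
    obtain ⟨c, hc⟩ := (hmem _).1 h1
    refine ⟨c, ?_⟩
    filter_upwards [hc, hall] with i h2 h3
    have h4 : ∏ j', ρ j' i ^ (Pi.single j 1 : J → ℤ) j' = ρ j i := by
      rw [Finset.prod_eq_single j]
      · simp
      · intro j' _ hj'
        rw [Pi.single_eq_of_ne hj', zpow_zero]
      · intro h
        exact absurd (Finset.mem_univ j) h
    rw [← h2, ← h42_mon_sum (fun j' => ρ j' i) h3 χ, ← Finset.prod_mul_distrib]
    rw [← h4]
    refine Finset.prod_congr rfl fun j' _ => ?_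
    rw [← zpow_add₀ (h3 j'), Pi.sub_apply, sub_add_cancel]
  choose c hc using hex
  refine ⟨_, χ, fun j b => (B.repr (Submodule.Quotient.mk (Pi.single j 1))) b, c, ?_, hc, ?_⟩
  · intro j h0
    obtain ⟨i, hi1, hi2⟩ := ((hc j).and (hρ j)).exists
    rw [h0, zero_mul] at hi1
    exact hi2 hi1
  · rintro a ⟨d, hd⟩
    have h1 : (∑ b, a b • χ b) ∈ Λ := by
      rw [hmem]
      refine ⟨d, ?_⟩
      filter_upwards [hd, hall] with i h2 h3
      rw [h42_mon_sum (fun j' => ρ j' i) h3 χ, ← h2]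
    rw [← Submodule.Quotient.mk_eq_zero, hmk] at h1
    have h2 := Fintype.linearIndependent_iff.1 B.linearIndependent a h1
    exact funext h2

end Pool.Agent.Helper16.TP
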