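import Pool.Agent.Helper16.TP.DefsA

/-!
# Block TP-DV: logarithmic derivations extend to logarithmic derivations (residue characteristic 0)

`v` is the discrete valuation of a height one prime of a Dedekind domain `R` with fraction field `E`, of
residue characteristic zero, `d` a derivation of `E` with `v (d x) ≤ v x` for all `x` (multiplicative
notation), `M / E` finite and `d'` a derivation of `M` which extends `d`. Then there is an extension `v'` of
`v` to `M` with `v' (d' z) ≤ v' z` for all `z`.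

PROOF (helper2). Let `w` be the valuation of a prime of the integral closure `B` of `R` in `M` above `v`.
(1) There is `N` with `w (d' z) ≤ exp N` for all `z` with `w z ≤ 1`: `B` is finite over `R`, and every
`z` with `w z ≤ 1` is `b / s` with `b, s ∈ B`, `w s = 1`.
(2) If `w (d' z) ≤ C` for all `z` with `w z ≤ 1` (`C ≥ 1`), then `w (d' z) ≤ C * w z` for all `z`
(`log_bound`, write `z ^ e = ϖ ^ k * u`).
(3) For `w z ≤ 1` there is a polynomial `P` over `E` with coefficients of value `≤ 1`, `w (P z) < 1` and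
`w (P' z) = 1` (a polynomial of minimal degree with `w (P z) < 1` and some coefficient of value `1`), so
`P' z * d' z = d' (P z) - P^d z` and the bound `exp (n + 1)` improves to `exp n` (`n ≥ 0`) by (2).
(4) So the bound of (1) holds with `N = 0`, and (2) with `C = 1` is the claim.
-/

namespace Pool.Agent.Helper16.TP

open IsDedekindDomain

section Core

open WithZero Polynomial

variable {E M : Type*} [Field E] [Field M] [Algebra E M]

private lemma dlog_mul (d' : Derivation ℤ M M) {x y : M} (hx : x ≠ 0) (hy : y ≠ 0) :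
    d' (x * y) / (x * y) = d' x / x + d' y / y := by
  rw [Derivation.leibniz]
  simp only [smul_eq_mul]
  field_simp
  ring

private lemma dlog_zpow (d' : Derivation ℤ M M) {x : M} (hx : x ≠ 0) (n : ℤ) :
    d' (x ^ n) / x ^ n = n * (d' x / x) := by
  rw [Derivation.leibniz_zpow, zpow_sub_one₀ hx]
  have : x ^ n ≠ 0 := zpow_ne_zero _ hx
  simp only [smul_eq_mul, zsmul_eq_mul]
  field_simp

private lemma map_int_le (w : Valuation M (WithZero (Multiplicative ℤ)))
    (hn : ∀ n : ℕ, n ≠ 0 → w (n : M) = 1) (k : ℤ) : w (k : M) ≤ 1 := by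
  have hnat : ∀ n : ℕ, w (n : M) ≤ 1 := fun n => by
    rcases eq_or_ne n 0 with rfl | h
    · simp
    · exact (hn n h).le
  rcases Int.eq_nat_or_neg k with ⟨n, rfl | rfl⟩
  · simpa using hnat n
  · simpa [Valuation.map_neg] using hnat n

private lemma log_bound (w : Valuation M (WithZero (Multiplicative ℤ)))
    (hn : ∀ n : ℕ, n ≠ 0 → w (n : M) = 1) (d' : Derivation ℤ M M) {ϖ : M} {e : ℕ} (he : e ≠ 0)
    (hϖ : w ϖ = exp (-(e : ℤ))) (hdϖ : w (d' ϖ) ≤ w ϖ) {C : WithZero (Multiplicative ℤ)}
    (hC : 1 ≤ C) (h : ∀ z, w z ≤ 1 → w (d' z) ≤ C) (z : M) : w (d' z) ≤ C * w z := by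
  rcases eq_or_ne z 0 with rfl | hz
  · simp
  have hϖ0 : ϖ ≠ 0 := by
    rintro rfl
    rw [map_zero] at hϖ
    exact exp_ne_zero hϖ.symm
  obtain ⟨k, hk⟩ : ∃ k : ℤ, w z = exp (-k) :=
    ⟨-(log (w z)), by rw [neg_neg, exp_log ((w.ne_zero_iff).2 hz)]⟩
  have hu0 : z ^ (e : ℤ) * ϖ ^ (-k) ≠ 0 := mul_ne_zero (zpow_ne_zero _ hz) (zpow_ne_zero _ hϖ0)
  obtain ⟨u, hu⟩ : ∃ u, u = z ^ (e : ℤ) * ϖ ^ (-k) := ⟨_, rfl⟩
  have hwu : w u = 1 := by
    rw [hu, map_mul, map_zpow₀, map_zpow₀, hk, hϖ, ← exp_zsmul, ← exp_zsmul, ← exp_add,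
      ← exp_zero]
    congr 1
    simp only [smul_eq_mul]
    ring
  have hL : (e : M) * (d' z / z) = d' u / u + (k : M) * (d' ϖ / ϖ) := by
    rw [hu, dlog_mul d' (zpow_ne_zero _ hz) (zpow_ne_zero _ hϖ0), dlog_zpow d' hz,
      dlog_zpow d' hϖ0]
    push_cast
    ring
  have hwz : w z ≠ 0 := (w.ne_zero_iff).2 hz
  have h1 : w (d' z / z) ≤ C := by
    have h2 : w (d' z / z) = w ((e : M) * (d' z / z)) := by
      rw [map_mul, hn e he, one_mul]
    rw [h2, hL]
    refine (w.map_add _ _).trans (max_le ?_ ?_)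
    · rw [map_div₀, hwu, div_one]
      exact h u hwu.le
    · rw [map_mul, map_div₀]
      have h3 : w (d' ϖ) / w ϖ ≤ 1 :=
        (div_le_one₀ (zero_lt_iff.2 ((w.ne_zero_iff).2 hϖ0))).2 hdϖ
      exact (mul_le_one' (map_int_le w hn k) h3).trans hC
  rw [map_div₀] at h1
  rwa [div_le_iff₀ (zero_lt_iff.2 hwz)] at h1

private lemma coeff_sum_lt (w : Valuation M (WithZero (Multiplicative ℤ))) {z : M} (hz : w z ≤ 1)
    (P : E[X]) (h0 : w (algebraMap E M (P.coeff 0)) = 1)
    (h : ∀ i, i ≠ 0 → w (algebraMap E M (P.coeff i)) < 1) : w (aeval z P) = 1 := by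
  rw [aeval_eq_sum_range, Finset.sum_range_succ']
  have h1 : w (∑ k ∈ Finset.range P.natDegree, P.coeff (k + 1) • z ^ (k + 1)) < 1 := by
    refine w.map_sum_lt one_ne_zero fun i _ => ?_
    rw [Algebra.smul_def, map_mul, map_pow]
    exact mul_lt_one_of_lt_of_le (h _ (Nat.succ_ne_zero i)) (pow_le_one₀ zero_le' hz)
  have h2 : w (P.coeff 0 • z ^ 0) = 1 := by
    rw [Algebra.smul_def, map_mul, map_pow, pow_zero, mul_one, h0]
  rw [w.map_add_eq_of_lt_right (by rw [h2]; exact h1), h2]

private lemma exists_poly (w : Valuation M (WithZero (Multiplicative ℤ)))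
    (hn : ∀ n : ℕ, n ≠ 0 → w (n : M) = 1) [Algebra.IsAlgebraic E M] {z : M} (hz : w z ≤ 1) :
    ∃ P : E[X], (∀ i, w (algebraMap E M (P.coeff i)) ≤ 1) ∧ w (aeval z P) < 1 ∧
      w (aeval z (derivative P)) = 1 := by
  classical
  let Good : ℕ → Prop := fun n => ∃ P : E[X], P.natDegree = n ∧
    (∀ i, w (algebraMap E M (P.coeff i)) ≤ 1) ∧ (∃ i, w (algebraMap E M (P.coeff i)) = 1) ∧
    w (aeval z P) < 1
  have hex : ∃ n, Good n := by
    have hint : IsIntegral E z := Algebra.IsAlgebraic.isAlgebraic z |>.isIntegral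
    obtain ⟨j, -, hj⟩ := Finset.exists_max_image (Finset.range ((minpoly E z).natDegree + 1))
      (fun i => w (algebraMap E M ((minpoly E z).coeff i))) ⟨0, by simp⟩
    have hmon := minpoly.monic hint
    have hj' : ∀ i, w (algebraMap E M ((minpoly E z).coeff i)) ≤
        w (algebraMap E M ((minpoly E z).coeff j)) := by
      intro i
      by_cases hi : i ≤ (minpoly E z).natDegree
      · exact hj i (by simpa [Nat.lt_succ_iff] using hi)
      · rw [coeff_eq_zero_of_natDegree_lt (not_le.1 hi), map_zero, map_zero]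
        exact zero_le'
    have hj0 : w (algebraMap E M ((minpoly E z).coeff j)) ≠ 0 := by
      have h1 := hj' (minpoly E z).natDegree
      rw [hmon.coeff_natDegree, map_one, map_one] at h1
      exact (zero_lt_one.trans_le h1).ne'
    refine ⟨_, C ((minpoly E z).coeff j)⁻¹ * minpoly E z, rfl, fun i => ?_, ⟨j, ?_⟩, ?_⟩
    · rw [coeff_C_mul, map_mul, map_mul, map_inv₀, map_inv₀]
      rw [inv_mul_le_iff₀ (zero_lt_iff.2 hj0), mul_one]
      exact hj' i
    · rw [coeff_C_mul, map_mul, map_mul, map_inv₀, map_inv₀]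
      exact inv_mul_cancel₀ hj0
    · rw [map_mul, minpoly.aeval, mul_zero, map_zero]
      exact zero_lt_one
  obtain ⟨P, hPn, hP1, ⟨j, hj⟩, hP3⟩ := Nat.find_spec hex
  have hPz : ∀ Q : E[X], (∀ i, w (algebraMap E M (Q.coeff i)) ≤ 1) → w (aeval z Q) ≤ 1 := by
    intro Q hQ
    rw [aeval_eq_sum_range]
    refine w.map_sum_le fun i _ => ?_
    rw [Algebra.smul_def, map_mul, map_pow]
    exact mul_le_one' (hQ i) (pow_le_one₀ zero_le' hz)
  -- some coefficient of positive index has value one
  obtain ⟨i, hi0, hi⟩ : ∃ i, i ≠ 0 ∧ w (algebraMap E M (P.coeff i)) = 1 := by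
    by_contra hcon
    push Not at hcon
    have hj0 : j = 0 := by
      by_contra hj0
      exact hcon j hj0 hj
    subst hj0
    have := coeff_sum_lt w hz P hj fun i hi => lt_of_le_of_ne (hP1 i) (hcon i hi)
    rw [this] at hP3
    exact lt_irrefl _ hP3
  refine ⟨P, hP1, hP3, ?_⟩
  have hd1 : ∀ i, w (algebraMap E M ((derivative P).coeff i)) ≤ 1 := by
    intro i
    rw [coeff_derivative, map_mul, map_mul]
    refine mul_le_one' (hP1 _) ?_
    have h1 : algebraMap E M ((i : E) + 1) = ((i + 1 : ℕ) : M) := by push_cast; simp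
    rw [h1, hn _ (Nat.succ_ne_zero i)]
  have hd2 : ∃ i, w (algebraMap E M ((derivative P).coeff i)) = 1 := by
    obtain ⟨m, rfl⟩ := Nat.exists_eq_succ_of_ne_zero hi0
    refine ⟨m, ?_⟩
    rw [coeff_derivative, map_mul, map_mul]
    have h1 : algebraMap E M ((m : E) + 1) = ((m + 1 : ℕ) : M) := by push_cast; simp
    rw [h1, hn _ (Nat.succ_ne_zero m), mul_one]
    exact hi
  have hlt : (derivative P).natDegree < Nat.find hex := by
    rw [← hPn]
    refine natDegree_derivative_lt ?_
    intro h0
    have : P.coeff i = 0 := coeff_eq_zero_of_natDegree_lt (by omega)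
    rw [this, map_zero, map_zero] at hi
    exact zero_ne_one hi
  have hnot := Nat.find_min hex hlt
  refine le_antisymm (hPz _ hd1) (not_lt.1 fun hl => hnot ⟨_, rfl, hd1, hd2, hl⟩)

private lemma deriv_aeval (d : Derivation ℤ E E) (d' : Derivation ℤ M M)
    (hdd : ∀ x, d' (algebraMap E M x) = algebraMap E M (d x)) (z : M) (P : E[X]) :
    d' (aeval z P) = P.sum (fun i a => algebraMap E M (d a) * z ^ i) +
      aeval z (derivative P) * d' z := by
  induction P using Polynomial.induction_on' with
  | add p q hp hq =>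
    rw [map_add, map_add, hp, hq, derivative_add, map_add, sum_add_index]
    · ring
    · intro i; simp
    · intro i a b; simp [add_mul]
  | monomial n a =>
    rw [aeval_monomial, Derivation.leibniz, sum_monomial_index _ _ (by simp), derivative_monomial,
      aeval_monomial, Derivation.leibniz_pow, hdd]
    simp only [smul_eq_mul, nsmul_eq_mul, map_mul, map_natCast]
    ring

private lemma step (w : Valuation M (WithZero (Multiplicative ℤ)))
    (hn : ∀ n : ℕ, n ≠ 0 → w (n : M) = 1) [Algebra.IsAlgebraic E M] (d : Derivation ℤ E E)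
    (d' : Derivation ℤ M M) (hdd : ∀ x, d' (algebraMap E M x) = algebraMap E M (d x))
    (hd : ∀ x, w (algebraMap E M (d x)) ≤ w (algebraMap E M x)) {ϖ : M} {e : ℕ} (he : e ≠ 0)
    (hϖ : w ϖ = exp (-(e : ℤ))) (hdϖ : w (d' ϖ) ≤ w ϖ) {n : ℕ}
    (h : ∀ z, w z ≤ 1 → w (d' z) ≤ exp ((n + 1 : ℕ) : ℤ)) (z : M) (hz : w z ≤ 1) :
    w (d' z) ≤ exp (n : ℤ) := by
  obtain ⟨P, hP1, hP2, hP3⟩ := exists_poly (E := E) w hn hz
  have h1 : (1 : WithZero (Multiplicative ℤ)) ≤ exp ((n + 1 : ℕ) : ℤ) := by
    rw [← exp_zero, exp_le_exp]; omega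
  have h2 : (1 : WithZero (Multiplicative ℤ)) ≤ exp (n : ℤ) := by
    rw [← exp_zero, exp_le_exp]; omega
  have hb := log_bound w hn d' he hϖ hdϖ h1 h (aeval z P)
  have hb2 : w (d' (aeval z P)) ≤ exp (n : ℤ) := by
    refine hb.trans ?_
    rcases eq_or_ne (w (aeval z P)) 0 with h0 | h0
    · rw [h0, mul_zero]; exact zero_le'
    · have h3 : w (aeval z P) ≤ exp (-1) := by
        rw [← exp_log h0, exp_le_exp]
        rw [← exp_log h0, ← exp_zero, exp_lt_exp] at hP2
        omega
      calc exp ((n + 1 : ℕ) : ℤ) * w (aeval z P) ≤ exp ((n + 1 : ℕ) : ℤ) * exp (-1) :=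
            mul_le_mul_right h3 _
        _ = exp (n : ℤ) := by
            rw [← exp_add]; congr 1; push_cast; ring
  have hs : w (P.sum (fun i a => algebraMap E M (d a) * z ^ i)) ≤ 1 := by
    unfold Polynomial.sum
    refine w.map_sum_le fun i _ => ?_
    rw [map_mul, map_pow]
    exact mul_le_one' ((hd _).trans (hP1 i)) (pow_le_one₀ zero_le' hz)
  have he2 : aeval z (derivative P) * d' z =
      d' (aeval z P) - P.sum (fun i a => algebraMap E M (d a) * z ^ i) := by
    rw [deriv_aeval d d' hdd]; ring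
  have h4 : w (d' z) = w (aeval z (derivative P) * d' z) := by
    rw [map_mul, hP3, one_mul]
  rw [h4, he2]
  exact (w.map_sub _ _).trans (max_le hb2 (hs.trans h2))

private lemma all_bound (w : Valuation M (WithZero (Multiplicative ℤ)))
    (hn : ∀ n : ℕ, n ≠ 0 → w (n : M) = 1) [Algebra.IsAlgebraic E M] (d : Derivation ℤ E E)
    (d' : Derivation ℤ M M) (hdd : ∀ x, d' (algebraMap E M x) = algebraMap E M (d x))
    (hd : ∀ x, w (algebraMap E M (d x)) ≤ w (algebraMap E M x)) {ϖ : M} {e : ℕ} (he : e ≠ 0)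
    (hϖ : w ϖ = exp (-(e : ℤ))) (hdϖ : w (d' ϖ) ≤ w ϖ) {N : ℕ}
    (h : ∀ z, w z ≤ 1 → w (d' z) ≤ exp (N : ℤ)) (z : M) : w (d' z) ≤ w z := by
  have key : ∀ z, w z ≤ 1 → w (d' z) ≤ 1 := by
    induction N with
    | zero =>
      intro z hz
      simpa using h z hz
    | succ n ih => exact ih fun z hz => step (E := E) w hn d d' hdd hd he hϖ hdϖ h z hz
  simpa using log_bound w hn d' he hϖ hdϖ le_rfl key z

end Core

theorem dv {R E M : Type*} [CommRing R] [IsDedekindDomain R] [Field E] [Algebra R E]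
    [IsFractionRing R E] [Field M] [Algebra E M] [FiniteDimensional E M] [CharZero E]
    (v : HeightOneSpectrum R) (hv : ∀ n : ℕ, n ≠ 0 → v.valuation E (n : E) = 1)
    (d : Derivation ℤ E E) (hd : ∀ x, v.valuation E (d x) ≤ v.valuation E x)
    (d' : Derivation ℤ M M) (hdd : ∀ x, d' (algebraMap E M x) = algebraMap E M (d x)) :
    ∃ v' : Valuation M (WithZero (Multiplicative ℤ)),
      (∀ x y : E, v' (algebraMap E M x) ≤ v' (algebraMap E M y) ↔
        v.valuation E x ≤ v.valuation E y) ∧ ∀ z, v' (d' z) ≤ v' z := by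
  classical
  let _ : Algebra R M := ((algebraMap E M).comp (algebraMap R E)).toAlgebra
  have : IsScalarTower R E M := IsScalarTower.of_algebraMap_eq fun _ => rfl
  let B := integralClosure R M
  have : IsDedekindDomain B := integralClosure.isDedekindDomain R E M
  have : IsFractionRing B M := integralClosure.isFractionRing_of_finite_extension E M
  have : Module.Finite R B := IsIntegralClosure.finite R E M B
  have hinjRM : Function.Injective (algebraMap R M) :=
    (algebraMap E M).injective.comp (IsFractionRing.injective R E)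
  have : FaithfulSMul R M := (faithfulSMul_iff_algebraMap_injective R M).2 hinjRM
  have : FaithfulSMul R B := by
    rw [faithfulSMul_iff_algebraMap_injective]
    intro x y hxy
    apply hinjRM
    have := congrArg (algebraMap B M) hxy
    rwa [← IsScalarTower.algebraMap_apply, ← IsScalarTower.algebraMap_apply] at this
  have : Algebra.IsIntegral R B := inferInstance
  obtain ⟨⟨P, hPp, hPl⟩⟩ := Ideal.nonempty_primesOver (S := B) v.asIdeal
  have hPne : P ≠ ⊥ := Ideal.ne_bot_of_liesOver_of_ne_bot v.ne_bot P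
  let w : HeightOneSpectrum B := ⟨P, hPp, hPne⟩
  have : w.asIdeal.LiesOver v.asIdeal := hPl
  have hval : ∀ x : E, v.valuation E x ^ v.asIdeal.ramificationIdx' w.asIdeal =
      w.valuation M (algebraMap E M x) := fun x =>
    HeightOneSpectrum.valuation_liesOver M v w x
  have he : v.asIdeal.ramificationIdx' w.asIdeal ≠ 0 :=
    Ideal.IsDedekindDomain.ramificationIdx'_ne_zero_of_liesOver w.asIdeal v.ne_bot
  have hord : ∀ x y : E, w.valuation M (algebraMap E M x) ≤ w.valuation M (algebraMap E M y) ↔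
      v.valuation E x ≤ v.valuation E y := by
    intro x y
    rw [← hval, ← hval]
    exact pow_le_pow_iff_left₀ zero_le' zero_le' he
  refine ⟨w.valuation M, hord, ?_⟩
  have hn : ∀ n : ℕ, n ≠ 0 → w.valuation M (n : M) = 1 := by
    intro n hn
    have h1 := hval (n : E)
    rw [hv n hn, one_pow, map_natCast] at h1
    exact h1.symm
  obtain ⟨ϖ, hϖ⟩ := v.valuation_exists_uniformizer E
  have hϖ' : w.valuation M (algebraMap E M ϖ) =
      WithZero.exp (-((v.asIdeal.ramificationIdx' w.asIdeal : ℕ) : ℤ)) := by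
    rw [← hval, hϖ, ← WithZero.exp_nsmul]
    congr 1
    simp
  have hd' : ∀ x, w.valuation M (algebraMap E M (d x)) ≤ w.valuation M (algebraMap E M x) :=
    fun x => (hord _ _).2 (hd x)
  -- boundedness
  obtain ⟨N, hN⟩ : ∃ N : ℕ, ∀ z, w.valuation M z ≤ 1 →
      w.valuation M (d' z) ≤ WithZero.exp (N : ℤ) := by
    obtain ⟨s, hs⟩ := (inferInstance : Module.Finite R B).fg_top
    -- a bound for the generators
    obtain ⟨N, hN⟩ : ∃ N : ℕ, ∀ b ∈ s, w.valuation M (d' (algebraMap B M b)) ≤
        WithZero.exp (N : ℤ) := by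
      refine ⟨s.sup fun b => (WithZero.log (w.valuation M (d' (algebraMap B M b)))).toNat,
        fun b hb => ?_⟩
      rcases eq_or_ne (w.valuation M (d' (algebraMap B M b))) 0 with h0 | h0
      · rw [h0]; exact zero_le'
      · rw [← WithZero.exp_log h0, WithZero.exp_le_exp]
        have h1 := Finset.le_sup (f := fun b =>
          (WithZero.log (w.valuation M (d' (algebraMap B M b)))).toNat) hb
        have h2 := Int.self_le_toNat (WithZero.log (w.valuation M (d' (algebraMap B M b))))
        calc _ ≤ _ := h2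
          _ ≤ _ := by exact_mod_cast h1
    have hexp1 : (1 : WithZero (Multiplicative ℤ)) ≤ WithZero.exp (N : ℤ) := by
      rw [← WithZero.exp_zero, WithZero.exp_le_exp]; omega
    have hB : ∀ b : B, w.valuation M (d' (algebraMap B M b)) ≤ WithZero.exp (N : ℤ) := by
      intro b
      have hb : b ∈ Submodule.span R (s : Set B) := by rw [hs]; trivial
      induction hb using Submodule.span_induction with
      | mem x hx => exact hN x hx
      | zero => simp
      | add x y _ _ hx hy =>
        rw [map_add, map_add]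
        exact (Valuation.map_add _ _ _).trans (max_le hx hy)
      | smul r x _ hx =>
        have h1 : algebraMap B M (r • x) = algebraMap E M (algebraMap R E r) * algebraMap B M x := by
          rw [Algebra.smul_def, map_mul, ← IsScalarTower.algebraMap_apply,
            ← IsScalarTower.algebraMap_apply]
        have h2 : w.valuation M (algebraMap E M (algebraMap R E r)) ≤ 1 := by
          rw [← hval]
          exact pow_le_one₀ zero_le' (v.valuation_le_one r)
        rw [h1, Derivation.leibniz, hdd]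
        simp only [smul_eq_mul]
        refine (Valuation.map_add _ _ _).trans (max_le ?_ ?_)
        · rw [map_mul]
          calc _ ≤ 1 * WithZero.exp (N : ℤ) := mul_le_mul' h2 hx
            _ = _ := one_mul _
        · rw [map_mul]
          exact (mul_le_one' (w.valuation_le_one x) ((hd' _).trans h2)).trans hexp1
    refine ⟨N, fun z hz => ?_⟩
    obtain ⟨b, c, hbc⟩ := HeightOneSpectrum.exists_primeCompl_mul_eq_of_integer w z hz
    have hc : w.valuation M (algebraMap B M c) = 1 :=
      (HeightOneSpectrum.valuation_eq_one_iff_notMem w).2 c.2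
    -- `d z * c = d b - z * d c`
    have h1 : d' z * algebraMap B M c = d' (algebraMap B M b) - z * d' (algebraMap B M c) := by
      rw [← hbc, Derivation.leibniz]
      simp only [smul_eq_mul]
      ring
    have h2 : w.valuation M (d' z) = w.valuation M (d' z * algebraMap B M c) := by
      rw [map_mul, hc, mul_one]
    rw [h2, h1]
    refine (Valuation.map_sub _ _ _).trans (max_le (hB b) ?_)
    rw [map_mul]
    calc _ ≤ 1 * WithZero.exp (N : ℤ) := mul_le_mul' hz (hB c)
      _ = _ := one_mul _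
  exact all_bound (E := E) (w.valuation M) hn d d' hdd hd' he hϖ'
    (by rw [hdd]; exact hd' ϖ) hN

end Pool.Agent.Helper16.TP
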