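import Mathlib

/-!
# Definitions (algebra) for the theorem on combinations of units (MP_71c16a_nt, helper16)
-/

namespace Pool.Agent.Helper16.TP

open Polynomial

/-- The derivation `∑ b, λ b * X b * ∂ / ∂ X b` of `K[X_1, ..., X_n]`. -/
noncomputable def der {K : Type*} [Field K] {n : ℕ} (lam : Fin n → K) :
    Derivation K (MvPolynomial (Fin n) K) (MvPolynomial (Fin n) K) :=
  MvPolynomial.mkDerivation K fun b => MvPolynomial.C (lam b) * MvPolynomial.X b

/-- A map applied to the coefficients of a polynomial. -/
noncomputable def mapD {A B : Type*} [Semiring A] [Semiring B] (d : A → B) (F : A[X]) : B[X] :=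
  ∑ i ∈ Finset.range (F.natDegree + 1), monomial i (d (F.coeff i))

theorem coeff_mapD {A B : Type*} [Semiring A] [Semiring B] (d : A → B) (hd : d 0 = 0) (F : A[X])
    (i : ℕ) : (mapD d F).coeff i = d (F.coeff i) := by
  unfold mapD
  rw [finsetSum_coeff]
  simp only [coeff_monomial]
  rw [Finset.sum_ite_eq' (Finset.range (F.natDegree + 1)) i fun j => d (F.coeff j)]
  split_ifs with h
  · rfl
  · rw [coeff_eq_zero_of_natDegree_lt, hd]
    simpa using h

/-- The resultant of `F` (of degree at most `r`) and its derivative. -/
noncomputable def rd {A : Type*} [CommRing A] (r : ℕ) (F : A[X]) : A :=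
  resultant F (derivative F) r (r - 1)

end Pool.Agent.Helper16.TP
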