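import Mathlib
import Pool.Agent.Helper16.TP.DefsA
import Pool.Agent.Helper26.DMC.SU2
import Pool.Agent.Helper61.AD.Defs

/-!
# Definitions (number fields) for the theorem on combinations of units (MP_71c16a_nt, helper16)

`SUnit U T y` (helper26): for almost all `n` along the ultrafilter `U`, `y n ≠ 0` and `y n` is a unit
outside the finite set `T` of finite places.
-/

namespace Pool.Agent.Helper16.TP

open NumberField Finset Polynomial
open Pool.Agent.Helper64.Vojta (Pl nv sn)

/-- `e` is multiplicatively independent along `U`: no monomial with exponent vector `≠ 0` is constant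
along `U`. -/
def MI {K : Type*} [Field K] (U : Ultrafilter ℕ) {n : ℕ} (e : Fin n → ℕ → K) : Prop :=
  ∀ a : Fin n → ℤ, (∃ c : K, ∀ᶠ i in (U : Filter ℕ), ∏ b, e b i ^ a b = c) → a = 0

/-- Sum over the infinite places and the places in `T`. -/
noncomputable def lsum {K : Type*} [Field K] [NumberField K] (T : Finset (FinitePlace K))
    (f : Pl K → ℝ) : ℝ := ∑ v : InfinitePlace K, f (.inl v) + ∑ v ∈ T, f (.inr v)

end Pool.Agent.Helper16.TP
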