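import Pool.Agent.Helper16.TP.DefsA

/-!
# Block TP-ROOT: the inequality for the roots

PROOF. Let `x_1, ..., x_r` be the roots of `F`, `ℓ` its leading coefficient, `q = p.card`. By
`resultant_eq_prod_eval` (Mathlib) `Res(F, G; r, k) = ℓ ^ k * ∏ G(x_i)` for `G` of degree `≤ k`. Differentiating
`F(x_i) = 0`: `(mapD d F)(x_i) = - F'(x_i) * d x_i`. So the claim is (after cancelling
`v ℓ ^ (r-1) * ∏ v (F'(x_i))`, which is common to both sides; if it is `0` both sides are `0`)
`v ℓ * ∏ v (d x_i) * v (F.coeff s) ^ (q-1) ≤ v ℓ ^ q * ∏_{x ∈ p} ∏_i v (x - x_i)`.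
Vieta: `v (F.coeff s) ≤ v ℓ * ∏_i max 1 (v x_i)`. So it suffices for every `i` (write `z = x_i`):
`v (d z) * (max 1 (v z)) ^ (q-1) ≤ ∏_{x ∈ p} v (x - z)`.
Note `v (d z) = v (d (z - x)) ≤ v (z - x)` for `x ∈ p` and `v (d z) ≤ v z`.
* If `v z > 1`: `v (x - z) = v z` for all `x ∈ p`, clear.
* If `v z ≤ 1`: at most one `x ∈ p` has `v (x - z) < 1` (for two of them `v (x - y) < 1`), the others have
  `v (x - z) = 1`. If there is such an `x` use `v (d z) ≤ v (z - x)`, otherwise the right side is 1 and
  `v (d z) ≤ v z ≤ 1`.
-/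

namespace Pool.Agent.Helper16.TP

open Polynomial

section

variable {M : Type*} [Field M] {Γ₀ : Type*} [LinearOrderedCommGroupWithZero Γ₀]
    (v : Valuation M Γ₀)

/-- coefficients of a product of linear factors -/
theorem coeff_prod_le97 (s : Multiset M) (i : ℕ) :
    v ((s.map fun z => X - C z).prod.coeff i) ≤ (s.map fun z => max 1 (v z)).prod := by
  induction s using Multiset.induction_on generalizing i with
  | empty =>
    simp only [Multiset.map_zero, Multiset.prod_zero, coeff_one]
    split_ifs
    · simp
    · simp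
  | cons z s ih =>
    simp only [Multiset.map_cons, Multiset.prod_cons]
    have h1 : ∀ j, v (z * (s.map fun z => X - C z).prod.coeff j) ≤
        max 1 (v z) * (s.map fun z => max 1 (v z)).prod := by
      intro j
      rw [map_mul]
      exact mul_le_mul' (le_max_right _ _) (ih j)
    have h2 : ∀ j, v ((s.map fun z => X - C z).prod.coeff j) ≤
        max 1 (v z) * (s.map fun z => max 1 (v z)).prod := by
      intro j
      calc v ((s.map fun z => X - C z).prod.coeff j)
          = 1 * v ((s.map fun z => X - C z).prod.coeff j) := (one_mul _).symm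
        _ ≤ _ := mul_le_mul' (le_max_left _ _) (ih j)
    rw [sub_mul, coeff_sub, coeff_C_mul]
    cases i with
    | zero =>
      rw [mul_coeff_zero, coeff_X_zero, zero_mul, zero_sub, Valuation.map_neg]
      exact h1 0
    | succ j =>
      rw [coeff_X_mul]
      exact (Valuation.map_sub v _ _).trans (max_le (h2 j) (h1 _))

/-- the inequality for one root -/
theorem one_root97 (d : Derivation ℤ M M) (hd : ∀ z, v (d z) ≤ v z) (p : Finset M)
    (hp : p.Nonempty) (hp1 : ∀ x ∈ p, v x ≤ 1) (hp2 : ∀ x ∈ p, ∀ y ∈ p, x ≠ y → v (x - y) = 1)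
    (hpd : ∀ x ∈ p, d x = 0) (z : M) :
    v (d z) * (max 1 (v z)) ^ (p.card - 1) ≤ ∏ x ∈ p, v (x - z) := by
  classical
  have hcard : 0 < p.card := Finset.card_pos.2 hp
  rcases lt_or_ge 1 (v z) with hz | hz
  · have h1 : ∀ x ∈ p, v (x - z) = v z := by
      intro x hx
      rw [Valuation.map_sub_swap]
      exact Valuation.map_sub_eq_of_lt_left v ((hp1 x hx).trans_lt hz)
    rw [Finset.prod_congr rfl h1, Finset.prod_const, max_eq_right hz.le]
    calc v (d z) * v z ^ (p.card - 1) ≤ v z * v z ^ (p.card - 1) := mul_le_mul' (hd z) le_rfl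
      _ = v z ^ p.card := by
        rw [← pow_succ']
        congr 1; omega
  · rw [max_eq_left hz, one_pow, mul_one]
    by_cases h : ∃ x ∈ p, v (x - z) < 1
    · obtain ⟨x, hx, hxz⟩ := h
      have h1 : ∀ y ∈ p.erase x, v (y - z) = 1 := by
        intro y hy
        rw [Finset.mem_erase] at hy
        have h2 := hp2 y hy.2 x hx hy.1
        have h3 : y - z = (y - x) + (x - z) := by ring
        rw [h3, Valuation.map_add_eq_of_lt_left v (by rw [h2]; exact hxz), h2]
      rw [← Finset.mul_prod_erase p _ hx, Finset.prod_congr rfl h1, Finset.prod_const_one, mul_one]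
      have h4 : d z = d (z - x) := by rw [map_sub, hpd x hx, sub_zero]
      rw [h4, Valuation.map_sub_swap v x z]
      exact hd _
    · push Not at h
      calc v (d z) ≤ v z := hd z
        _ ≤ 1 := hz
        _ ≤ ∏ x ∈ p, v (x - z) := Finset.one_le_prod' h

end

theorem root_ineq {M : Type*} [Field M] {Γ₀ : Type*} [LinearOrderedCommGroupWithZero Γ₀]
    (v : Valuation M Γ₀) (d : Derivation ℤ M M) (hd : ∀ z, v (d z) ≤ v z) {r : ℕ} (hr : 1 ≤ r)
    (F : M[X]) (hdeg : F.natDegree = r) (hsp : F.Splits) (p : Finset M) (hp : p.Nonempty)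
    (hp1 : ∀ x ∈ p, v x ≤ 1) (hp2 : ∀ x ∈ p, ∀ y ∈ p, x ≠ y → v (x - y) = 1)
    (hpd : ∀ x ∈ p, d x = 0) (s : ℕ) :
    v (resultant F (mapD d F) r r * F.coeff s ^ (p.card - 1)) ≤
      v (rd r F * ∏ x ∈ p, F.eval x) := by
  have hF0 : F ≠ 0 := by
    intro h0; rw [h0, natDegree_zero] at hdeg; omega
  have hcard : 0 < p.card := Finset.card_pos.2 hp
  have hd0 : d (0 : M) = 0 := map_zero d
  set l := F.leadingCoeff with hl
  -- the factorisation
  have hfac : F = C l * (F.roots.map fun z => X - C z).prod := hsp.eq_prod_roots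
  have heval : ∀ x, F.eval x = l * (F.roots.map fun z => x - z).prod := by
    intro x
    conv_lhs => rw [hfac]
    rw [eval_mul, eval_C, eval_multiset_prod, Multiset.map_map]
    congr 2
    apply Multiset.map_congr rfl
    intro z _
    simp
  have hcoeff : v (F.coeff s) ≤ v l * (F.roots.map fun z => max 1 (v z)).prod := by
    conv_lhs => rw [hfac]
    rw [coeff_C_mul, map_mul]
    exact mul_le_mul' le_rfl (coeff_prod_le97 v _ _)
  -- the derivative relation
  have hdeg2 : (mapD d F).natDegree ≤ r := by
    rw [natDegree_le_iff_coeff_eq_zero]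
    intro i hi
    rw [coeff_mapD (d : M → M) hd0, coeff_eq_zero_of_natDegree_lt (by omega), hd0]
  have hrel : ∀ z ∈ F.roots, (mapD d F).eval z = - ((derivative F).eval z * d z) := by
    intro z hz
    have h0 : F.eval z = 0 := (mem_roots hF0).1 hz
    have h1 : d (F.eval z) = (mapD d F).eval z + (derivative F).eval z * d z := by
      have h2 : (mapD d F).eval z = ∑ i ∈ Finset.range (F.natDegree + 1), d (F.coeff i) * z ^ i := by
        unfold mapD
        rw [eval_finsetSum]
        apply Finset.sum_congr rfl
        intro i _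
        rw [eval_monomial]
      have h3 : (derivative F).eval z = ∑ i ∈ Finset.range (F.natDegree + 1),
          F.coeff i * (i * z ^ (i - 1)) := by
        rw [derivative_eval, sum_over_range' _ (fun n => by simp) _ (Nat.lt_succ_self _)]
        apply Finset.sum_congr rfl
        intro i _
        ring
      rw [h2, h3, eval_eq_sum_range, map_sum, Finset.sum_mul, ← Finset.sum_add_distrib]
      apply Finset.sum_congr rfl
      intro i _
      rw [Derivation.leibniz, Derivation.leibniz_pow]
      simp only [smul_eq_mul, nsmul_eq_mul]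
      ring
    rw [h0, hd0] at h1
    exact eq_neg_of_add_eq_zero_left h1.symm
  -- the resultants
  have hres1 : resultant F (mapD d F) r r = l ^ r * (F.roots.map fun z => (mapD d F).eval z).prod := by
    have := resultant_eq_prod_eval F (mapD d F) r hdeg2 hsp
    rw [hdeg] at this
    exact this
  have hres2 : rd r F = l ^ (r - 1) * (F.roots.map fun z => (derivative F).eval z).prod := by
    have := resultant_eq_prod_eval F (derivative F) (r - 1) ((natDegree_derivative_le F).trans (by omega)) hsp
    rw [hdeg] at this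
    exact this
  have hv1 : v (resultant F (mapD d F) r r) = v l ^ r *
      ((F.roots.map fun z => v ((derivative F).eval z)).prod * (F.roots.map fun z => v (d z)).prod) := by
    rw [hres1, map_mul, map_pow, map_multiset_prod, Multiset.map_map, ← Multiset.prod_map_mul]
    congr 2
    apply Multiset.map_congr rfl
    intro z hz
    rw [Function.comp_apply, hrel z hz, Valuation.map_neg, map_mul]
  have hv2 : v (rd r F) = v l ^ (r - 1) * (F.roots.map fun z => v ((derivative F).eval z)).prod := by
    rw [hres2, map_mul, map_pow, map_multiset_prod, Multiset.map_map]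
    rfl
  have hv3 : v (∏ x ∈ p, F.eval x) = v l ^ p.card *
      (F.roots.map fun z => ∏ x ∈ p, v (x - z)).prod := by
    rw [map_prod]
    have h1 : ∀ x ∈ p, v (F.eval x) = v l * (F.roots.map fun z => v (x - z)).prod := by
      intro x _
      rw [heval, map_mul, map_multiset_prod, Multiset.map_map]
      rfl
    rw [Finset.prod_congr rfl h1, Finset.prod_mul_distrib, Finset.prod_const]
    congr 1
    exact Multiset.prod_map_prod_map p.val F.roots
  rw [map_mul, map_mul, map_pow, hv1, hv2, hv3]
  set A := (F.roots.map fun z => v ((derivative F).eval z)).prod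
  set B := (F.roots.map fun z => v (d z)).prod with hB
  set E := (F.roots.map fun z => max 1 (v z)).prod with hE
  have hroot : B * E ^ (p.card - 1) ≤ (F.roots.map fun z => ∏ x ∈ p, v (x - z)).prod := by
    rw [hB, hE, ← Multiset.prod_map_pow, ← Multiset.prod_map_mul]
    apply Multiset.prod_map_le_prod_map
    intro z _
    exact one_root97 v d hd p hp hp1 hp2 hpd z
  calc v l ^ r * (A * B) * v (F.coeff s) ^ (p.card - 1)
      ≤ v l ^ r * (A * B) * (v l * E) ^ (p.card - 1) :=
        mul_le_mul' le_rfl (pow_le_pow_left' hcoeff _)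
    _ = v l ^ (r - 1) * A * (v l ^ p.card * (B * E ^ (p.card - 1))) := by
        have e1 : v l ^ r = v l ^ (r - 1) * v l := by
          rw [← pow_succ]; congr 1; omega
        have e2 : v l ^ p.card = v l * v l ^ (p.card - 1) := by
          rw [← pow_succ']; congr 1; omega
        rw [e1, e2, mul_pow]
        generalize v l ^ (r - 1) = a
        generalize v l ^ (p.card - 1) = b
        generalize E ^ (p.card - 1) = c
        ac_rfl
    _ ≤ _ := mul_le_mul' le_rfl (mul_le_mul' le_rfl hroot)

end Pool.Agent.Helper16.TP
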