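import Mathlib

/-!
# Block TP-WT: from integral to real weights

PROOF. Suppose the conclusion fails for `a` and `m ∈ P`: `∑ a b * m' b < ∑ a b * m b` for all `m' ∈ Q`. These are
finitely many strict inequalities, continuous in `a`, so they hold for a vector of rational numbers near
`a`, and after multiplication by a common denominator for a vector `a'` of integers. Apply `h` to `-a'`.
-/

namespace Pool.Agent.Helper16.TP

theorem real_of_int {n : ℕ} (P Q : Finset (Fin n →₀ ℕ))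
    (h : ∀ a : Fin n → ℤ, ∀ m ∈ P, ∃ m' ∈ Q,
      ∑ b, a b * (m' b : ℤ) ≤ ∑ b, a b * (m b : ℤ)) (a : Fin n → ℝ) :
    ∀ m ∈ P, ∃ m' ∈ Q, ∑ b, a b * (m b : ℝ) ≤ ∑ b, a b * (m' b : ℝ) := by
  intro m hm
  by_contra hcon
  push Not at hcon
  -- the open set of vectors where all strict inequalities hold
  have hopen : IsOpen (⋂ m' ∈ Q, {x : Fin n → ℝ |
      ∑ b, x b * (m' b : ℝ) < ∑ b, x b * (m b : ℝ)}) := by
    refine isOpen_biInter_finset fun m' _ => ?_
    exact isOpen_lt (by fun_prop) (by fun_prop)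
  have hmem : a ∈ (⋂ m' ∈ Q, {x : Fin n → ℝ |
      ∑ b, x b * (m' b : ℝ) < ∑ b, x b * (m b : ℝ)}) := by
    simp only [Set.mem_iInter]
    intro m' hm'
    exact hcon m' hm'
  have hdense : DenseRange (fun q : Fin n → ℚ => fun i => ((q i : ℚ) : ℝ)) :=
    DenseRange.piMap (fun _ => Rat.denseRange_cast)
  obtain ⟨q, hq⟩ := hdense.exists_mem_open hopen ⟨a, hmem⟩
  simp only [Set.mem_iInter] at hq
  -- common denominator
  set D : ℕ := ∏ b, (q b).den with hD
  have hDpos : 0 < D := Finset.prod_pos fun b _ => (q b).den_pos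
  have hz : ∀ b, ∃ z : ℤ, (z : ℝ) = (D : ℝ) * ((q b : ℚ) : ℝ) := by
    intro b
    obtain ⟨k, hk⟩ : (q b).den ∣ D := Finset.dvd_prod_of_mem (fun b => (q b).den) (Finset.mem_univ b)
    refine ⟨k * (q b).num, ?_⟩
    have h1 : ((q b : ℚ) : ℝ) = ((q b).num : ℝ) / ((q b).den : ℝ) := by
      exact_mod_cast Rat.cast_def (K := ℝ) (q b)
    have h2 : ((q b).den : ℝ) ≠ 0 := by exact_mod_cast (q b).den_ne_zero
    rw [h1, hk]
    push_cast
    field_simp
  choose z hz using hz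
  obtain ⟨m', hm', hle⟩ := h (fun b => - z b) m hm
  have h3 : ∑ b, ((q b : ℚ) : ℝ) * (m' b : ℝ) < ∑ b, ((q b : ℚ) : ℝ) * (m b : ℝ) := hq m' hm'
  have h4 : ∀ w : Fin n →₀ ℕ, ((∑ b, (- z b) * (w b : ℤ) : ℤ) : ℝ) =
      -((D : ℝ) * ∑ b, ((q b : ℚ) : ℝ) * (w b : ℝ)) := by
    intro w
    push_cast
    rw [Finset.mul_sum, ← Finset.sum_neg_distrib]
    refine Finset.sum_congr rfl fun b _ => ?_
    rw [hz b]
    ring
  have h5 : ((∑ b, (- z b) * (m' b : ℤ) : ℤ) : ℝ) ≤ ((∑ b, (- z b) * (m b : ℤ) : ℤ) : ℝ) := by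
    exact_mod_cast hle
  rw [h4, h4] at h5
  have h6 : (0 : ℝ) < D := by exact_mod_cast hDpos
  have h7 := mul_lt_mul_of_pos_left h3 h6
  linarith

end Pool.Agent.Helper16.TP
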