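import Pool.Agent.Helper16.TP.Model
import Pool.Agent.Helper16.TP.DV
import Pool.Agent.Helper16.TP.RootIneq
import Pool.Agent.Helper16.TP.Weights

/-!
# Block TP-FF: the function field inequality

PROOF of `ff_int`: take `R, E, v, φ, d` from `exists_model lam a`, `M` a splitting field of `F.map φ` over `E`, `d'` the
extension of `d` to `M` (Mathlib: `differentialFiniteDimensional`, `Differential` with `deriv := d`; it
gives a `Derivation ℤ M M` which extends `d`), `v'` from `dv`. Apply `root_ineq` to
`(F.map φ).map (algebraMap E M)` and the image `p'` of `p` (`d' = 0` on it because `der lam (C c) = 0`;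
`v' = 1` on differences by the property of constants in `exists_model`; the first property in `dv` with
`y = 1`). `resultant_map_map`, `mapD` commutes with the ring homomorphism because of `d ∘ φ = φ ∘ der lam`.
The result is `v' (..(P)..) ≤ v' (..(Q)..)` with `P = resultant F (mapD (der lam) F) r r * F.coeff s ^ (p.card - 1)`,
`Q = rd r F * ∏ ..`, so `v (φ P) ≤ v (φ Q)` by `dv`, and the last property in `exists_model`.
`ff_real`: `real_of_int`.
-/

namespace Pool.Agent.Helper16.TP

open Polynomial IsDedekindDomain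

theorem h53_exists_ext {E M : Type*} [Field E] [CharZero E] [Field M] [Algebra E M]
    [FiniteDimensional E M] (d : Derivation ℤ E E) :
    ∃ d' : Derivation ℤ M M, ∀ x, d' (algebraMap E M x) = algebraMap E M (d x) := by
  letI : Differential E := ⟨d⟩
  letI : Differential M := Differential.differentialFiniteDimensional E M
  haveI : DifferentialAlgebra E M := Differential.differentialAlgebraFiniteDimensional
  exact ⟨Differential.deriv, fun x => deriv_algebraMap x⟩

theorem h53_map_mapD {A B : Type*} [CommRing A] [CommRing B] (ψ : A →+* B) (d : A → A) (d' : B → B)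
    (h0 : d 0 = 0) (h0' : d' 0 = 0) (h : ∀ x, d' (ψ x) = ψ (d x)) (F : A[X]) :
    mapD d' (F.map ψ) = (mapD d F).map ψ := by
  ext i
  rw [coeff_mapD d' h0', coeff_map, coeff_map, coeff_mapD d h0, h]

theorem ff_int {K : Type*} [Field K] [CharZero K] {n r : ℕ} (hr : 1 ≤ r)
    (F : (MvPolynomial (Fin n) K)[X]) (hdeg : F.natDegree = r) (p : Finset K) (hp : p.Nonempty)
    (lam : Fin n → K) (s : ℕ) (a : Fin n → ℤ) :
    ∀ m ∈ (resultant F (mapD (der lam) F) r r * F.coeff s ^ (p.card - 1)).support,
      ∃ m' ∈ (rd r F * ∏ x ∈ p, F.eval (MvPolynomial.C x)).support,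
        ∑ b, a b * (m' b : ℤ) ≤ ∑ b, a b * (m b : ℤ) := by
  classical
  intro m hm
  obtain ⟨R, E, _, _, _, _, _, v, φ, d, hE, hφ, hφ1, hφd, hd, hcmp⟩ := exists_model lam a
  haveI := hE
  obtain ⟨d', hdd⟩ := h53_exists_ext (M := SplittingField (F.map φ)) d
  have hv : ∀ n : ℕ, n ≠ 0 → v.valuation E (n : E) = 1 := by
    intro k hk
    have := hφ1 (k : K) (by exact_mod_cast hk)
    simpa using this
  obtain ⟨v', hv', hd'⟩ := dv v hv d hd d' hdd
  let ψ : MvPolynomial (Fin n) K →+* SplittingField (F.map φ) :=
    (algebraMap E (SplittingField (F.map φ))).comp φ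
  have hψ : Function.Injective ψ := (algebraMap E (SplittingField (F.map φ))).injective.comp hφ
  have hle1 : ∀ x : E, v.valuation E x = 1 → v' (algebraMap E _ x) = 1 := by
    intro x hx
    apply le_antisymm
    · have := (hv' x 1).2 (by rw [hx, map_one])
      simpa using this
    · have := (hv' 1 x).2 (by rw [hx, map_one])
      simpa using this
  have hC : ∀ c : K, c ≠ 0 → v' (ψ (MvPolynomial.C c)) = 1 := fun c hc => hle1 _ (hφ1 c hc)
  have hinj : Function.Injective fun c : K => ψ (MvPolynomial.C c) :=
    hψ.comp (MvPolynomial.C_injective _ _)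
  have hdψ : ∀ P, d' (ψ P) = ψ (der lam P) := by
    intro P
    change d' (algebraMap E _ (φ P)) = algebraMap E _ (φ (der lam P))
    rw [hdd, hφd]
  have key := root_ineq v' d' hd' hr (F.map ψ)
    (by rw [natDegree_map_eq_of_injective hψ, hdeg])
    (by
      have h := SplittingField.splits (F.map φ)
      rwa [Polynomial.map_map] at h)
    (p.image fun c : K => ψ (MvPolynomial.C c)) (hp.image _)
    (by
      intro x hx
      obtain ⟨c, -, rfl⟩ := Finset.mem_image.1 hx
      rcases eq_or_ne c 0 with rfl | hc
      · simp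
      · exact (hC c hc).le)
    (by
      intro x hx y hy hxy
      obtain ⟨c, -, rfl⟩ := Finset.mem_image.1 hx
      obtain ⟨c', -, rfl⟩ := Finset.mem_image.1 hy
      have hne : c - c' ≠ 0 := fun h => hxy (by rw [sub_eq_zero.1 h])
      have := hC _ hne
      rwa [map_sub, map_sub] at this)
    (by
      intro x hx
      obtain ⟨c, -, rfl⟩ := Finset.mem_image.1 hx
      change d' (ψ (MvPolynomial.C c)) = 0
      rw [hdψ]
      have : der lam (MvPolynomial.C c) = 0 := by
        rw [← MvPolynomial.algebraMap_eq]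
        exact Derivation.map_algebraMap _ c
      rw [this, map_zero]) s
  rw [h53_map_mapD ψ (der lam) d' (map_zero _) (map_zero _) hdψ F, resultant_map_map,
    Finset.card_image_of_injective _ hinj, coeff_map, ← map_pow, ← map_mul, rd, derivative_map,
    resultant_map_map, Finset.prod_image (fun x _ y _ h => hinj h)] at key
  have e : ∏ x ∈ p, eval (ψ (MvPolynomial.C x)) (F.map ψ)
      = ψ (∏ x ∈ p, F.eval (MvPolynomial.C x)) := by
    rw [map_prod]
    refine Finset.prod_congr rfl fun x _ => ?_
    rw [eval_map, eval₂_at_apply]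
  rw [e, ← map_mul] at key
  exact hcmp _ _ ((hv' _ _).1 key) m hm

theorem ff_real {K : Type*} [Field K] [CharZero K] {n r : ℕ} (hr : 1 ≤ r)
    (F : (MvPolynomial (Fin n) K)[X]) (hdeg : F.natDegree = r) (p : Finset K) (hp : p.Nonempty)
    (lam : Fin n → K) (s : ℕ) (a : Fin n → ℝ) :
    ∀ m ∈ (resultant F (mapD (der lam) F) r r * F.coeff s ^ (p.card - 1)).support,
      ∃ m' ∈ (rd r F * ∏ x ∈ p, F.eval (MvPolynomial.C x)).support,
        ∑ b, a b * (m b : ℝ) ≤ ∑ b, a b * (m' b : ℝ) :=
  real_of_int _ _ (ff_int hr F hdeg p hp lam s) a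

end Pool.Agent.Helper16.TP
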