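import Pool.Agent.Helper16.TP.DefsA

/-!
# Block TP-FRAC: a derivation extends to the fraction field

PROOF. Quotient rule: `D (a / b) = (D a * b - a * D b) / b ^ 2` (well defined: if `a * b' = a' * b`, apply
`d`). Additivity and Leibniz: `field_simp`, `ring` after writing elements as `algebraMap a / algebraMap b`
(`IsFractionRing.div_surjective`). Or: `Derivation` into `L`, `Algebra.FormallyEtale` of a localisation.
-/

namespace Pool.Agent.Helper16.TP

theorem exists_frac_der {A L : Type*} [CommRing A] [IsDomain A] [Field L] [Algebra A L]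
    [IsFractionRing A L] (d : Derivation ℤ A A) :
    ∃ D : Derivation ℤ L L, ∀ a, D (algebraMap A L a) = algebraMap A L (d a) := by
  classical
  have hinj : Function.Injective (algebraMap A L) := IsFractionRing.injective A L
  have hne : ∀ b : A, b ≠ 0 → algebraMap A L b ≠ 0 := fun b hb h =>
    hb (hinj (by rw [h, map_zero]))
  set g : A → A → L := fun a b =>
    (algebraMap A L (d a) * algebraMap A L b - algebraMap A L a * algebraMap A L (d b)) /
      algebraMap A L b ^ 2 with hg
  have key : ∀ a b a' b' : A, b ≠ 0 → b' ≠ 0 →
      algebraMap A L a / algebraMap A L b = algebraMap A L a' / algebraMap A L b' →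
      g a b = g a' b' := by
    intro a b a' b' hb hb' h
    have h1 := hne b hb
    have h2 := hne b' hb'
    rw [div_eq_div_iff h1 h2] at h
    have h3 : a * b' = a' * b := hinj (by rw [map_mul, map_mul]; exact h)
    have h4 : a * d b' + b' * d a = a' * d b + b * d a' := by
      have := congrArg d h3
      rw [Derivation.leibniz, Derivation.leibniz] at this
      simpa [smul_eq_mul] using this
    have h5 := congrArg (algebraMap A L) h4
    simp only [map_add, map_mul] at h5
    simp only [hg]
    rw [div_eq_div_iff (pow_ne_zero 2 h1) (pow_ne_zero 2 h2)]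
    linear_combination (algebraMap A L b * algebraMap A L b') * h5 -
      (algebraMap A L b * algebraMap A L (d b') + algebraMap A L b' * algebraMap A L (d b)) * h
  have hsurj : ∀ z : L, ∃ p : A × A, p.2 ≠ 0 ∧ z = algebraMap A L p.1 / algebraMap A L p.2 := by
    intro z
    obtain ⟨x, y, hy, hz⟩ := IsFractionRing.div_surjective (A := A) z
    exact ⟨(x, y), nonZeroDivisors.ne_zero hy, hz.symm⟩
  choose p hp0 hp using hsurj
  have hf : ∀ (z : L) (a b : A), b ≠ 0 → z = algebraMap A L a / algebraMap A L b →
      g (p z).1 (p z).2 = g a b := by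
    intro z a b hb hz
    exact key _ _ _ _ (hp0 z) hb ((hp z).symm.trans hz)
  have hadd : ∀ z z' : L, g (p (z + z')).1 (p (z + z')).2 =
      g (p z).1 (p z).2 + g (p z').1 (p z').2 := by
    intro z z'
    have h1 := hne _ (hp0 z)
    have h2 := hne _ (hp0 z')
    rw [hf (z + z') ((p z).1 * (p z').2 + (p z').1 * (p z).2) ((p z).2 * (p z').2)
      (mul_ne_zero (hp0 z) (hp0 z')) (by
        nth_rewrite 1 [hp z]
        nth_rewrite 1 [hp z']
        simp only [map_add, map_mul]
        field_simp)]
    simp only [hg, map_add, map_mul, Derivation.leibniz, smul_eq_mul]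
    field_simp
    ring
  have hmul : ∀ z z' : L, g (p (z * z')).1 (p (z * z')).2 =
      z * g (p z').1 (p z').2 + z' * g (p z).1 (p z).2 := by
    intro z z'
    have h1 := hne _ (hp0 z)
    have h2 := hne _ (hp0 z')
    rw [hf (z * z') ((p z).1 * (p z').1) ((p z).2 * (p z').2)
      (mul_ne_zero (hp0 z) (hp0 z')) (by
        nth_rewrite 1 [hp z]
        nth_rewrite 1 [hp z']
        simp only [map_mul]
        field_simp)]
    have e1 := hp z
    have e2 := hp z'
    generalize p z = u at *
    generalize p z' = u' at *
    subst e1
    subst e2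
    simp only [hg, map_add, map_mul, Derivation.leibniz, smul_eq_mul]
    field_simp
    ring
  let φ : L →+ L :=
    { toFun := fun z => g (p z).1 (p z).2
      map_zero' := by
        rw [hf 0 0 1 one_ne_zero (by simp)]
        simp [hg]
      map_add' := hadd }
  refine ⟨Derivation.mk' φ.toIntLinearMap fun z z' => ?_, fun a => ?_⟩
  · simp only [smul_eq_mul]
    exact hmul z z'
  · change g (p (algebraMap A L a)).1 (p (algebraMap A L a)).2 = _
    rw [hf (algebraMap A L a) a 1 one_ne_zero (by simp)]
    simp [hg]

end Pool.Agent.Helper16.TP
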