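import Pool.Agent.Helper16.TP.FracDer

/-!
# Block TP-LAM: choice of the derivation

PROOF. `A = MvPolynomial (Fin n) K`, `L = FractionRing A`, `F' = F.map (algebraMap A L)`, of degree `r`, separable
(`rd r F ≠ 0`; `resultant_eq_zero_iff`, `resultant_map_map`). Suppose the resultant is zero for all
`lam`. By `resultant_eq_zero_iff` (the second polynomial may have degree `< r`: `resultant_add_right_deg`)
`F'` and `(mapD (der lam) F).map _` have a common monic irreducible factor, one of the finitely many monic
irreducible factors `G_1, ..., G_k` of `F'`. `V_i = {lam : G_i ∣ (mapD (der lam) F).map _}` is a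
subspace of `K^n` (linear in `lam`), and `K^n` is the union of the `V_i`, so `V_i = K^n` for some `i`
(a vector space over an infinite field is not a finite union of proper subspaces, Mathlib:
`Subspace.exists_eq_top_of_iUnion_eq_univ`). Put `G = G_i` and let `D_b` be the extension to `L` of the derivation
`X_b * ∂/∂X_b` (`exists_frac_der`). With `lam = e_b`: `G ∣ D_b F'` (coefficientwise). `F' = G * H` with `G`, `H`
coprime, `D_b F' = D_b G * H + G * D_b H`, so `G ∣ D_b G`, of smaller degree (`G` is monic), so
`D_b G = 0`. So all coefficients `g ∈ L` of `G` satisfy `D_b g = 0` for all `b`, which implies that `g`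
is in `K`: `g = P / Q` in lowest terms, `Q * ∂_b P = P * ∂_b Q`, so `P ∣ ∂_b P`, hence `∂_b P = 0` (degree in `X_b`), and
the same for `Q`, and `P, Q` are constants (characteristic 0). So `G` comes from `K[X]`, of
positive degree, and clearing the denominators of `H` gives `a ≠ 0` with `G.map C ∣ C a * F`.
-/

namespace Pool.Agent.Helper16.TP

open Polynomial

section Lam99

variable {K : Type*} [Field K] {n : ℕ}

theorem coeff_der99 (lam : Fin n → K) (f : MvPolynomial (Fin n) K) :
    ∀ m : Fin n →₀ ℕ, (der lam f).coeff m = (∑ b, lam b * (m b : K)) * f.coeff m := by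
  refine MvPolynomial.induction_on' (P := fun f => ∀ m : Fin n →₀ ℕ,
    (der lam f).coeff m = (∑ b, lam b * (m b : K)) * f.coeff m) f ?_ ?_
  · intro u a m
    unfold der
    rw [MvPolynomial.mkDerivation_monomial, MvPolynomial.coeff_smul, Finsupp.sum,
      MvPolynomial.coeff_sum, MvPolynomial.coeff_monomial]
    have h1 : ∀ b ∈ u.support, MvPolynomial.coeff m
        (MvPolynomial.monomial (u - Finsupp.single b 1) ((u b : ℕ) : K) •
          (MvPolynomial.C (lam b) * MvPolynomial.X b)) =
        if u = m then lam b * (m b : K) else 0 := by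
      intro b hb
      have hb1 : 1 ≤ u b := Nat.one_le_iff_ne_zero.2 (Finsupp.mem_support_iff.1 hb)
      rw [smul_eq_mul, MvPolynomial.C_mul_X_eq_monomial, MvPolynomial.monomial_mul,
        MvPolynomial.coeff_monomial]
      have h2 : u - Finsupp.single b 1 + Finsupp.single b 1 = u := by
        ext c
        by_cases hc : c = b
        · subst hc
          simp
          omega
        · simp [Ne.symm hc]
      rw [h2]
      split_ifs with h3
      · subst h3
        ring
      · rfl
    rw [Finset.sum_congr rfl h1]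
    split_ifs with h3
    · subst h3
      rw [smul_eq_mul, mul_comm]
      congr 1
      refine Finset.sum_subset (Finset.subset_univ _) fun b _ hb => ?_
      rw [Finsupp.notMem_support_iff.1 hb]
      simp
    · simp
  · intro p q hp hq m
    rw [map_add, MvPolynomial.coeff_add, MvPolynomial.coeff_add, hp, hq, mul_add]

theorem coeff_der_single99 (b : Fin n) (f : MvPolynomial (Fin n) K) (m : Fin n →₀ ℕ) :
    (der (Pi.single b 1) f).coeff m = (m b : K) * f.coeff m := by
  rw [coeff_der99, Finset.sum_eq_single b]
  · simp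
  · intro c _ hc
    simp [hc]
  · simp

theorem der_add99 (lam mu : Fin n → K) (f : MvPolynomial (Fin n) K) :
    der (lam + mu) f = der lam f + der mu f := by
  ext m
  rw [MvPolynomial.coeff_add, coeff_der99, coeff_der99, coeff_der99, ← add_mul,
    ← Finset.sum_add_distrib]
  simp only [Pi.add_apply, add_mul]

theorem der_smul99 (c : K) (lam : Fin n → K) (f : MvPolynomial (Fin n) K) :
    der (c • lam) f = MvPolynomial.C c * der lam f := by
  ext m
  rw [MvPolynomial.coeff_C_mul, coeff_der99, coeff_der99, ← mul_assoc, Finset.mul_sum]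
  simp only [Pi.smul_apply, smul_eq_mul, mul_assoc]

theorem der_zero99 (f : MvPolynomial (Fin n) K) : der (0 : Fin n → K) f = 0 := by
  ext m
  rw [coeff_der99]
  simp

/-- A polynomial dividing all its derivatives `X_b ∂_b` is a monomial. -/
theorem eq_monomial99 [CharZero K] {P : MvPolynomial (Fin n) K} (hP : P ≠ 0)
    (h : ∀ b, P ∣ der (Pi.single b 1) P) : ∃ m c, c ≠ 0 ∧ P = MvPolynomial.monomial m c := by
  have h1 : ∀ b, ∃ s : K, ∀ m ∈ P.support, (m b : K) = s := by
    intro b
    obtain ⟨S, hS⟩ := h b
    have h2 : ∃ s : K, S = MvPolynomial.C s := by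
      by_cases hS0 : S = 0
      · exact ⟨0, by rw [hS0, map_zero]⟩
      · have h3 : (P * S).totalDegree ≤ P.totalDegree := by
          rw [← hS]
          refine MvPolynomial.totalDegree_le_of_support_subset fun m hm => ?_
          rw [MvPolynomial.mem_support_iff] at hm ⊢
          intro h0
          apply hm
          rw [coeff_der_single99, h0, mul_zero]
        rw [MvPolynomial.totalDegree_mul_of_isDomain hP hS0] at h3
        exact ⟨_, MvPolynomial.totalDegree_eq_zero_iff_eq_C.1 (by omega)⟩
    obtain ⟨s, rfl⟩ := h2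
    refine ⟨s, fun m hm => ?_⟩
    have h3 := congrArg (MvPolynomial.coeff m) hS
    rw [coeff_der_single99, mul_comm P, MvPolynomial.coeff_C_mul] at h3
    exact mul_right_cancel₀ (MvPolynomial.mem_support_iff.1 hm) h3
  obtain ⟨m0, hm0⟩ : P.support.Nonempty := MvPolynomial.support_nonempty.2 hP
  refine ⟨m0, P.coeff m0, MvPolynomial.mem_support_iff.1 hm0, ?_⟩
  ext m
  rw [MvPolynomial.coeff_monomial]
  split_ifs with hm
  · rw [hm]
  · by_contra hne
    apply hm
    ext b
    obtain ⟨s, hs⟩ := h1 b
    have h3 : ((m0 b : ℕ) : K) = (m b : ℕ) := by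
      rw [hs m0 hm0, hs m (MvPolynomial.mem_support_iff.2 hne)]
    exact_mod_cast h3

variable {L : Type*} [Field L] [Algebra (MvPolynomial (Fin n) K) L]
  [IsFractionRing (MvPolynomial (Fin n) K) L]

/-- The constants of the derivations are the elements of `K`. -/
theorem const99 [CharZero K] (D : Fin n → Derivation ℤ L L)
    (hD : ∀ b a, D b (algebraMap (MvPolynomial (Fin n) K) L a) =
      algebraMap _ L (der (Pi.single b 1) a)) (g : L) (hg : ∀ b, D b g = 0) :
    ∃ c : K, algebraMap (MvPolynomial (Fin n) K) L (MvPolynomial.C c) = g := by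
  obtain ⟨P, Q, hPQ, hx⟩ := IsFractionRing.exists_reduced_fraction (MvPolynomial (Fin n) K) g
  have hQ0 : (Q : MvPolynomial (Fin n) K) ≠ 0 := nonZeroDivisors.ne_zero Q.2
  have hinj : Function.Injective (algebraMap (MvPolynomial (Fin n) K) L) :=
    IsFractionRing.injective _ _
  have hgQ : g * algebraMap _ L (Q : MvPolynomial (Fin n) K) = algebraMap _ L P := by
    rw [← hx, IsLocalization.mk'_spec]
  by_cases hP0 : P = 0
  · refine ⟨0, ?_⟩
    rw [hP0, map_zero] at hgQ
    rcases mul_eq_zero.1 hgQ with h | h
    · rw [h, map_zero, map_zero]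
    · exact absurd (hinj (h.trans (map_zero _).symm)) hQ0
  have key : ∀ b, P * der (Pi.single b 1) (Q : MvPolynomial (Fin n) K) =
      der (Pi.single b 1) P * Q := by
    intro b
    apply hinj
    have h1 := congrArg (D b) hgQ
    rw [Derivation.leibniz, hg b, hD, hD, smul_zero, add_zero, smul_eq_mul] at h1
    rw [map_mul, map_mul, ← hgQ, ← h1]
    ring
  obtain ⟨m, c, hc, hPm⟩ := eq_monomial99 hP0 fun b =>
    hPQ.dvd_of_dvd_mul_right (Dvd.intro _ (key b))
  obtain ⟨m', c', hc', hQm⟩ := eq_monomial99 hQ0 fun b =>
    hPQ.symm.dvd_of_dvd_mul_left (Dvd.intro_left _ (key b).symm)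
  have hmm : m = m' := by
    ext b
    have h1 := congrArg (MvPolynomial.coeff (m + m')) (key b)
    have e1 : der (Pi.single b 1) P = MvPolynomial.monomial m ((m b : K) * c) := by
      ext k
      rw [coeff_der_single99, hPm, MvPolynomial.coeff_monomial, MvPolynomial.coeff_monomial]
      split_ifs with h
      · rw [h]
      · rw [mul_zero]
    have e2 : der (Pi.single b 1) (Q : MvPolynomial (Fin n) K) =
        MvPolynomial.monomial m' ((m' b : K) * c') := by
      ext k
      rw [coeff_der_single99, hQm, MvPolynomial.coeff_monomial, MvPolynomial.coeff_monomial]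
      split_ifs with h
      · rw [h]
      · rw [mul_zero]
    rw [e1, e2, hPm, hQm, MvPolynomial.monomial_mul, MvPolynomial.monomial_mul,
      MvPolynomial.coeff_monomial, MvPolynomial.coeff_monomial, if_pos rfl, if_pos rfl] at h1
    have h2 : ((m' b : ℕ) : K) = (m b : ℕ) := by
      have h3 : (c * c') * ((m' b : ℕ) : K) = (c * c') * ((m b : ℕ) : K) := by
        linear_combination h1
      exact mul_left_cancel₀ (mul_ne_zero hc hc') h3
    exact_mod_cast h2.symm
  refine ⟨c / c', ?_⟩
  have hQL : algebraMap _ L (Q : MvPolynomial (Fin n) K) ≠ 0 := fun h =>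
    hQ0 (hinj (h.trans (map_zero _).symm))
  apply mul_right_cancel₀ hQL
  rw [hgQ, ← map_mul]
  congr 1
  rw [hPm, hQm, MvPolynomial.C_mul_monomial, hmm, div_mul_cancel₀ _ hc']

end Lam99

section Main99

variable {K : Type*} [Field K] {n : ℕ}

theorem mapD_natDegree99 {A B : Type*} [Semiring A] [Semiring B] (d : A → B) (F : A[X]) :
    (mapD d F).natDegree ≤ F.natDegree := by
  unfold mapD
  refine natDegree_sum_le_of_forall_le _ _ fun i hi => ?_
  exact (natDegree_monomial_le _).trans (Nat.lt_succ_iff.1 (Finset.mem_range.1 hi))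

/-- the coefficientwise derivation of a product -/
theorem mapD_mul99 {L : Type*} [Field L] (D : Derivation ℤ L L) (G H : L[X]) :
    mapD D (G * H) = mapD D G * H + G * mapD D H := by
  ext k
  rw [coeff_mapD D (map_zero D), coeff_add, coeff_mul, coeff_mul, coeff_mul, map_sum,
    ← Finset.sum_add_distrib]
  refine Finset.sum_congr rfl fun x _ => ?_
  rw [coeff_mapD D (map_zero D), coeff_mapD D (map_zero D), Derivation.leibniz, smul_eq_mul,
    smul_eq_mul]
  ring

theorem exists_lam_aux99 {K : Type*} [Field K] [CharZero K] {n r : ℕ}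
    (L : Type*) [Field L] [Algebra (MvPolynomial (Fin n) K) L]
    [IsFractionRing (MvPolynomial (Fin n) K) L] (hr : 1 ≤ r)
    (F : (MvPolynomial (Fin n) K)[X]) (hdeg : F.natDegree = r) (hres : rd r F ≠ 0)
    (hG : ∀ G : K[X], 0 < G.natDegree → ∀ a : MvPolynomial (Fin n) K, a ≠ 0 →
      ¬ (G.map MvPolynomial.C ∣ C a * F)) :
    ∃ lam : Fin n → K, resultant F (mapD (der lam) F) r r ≠ 0 := by
  classical
  by_contra hcon
  push Not at hcon
  let φ : MvPolynomial (Fin n) K →+* L := algebraMap _ L
  have hφ : φ = algebraMap (MvPolynomial (Fin n) K) L := rfl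
  have hinj : Function.Injective φ := IsFractionRing.injective _ _
  have hF'deg : (F.map φ).natDegree = r := by rw [natDegree_map_eq_of_injective hinj, hdeg]
  have hF'0 : F.map φ ≠ 0 := by
    intro h
    rw [h, natDegree_zero] at hF'deg
    omega
  have hlc : (F.map φ).coeff r ≠ 0 := by
    rw [← hF'deg]
    exact leadingCoeff_ne_zero.2 hF'0
  -- the coefficients
  have hMc : ∀ lam i, ((mapD (der lam) F).map φ).coeff i = φ (der lam (F.coeff i)) := by
    intro lam i
    rw [coeff_map, coeff_mapD _ (map_zero _)]
  -- separability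
  have hsep : IsCoprime (F.map φ) (derivative (F.map φ)) := by
    have h1 : resultant (F.map φ) (derivative (F.map φ)) r (r - 1) ≠ 0 := by
      rw [derivative_map, resultant_map_map]
      exact fun h => hres (hinj (h.trans (map_zero φ).symm))
    have h2 : (derivative (F.map φ)).natDegree = r - 1 := by
      have : CharZero L := charZero_of_injective_ringHom
        (f := φ.comp MvPolynomial.C) (hinj.comp (MvPolynomial.C_injective _ _))
      rw [← hF'deg]
      exact natDegree_eq_of_degree_eq_some (degree_derivative (by omega))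
    by_contra h3
    apply h1
    have h4 := resultant_eq_zero_iff.2 ⟨Or.inl hF'0, h3⟩
    rwa [hF'deg, h2] at h4
  -- common factors
  have hcommon : ∀ lam, ∃ p, Irreducible p ∧ p ∣ F.map φ ∧ p ∣ (mapD (der lam) F).map φ := by
    intro lam
    have h1 : resultant (F.map φ) ((mapD (der lam) F).map φ) r r = 0 := by
      rw [resultant_map_map, hcon lam, map_zero]
    have hle : ((mapD (der lam) F).map φ).natDegree ≤ r := by
      rw [natDegree_map_eq_of_injective hinj, ← hdeg]
      exact mapD_natDegree99 _ _
    obtain ⟨k, hk⟩ := Nat.exists_eq_add_of_le hle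
    have h2 : resultant (F.map φ) ((mapD (der lam) F).map φ) = 0 := by
      have h3 := resultant_add_right_deg (F.map φ) ((mapD (der lam) F).map φ) r
        ((mapD (der lam) F).map φ).natDegree k le_rfl
      rw [← hk, h1] at h3
      rw [hF'deg]
      rcases mul_eq_zero.1 h3.symm with h4 | h4
      · exact absurd h4 (pow_ne_zero _ hlc)
      · exact h4
    have h5 := (resultant_eq_zero_iff.1 h2).2
    by_contra h6
    push Not at h6
    exact h5 (isCoprime_of_irreducible_dvd (fun h => hF'0 h.1) fun z hz hz1 => h6 z hz hz1)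
  -- the subspaces
  let V : {q // q ∈ (UniqueFactorizationMonoid.normalizedFactors (F.map φ)).toFinset} →
      Submodule K (Fin n → K) := fun q =>
    { carrier := {lam | q.1 ∣ (mapD (der lam) F).map φ}
      add_mem' := by
        intro a b ha hb
        have h1 : (mapD (der (a + b)) F).map φ =
            (mapD (der a) F).map φ + (mapD (der b) F).map φ := by
          ext i
          rw [coeff_add, hMc, hMc, hMc, der_add99, map_add]
        simp only [Set.mem_ofPred_eq, h1]
        exact dvd_add ha hb
      zero_mem' := by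
        have h1 : (mapD (der (0 : Fin n → K)) F).map φ = 0 := by
          ext i
          rw [coeff_zero, hMc, der_zero99, map_zero]
        simp only [Set.mem_ofPred_eq, h1]
        exact dvd_zero _
      smul_mem' := by
        intro c a ha
        have h1 : (mapD (der (c • a)) F).map φ =
            C (φ (MvPolynomial.C c)) * (mapD (der a) F).map φ := by
          ext i
          rw [coeff_C_mul, hMc, hMc, der_smul99, map_mul]
        simp only [Set.mem_ofPred_eq, h1]
        exact Dvd.dvd.mul_left ha _ }
  have hcov : ⋃ q, (V q : Set (Fin n → K)) = Set.univ := by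
    refine Set.eq_univ_of_forall fun lam => ?_
    obtain ⟨p, hp, hp1, hp2⟩ := hcommon lam
    obtain ⟨q, hq, hpq⟩ :=
      UniqueFactorizationMonoid.exists_mem_normalizedFactors_of_dvd hF'0 hp hp1
    exact Set.mem_iUnion.2 ⟨⟨q, Multiset.mem_toFinset.2 hq⟩, (hpq.dvd_iff_dvd_left.1 hp2 :)⟩
  obtain ⟨⟨G, hGm⟩, hGtop⟩ := Subspace.exists_eq_top_of_iUnion_eq_univ hcov
  rw [Multiset.mem_toFinset] at hGm
  have hGirr : Irreducible G := UniqueFactorizationMonoid.irreducible_of_normalized_factor _ hGm
  have hGdvd : G ∣ F.map φ := UniqueFactorizationMonoid.dvd_of_mem_normalizedFactors hGm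
  have hGmonic : G.Monic := by
    have h1 := UniqueFactorizationMonoid.normalize_normalized_factor G hGm
    rw [← h1]
    exact monic_normalize hGirr.ne_zero
  have hGall : ∀ lam, G ∣ (mapD (der lam) F).map φ := by
    intro lam
    have h1 : lam ∈ V ⟨G, Multiset.mem_toFinset.2 hGm⟩ := by
      have h2 : V ⟨G, Multiset.mem_toFinset.2 hGm⟩ = ⊤ := hGtop
      rw [h2]
      trivial
    exact h1
  obtain ⟨H, hH⟩ := hGdvd
  have hnotH : ¬ G ∣ H := by
    rintro ⟨H', rfl⟩
    have h1 : G ∣ derivative (F.map φ) := by
      rw [hH, derivative_mul]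
      exact dvd_add (dvd_mul_of_dvd_right (dvd_mul_right _ _) _) (dvd_mul_right _ _)
    exact hGirr.not_isUnit (hsep.isUnit_of_dvd' (hH ▸ dvd_mul_right _ _) h1)
  -- the derivations of L
  have hD : ∀ b : Fin n, ∃ D : Derivation ℤ L L, ∀ a, D (φ a) = φ (der (Pi.single b 1) a) := by
    intro b
    obtain ⟨D, hD⟩ := exists_frac_der (A := MvPolynomial (Fin n) K) (L := L)
      ((der (Pi.single b (1 : K))).restrictScalars ℤ)
    exact ⟨D, fun a => hD a⟩
  choose D hD using hD
  have hDG : ∀ b, mapD (D b) G = 0 := by
    intro b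
    have h1 : mapD (D b) (F.map φ) = (mapD (der (Pi.single b 1)) F).map φ := by
      ext i
      rw [hMc, coeff_mapD _ (map_zero _), coeff_map, hD]
    have h2 : G ∣ mapD (D b) (G * H) := by
      rw [← hH, h1]
      exact hGall _
    rw [mapD_mul99, dvd_add_left (dvd_mul_right _ _)] at h2
    rcases hGirr.prime.dvd_or_dvd h2 with h3 | h3
    · by_contra h4
      have h5 := natDegree_le_of_dvd h3 h4
      have h6 : (mapD (D b) G).natDegree < G.natDegree := by
        have hGpos : 0 < G.natDegree := hGirr.natDegree_pos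
        rw [natDegree_lt_iff_degree_lt h4]
        rw [degree_lt_iff_coeff_zero]
        intro m hm
        rw [coeff_mapD _ (map_zero _)]
        rcases hm.lt_or_eq with h7 | h7
        · rw [coeff_eq_zero_of_natDegree_lt h7, map_zero]
        · rw [← h7, coeff_natDegree, hGmonic.leadingCoeff, Derivation.map_one_eq_zero]
      omega
    · exact absurd h3 hnotH
  -- the coefficients of G are constants
  have hGc : ∀ i, ∃ c : K, φ (MvPolynomial.C c) = G.coeff i := by
    intro i
    refine const99 D hD (G.coeff i) fun b => ?_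
    rw [← coeff_mapD (D b) (map_zero _), hDG b, coeff_zero]
  obtain ⟨G0, hG0⟩ : ∃ G0 : K[X], G0.map (φ.comp MvPolynomial.C) = G := by
    rw [← mem_lifts, lifts_iff_coeff_lifts]
    intro i
    obtain ⟨c, hc⟩ := hGc i
    exact ⟨c, hc⟩
  have hG0deg : 0 < G0.natDegree := by
    rw [← natDegree_map_eq_of_injective (f := φ.comp MvPolynomial.C)
      (hinj.comp (MvPolynomial.C_injective _ _)), hG0]
    exact hGirr.natDegree_pos
  -- clear denominators
  obtain ⟨a, ha, hH0⟩ := IsLocalization.integerNormalization_spec
    (nonZeroDivisors (MvPolynomial (Fin n) K)) H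
  refine hG G0 hG0deg a (nonZeroDivisors.ne_zero ha) ⟨IsLocalization.integerNormalization
    (nonZeroDivisors (MvPolynomial (Fin n) K)) H, ?_⟩
  apply map_injective φ hinj
  rw [Polynomial.map_mul, Polynomial.map_mul, hH0, Polynomial.map_map, hG0, hH, map_C]
  have hsm : a • H = C (φ a) * H := by
    ext i
    rw [coeff_smul, coeff_C_mul, Algebra.smul_def]
  rw [hsm]
  ring

theorem exists_lam {K : Type*} [Field K] [CharZero K] {n r : ℕ} (hr : 1 ≤ r)
    (F : (MvPolynomial (Fin n) K)[X]) (hdeg : F.natDegree = r) (hres : rd r F ≠ 0)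
    (hG : ∀ G : K[X], 0 < G.natDegree → ∀ a : MvPolynomial (Fin n) K, a ≠ 0 →
      ¬ (G.map MvPolynomial.C ∣ C a * F)) :
    ∃ lam : Fin n → K, resultant F (mapD (der lam) F) r r ≠ 0 :=
  exists_lam_aux99 (FractionRing (MvPolynomial (Fin n) K)) hr F hdeg hres hG

end Main99

end Pool.Agent.Helper16.TP
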