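import Pool.Agent.Helper16.TP.Poly
import Pool.Agent.Helper16.TP.FF
import Pool.Agent.Helper16.TP.Lam

/-!
# Block TP-KP: the inequality for the values of a polynomial family

PROOF. `lam` from `exists_lam`, `Φ = resultant F (mapD (der lam) F) r r ≠ 0`, `R = rd r F * ∏ x ∈ p, F.eval (C x) ≠ 0`,
`q = p.card`. Write `F_i = F.map (eval (e · i))`. The claim is a sum over `v` (infinite or in `T`) of
`(q - 1) log |F_i|_v - log |R(e_i)|_v` (`resultant_map_map`, `eval_map`; `nv` is multiplicative; all values are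
`≠ 0` almost everywhere by `li`). For every `v` there is an index `s` (depending on `v`), `s ≤ r`, such that
almost everywhere `|F_i|_v = |coefficient s of F_i|_v` (ultrafilter, finitely many `s`), and `F.coeff s ≠ 0`. By
`ff_real` and `place_le` (with `P = Φ * F.coeff s ^ (q - 1)`, `Q = R`)
`log |Φ(e_i)|_v + (q - 1) log |F_i|_v ≤ log |R(e_i)|_v + δ' t`. Sum over `v`, with `prod_ge` for `Φ`
(`C ≤ δ' t` eventually).
-/

namespace Pool.Agent.Helper16.TP

open NumberField Finset Filter Polynomial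
open Pool.Agent.Helper64.Vojta (Pl nv sn)
open Pool.Agent.Helper26.DMC (SUnit)
open Pool.Agent.Helper61.AD (cf)
open Pool.Agent.V2 (vn vH)

/-- The value of `R = rd r F * ∏ F (x)` at `e_i`. -/
theorem kp_value {K : Type*} [Field K] [NumberField K] {n r : ℕ} (g : Fin n → K)
    (F : (MvPolynomial (Fin n) K)[X]) (p : Finset K) (v : Pl K)
    (hne : MvPolynomial.eval g (rd r F * ∏ x ∈ p, F.eval (MvPolynomial.C x)) ≠ 0) :
    Real.log (nv v (rd r (F.map (MvPolynomial.eval g)))) +
      ∑ x ∈ p, Real.log (nv v ((F.map (MvPolynomial.eval g)).eval x)) =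
    Real.log (nv v (MvPolynomial.eval g (rd r F * ∏ x ∈ p, F.eval (MvPolynomial.C x)))) := by
  have h1 : rd r (F.map (MvPolynomial.eval g)) = MvPolynomial.eval g (rd r F) := by
    unfold rd
    rw [derivative_map, resultant_map_map]
  have h2 : ∀ x : K, (F.map (MvPolynomial.eval g)).eval x =
      MvPolynomial.eval g (F.eval (MvPolynomial.C x)) := by
    intro x
    have h3 := Polynomial.eval_map_apply (f := MvPolynomial.eval g) (p := F) (MvPolynomial.C x)
    rw [MvPolynomial.eval_C] at h3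
    exact h3
  rw [map_mul, map_prod] at hne
  have h4 := left_ne_zero_of_mul hne
  have h5 := right_ne_zero_of_mul hne
  rw [Finset.prod_ne_zero_iff] at h5
  rw [map_mul, map_prod, Pool.Agent.Helper64.Vojta.nv_mul, Real.log_mul
    (Pool.Agent.Helper64.Vojta.nv_pos v h4).ne'
    (Pool.Agent.Helper64.Vojta.nv_pos v (Finset.prod_ne_zero_iff.mpr h5)).ne', h1]
  congr 1
  have h6 : nv v (∏ x ∈ p, MvPolynomial.eval g (F.eval (MvPolynomial.C x))) =
      ∏ x ∈ p, nv v (MvPolynomial.eval g (F.eval (MvPolynomial.C x))) := by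
    clear hne h4 h5
    classical
    induction p using Finset.induction_on with
    | empty => simp [Pool.Agent.Helper64.Vojta.nv_one]
    | insert a s ha ih =>
      rw [Finset.prod_insert ha, Finset.prod_insert ha, Pool.Agent.Helper64.Vojta.nv_mul, ih]
  rw [h6, Real.log_prod (fun x hx => (Pool.Agent.Helper64.Vojta.nv_pos v (h5 x hx)).ne')]
  refine Finset.sum_congr rfl fun x _ => ?_
  rw [h2]

theorem log_nv_pow {K : Type*} [Field K] [NumberField K] (v : Pl K) (y : K) (k : ℕ) :
    Real.log (nv v (y ^ k)) = k * Real.log (nv v y) := by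
  have h6 : nv v (y ^ k) = nv v y ^ k := by
    induction k with
    | zero => simp [Pool.Agent.Helper64.Vojta.nv_one]
    | succ k ih => rw [pow_succ, pow_succ, Pool.Agent.Helper64.Vojta.nv_mul, ih]
  rw [h6, Real.log_pow]

theorem kp_place {K : Type*} [Field K] [NumberField K] (U : Ultrafilter ℕ)
    (T : Finset (FinitePlace K)) {n r : ℕ} (hr : 1 ≤ r) (e : Fin n → ℕ → K)
    (he : ∀ b, SUnit U T (e b)) (hmi : MI U e) (F : (MvPolynomial (Fin n) K)[X])
    (hdeg : F.natDegree = r) (hres : rd r F ≠ 0) (p : Finset K) (hp : p.Nonempty)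
    (hpF : ∀ x ∈ p, F.eval (MvPolynomial.C x) ≠ 0) (lam : Fin n → K)
    (hlam : resultant F (mapD (der lam) F) r r ≠ 0)
    (t : ℕ → ℝ) (ht : Tendsto t (U : Filter ℕ) atTop) (B : ℝ)
    (hB : ∀ b v, ∀ᶠ i in (U : Filter ℕ), |Real.log (nv v (e b i))| ≤ B * t i) (v : Pl K) (δ : ℝ)
    (hδ : 0 < δ) :
    ∀ᶠ i in (U : Filter ℕ),
      ((p.card : ℝ) - 1) * Real.log (vn v (cf r (F.map (MvPolynomial.eval fun b => e b i)))) -
        Real.log (nv v (rd r (F.map (MvPolynomial.eval fun b => e b i)))) -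
        ∑ x ∈ p, Real.log (nv v ((F.map (MvPolynomial.eval fun b => e b i)).eval x)) ≤
      δ * t i - Real.log (nv v (MvPolynomial.eval (fun b => e b i)
        (resultant F (mapD (der lam) F) r r))) := by
  have hR : rd r F * ∏ x ∈ p, F.eval (MvPolynomial.C x) ≠ 0 :=
    mul_ne_zero hres (Finset.prod_ne_zero_iff.mpr hpF)
  have hF0 : F ≠ 0 := by
    rintro rfl
    simp at hdeg
    omega
  have hcr : F.coeff r ≠ 0 := by
    rw [← hdeg]
    exact leadingCoeff_ne_zero.mpr hF0
  -- choice of the index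
  have hs : ∀ i, ∃ s : Fin (r + 1),
      vn v (cf r (F.map (MvPolynomial.eval fun b => e b i))) =
        nv v (cf r (F.map (MvPolynomial.eval fun b => e b i)) s) := by
    intro i
    obtain ⟨s, hs⟩ := exists_eq_ciSup_of_finite
      (f := fun s : Fin (r + 1) => nv v (cf r (F.map (MvPolynomial.eval fun b => e b i)) s))
    exact ⟨s, hs.symm⟩
  choose g hg using hs
  obtain ⟨s, hs⟩ := Pool.Agent.Helper26.DMC.SU1.ult_finite U (Set.univ : Set (Fin (r + 1)))
    Set.finite_univ g (Eventually.of_forall fun _ => Set.mem_univ _)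
  have hcs : F.coeff s ≠ 0 := by
    intro h0
    obtain ⟨i, hi1, hi2⟩ := (hs.and (li U T e he hmi (F.coeff r) hcr)).exists
    have h1 := hg i
    rw [hi1] at h1
    have h2 : cf r (F.map (MvPolynomial.eval fun b => e b i)) s = 0 := by
      simp [cf, coeff_map, h0]
    rw [h2, Pool.Agent.Helper64.Vojta.nv_zero] at h1
    have h3 : nv v (cf r (F.map (MvPolynomial.eval fun b => e b i)) (Fin.last r)) ≤
        vn v (cf r (F.map (MvPolynomial.eval fun b => e b i))) :=
      le_ciSup (f := fun s : Fin (r + 1) =>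
        nv v (cf r (F.map (MvPolynomial.eval fun b => e b i)) s))
        (Set.finite_range _).bddAbove (Fin.last r)
    have h4 : 0 < nv v (cf r (F.map (MvPolynomial.eval fun b => e b i)) (Fin.last r)) := by
      apply Pool.Agent.Helper64.Vojta.nv_pos
      simpa [cf, coeff_map] using hi2
    rw [h1] at h3
    exact absurd h3 (not_le.mpr h4)
  have hP : resultant F (mapD (der lam) F) r r * F.coeff s ^ (p.card - 1) ≠ 0 :=
    mul_ne_zero hlam (pow_ne_zero _ hcs)
  have hmain := place_le U T e he hmi _ _ hP hR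
    (fun a => ff_real hr F hdeg p hp lam s a) t ht B hB v δ hδ
  filter_upwards [hmain, hs, li U T e he hmi _ hP, li U T e he hmi _ hR] with i h1 h2 h3 h4
  have h5 := kp_value (fun b => e b i) F p v h4
  rw [map_mul] at h3
  rw [map_mul, map_pow, Pool.Agent.Helper64.Vojta.nv_mul, Real.log_mul
    (Pool.Agent.Helper64.Vojta.nv_pos v (left_ne_zero_of_mul h3)).ne'
    (Pool.Agent.Helper64.Vojta.nv_pos v (by
      have := right_ne_zero_of_mul h3
      rwa [map_pow] at this)).ne', log_nv_pow, ← h5] at h1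
  rw [hg i, h2]
  have h6 : ((p.card - 1 : ℕ) : ℝ) = (p.card : ℝ) - 1 := by
    rw [Nat.cast_sub (Finset.card_pos.mpr hp)]
    simp
  rw [h6] at h1
  have h7 : cf r (F.map (MvPolynomial.eval fun b => e b i)) s =
      MvPolynomial.eval (fun b => e b i) (F.coeff s) := by
    simp [cf, coeff_map]
  rw [h7]
  linarith

theorem lsum_le_sub {K : Type*} [Field K] [NumberField K] (T : Finset (FinitePlace K))
    (f g : Pl K → ℝ) (c : ℝ) (h1 : ∀ w : InfinitePlace K, f (.inl w) ≤ c - g (.inl w))
    (h2 : ∀ w ∈ T, f (.inr w) ≤ c - g (.inr w)) :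
    lsum T f ≤ ((Fintype.card (InfinitePlace K) : ℝ) + T.card) * c - lsum T g := by
  unfold lsum
  have h7 := Finset.sum_le_sum (s := Finset.univ) fun w (_ : w ∈ Finset.univ) => h1 w
  have h8 := Finset.sum_le_sum (s := T) h2
  rw [Finset.sum_sub_distrib, Finset.sum_const, nsmul_eq_mul] at h7 h8
  rw [Finset.card_univ] at h7
  linarith

theorem kpoly {K : Type*} [Field K] [NumberField K] (U : Ultrafilter ℕ)
    (T : Finset (FinitePlace K)) {n r : ℕ} (hr : 1 ≤ r) (e : Fin n → ℕ → K)
    (he : ∀ b, SUnit U T (e b)) (hmi : MI U e) (F : (MvPolynomial (Fin n) K)[X])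
    (hdeg : F.natDegree = r) (hres : rd r F ≠ 0) (p : Finset K) (hp : p.Nonempty)
    (hpF : ∀ x ∈ p, F.eval (MvPolynomial.C x) ≠ 0)
    (hG : ∀ G : K[X], 0 < G.natDegree → ∀ a : MvPolynomial (Fin n) K, a ≠ 0 →
      ¬ (G.map MvPolynomial.C ∣ C a * F))
    (t : ℕ → ℝ) (ht : Tendsto t (U : Filter ℕ) atTop) (B : ℝ)
    (hB : ∀ b v, ∀ᶠ i in (U : Filter ℕ), |Real.log (nv v (e b i))| ≤ B * t i) (δ : ℝ)
    (hδ : 0 < δ) :
    ∀ᶠ i in (U : Filter ℕ), (lsum T fun v =>
      ((p.card : ℝ) - 1) * Real.log (vn v (cf r (F.map (MvPolynomial.eval fun b => e b i)))) -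
        Real.log (nv v (rd r (F.map (MvPolynomial.eval fun b => e b i)))) -
        ∑ x ∈ p, Real.log (nv v ((F.map (MvPolynomial.eval fun b => e b i)).eval x))) ≤
      δ * t i := by
  obtain ⟨lam, hlam⟩ := exists_lam hr F hdeg hres hG
  obtain ⟨C0, hC0⟩ := prod_ge U T e he (resultant F (mapD (der lam) F) r r)
  set N : ℝ := (Fintype.card (InfinitePlace K) : ℝ) + T.card with hN
  have hN0 : 0 ≤ N := by positivity
  set δ' : ℝ := δ / (N + 1) with hδ'
  have hδ'0 : 0 < δ' := by positivity
  have hpl := fun v => kp_place U T hr e he hmi F hdeg hres p hp hpF lam hlam t ht B hB v δ' hδ'0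
  have h1 : ∀ᶠ i in (U : Filter ℕ), ∀ w : InfinitePlace K,
      ((p.card : ℝ) - 1) * Real.log (vn (.inl w) (cf r (F.map (MvPolynomial.eval fun b => e b i)))) -
        Real.log (nv (.inl w) (rd r (F.map (MvPolynomial.eval fun b => e b i)))) -
        ∑ x ∈ p, Real.log (nv (.inl w) ((F.map (MvPolynomial.eval fun b => e b i)).eval x)) ≤
      δ' * t i - Real.log (nv (.inl w) (MvPolynomial.eval (fun b => e b i)
        (resultant F (mapD (der lam) F) r r))) :=
    Filter.eventually_all.mpr fun w => hpl (.inl w)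
  have h2 : ∀ᶠ i in (U : Filter ℕ), ∀ w ∈ T,
      ((p.card : ℝ) - 1) * Real.log (vn (.inr w) (cf r (F.map (MvPolynomial.eval fun b => e b i)))) -
        Real.log (nv (.inr w) (rd r (F.map (MvPolynomial.eval fun b => e b i)))) -
        ∑ x ∈ p, Real.log (nv (.inr w) ((F.map (MvPolynomial.eval fun b => e b i)).eval x)) ≤
      δ' * t i - Real.log (nv (.inr w) (MvPolynomial.eval (fun b => e b i)
        (resultant F (mapD (der lam) F) r r))) :=
    (Filter.eventually_all_finset T).mpr fun w _ => hpl (.inr w)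
  have h3 : ∀ᶠ i in (U : Filter ℕ), C0 / δ' ≤ t i := ht.eventually_ge_atTop _
  filter_upwards [h1, h2, h3, hC0, li U T e he hmi _ hlam] with i h1 h2 h3 h4 h5
  have h6 := h4 h5
  have h7 := lsum_le_sub T (fun v =>
      ((p.card : ℝ) - 1) * Real.log (vn v (cf r (F.map (MvPolynomial.eval fun b => e b i)))) -
        Real.log (nv v (rd r (F.map (MvPolynomial.eval fun b => e b i)))) -
        ∑ x ∈ p, Real.log (nv v ((F.map (MvPolynomial.eval fun b => e b i)).eval x)))
    (fun v => Real.log (nv v (MvPolynomial.eval (fun b => e b i)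
        (resultant F (mapD (der lam) F) r r)))) (δ' * t i) h1 h2
  have h9 : C0 ≤ δ' * t i := by
    rw [div_le_iff₀ hδ'0] at h3
    linarith
  have h10 : δ * t i = N * (δ' * t i) + δ' * t i := by
    have : δ = N * δ' + δ' := by
      rw [hδ']
      field_simp
    rw [this]
    ring
  rw [h10, hN]
  refine h7.trans ?_
  linarith

end Pool.Agent.Helper16.TP
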