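import Pool.Agent.Helper16.TP.KPoly
import Pool.Agent.Helper16.TP.Units

/-!
# Block TP-KS: the inequality for a sequence of combinations of units

PROOF. `units` applied to `ρ` (`J = Fin m`): `n, χ, a (= m there), c`; `e_b = ∏ ρ_κ ^ χ b κ` are `SUnit`s with
`|log |e_b|_v| ≤ B t`, `B = ∑ |χ b κ|`, and `ρ_κ = c_κ e ^ a_κ`. Choose `M : ℕ` with `a_κ b + M ≥ 0` for all
`κ, b`. Put `𝓕 = ∑ κ, C (monomial (a_κ + M) c_κ) * (H κ).map MvPolynomial.C`. Then with `u_i = ∏ e_b ^ M`
`𝓕.map (eval (e · i)) = C (u_i) * F i` almost everywhere, and `u_i` is a unit outside `T`, so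
`lsum T (log nv v (u_i)) = 0` (product formula `Pool.Agent.V2.gsum_nv`).
* `𝓕.natDegree = r`: `natDegree ≤ r` clear (`hHr`), and the coefficient of `X ^ r` is `≠ 0` because its value at `e_i`
  is the leading coefficient of `C u_i * F i`, of degree `r`.
* `rd r 𝓕 ≠ 0`, `𝓕.eval (C x) ≠ 0`: evaluate at `e_i` (`resultant_map_map`; `resultant_C_mul_left`, ...).
* `hG`: if `G.map C ∣ C a * 𝓕`, evaluate at `e_i` with `a(e_i) ≠ 0` (`li`): `G ∣ F i` almost everywhere, a
  contradiction.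
Apply `kpoly` and rewrite the values for `C u_i * F i`: `log vn (cf r (C u * F)) = log |u| + ..`, `rd r (C u * F) =
u ^ (2 r - 1) * rd r F` (`resultant_C_mul_left`, `resultant_C_mul_right`, `derivative_C_mul`), `eval = u * ..`: the total
coefficient of `log |u_i|_v` is `(q-1) - (2r-1) - q = -2r`, and `lsum T (log nv v u_i) = 0`.
-/

namespace Pool.Agent.Helper16.TP

open NumberField Finset Filter Polynomial
open Pool.Agent.Helper64.Vojta (Pl nv sn)
open Pool.Agent.Helper26.DMC (SUnit)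
open Pool.Agent.Helper61.AD (cf)
open Pool.Agent.V2 (vn vH)

namespace H94

open Pool.Agent.Helper64.Vojta (nv_mul nv_one nv_zero nv_pos nv_nonneg nv_inv)

section nvl

variable {K : Type*} [Field K] [NumberField K]

theorem log_nv_pow (v : Pl K) (x : K) (n : ℕ) :
    Real.log (nv v (x ^ n)) = n * Real.log (nv v x) := by
  have h : nv v (x ^ n) = nv v x ^ n := by
    induction n with
    | zero => simp [nv_one]
    | succ n ih => rw [pow_succ, nv_mul, ih, pow_succ]
  rw [h, Real.log_pow]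

theorem log_nv_zpow (v : Pl K) (x : K) (n : ℤ) :
    Real.log (nv v (x ^ n)) = n * Real.log (nv v x) := by
  rcases Int.eq_nat_or_neg n with ⟨k, rfl | rfl⟩
  · rw [zpow_natCast, log_nv_pow]
    push_cast
    ring
  · rw [zpow_neg, zpow_natCast, nv_inv, Real.log_inv, log_nv_pow]
    push_cast
    ring

theorem log_nv_prod (v : Pl K) {α : Type*} (s : Finset α) (f : α → K) (hf : ∀ a ∈ s, f a ≠ 0) :
    Real.log (nv v (∏ a ∈ s, f a)) = ∑ a ∈ s, Real.log (nv v (f a)) := by
  classical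
  induction s using Finset.induction_on with
  | empty => simp [nv_one]
  | insert a s ha ih =>
    rw [Finset.prod_insert ha, Finset.sum_insert ha, nv_mul,
      Real.log_mul (nv_pos v (hf a (mem_insert_self a s))).ne'
        (nv_pos v (Finset.prod_ne_zero_iff.2 fun b hb => hf b (mem_insert_of_mem hb))).ne',
      ih fun b hb => hf b (mem_insert_of_mem hb)]

theorem log_nv_mul (v : Pl K) {x y : K} (hx : x ≠ 0) (hy : y ≠ 0) :
    Real.log (nv v (x * y)) = Real.log (nv v x) + Real.log (nv v y) := by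
  rw [nv_mul, Real.log_mul (nv_pos v hx).ne' (nv_pos v hy).ne']

theorem lsum_add (T : Finset (FinitePlace K)) (f g : Pl K → ℝ) :
    lsum T (fun v => f v + g v) = lsum T f + lsum T g := by
  unfold lsum
  simp only [sum_add_distrib]
  ring

theorem lsum_mul (T : Finset (FinitePlace K)) (c : ℝ) (f : Pl K → ℝ) :
    lsum T (fun v => c * f v) = c * lsum T f := by
  unfold lsum
  rw [← mul_sum, ← mul_sum, mul_add]

/-- the product formula for a unit outside `T` -/
theorem lsum_unit (T : Finset (FinitePlace K)) {u : K} (hu : u ≠ 0)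
    (hT : ∀ v : FinitePlace K, v ∉ T → v u = 1) : lsum T (fun v => Real.log (nv v u)) = 0 := by
  have h1 := Pool.Agent.V2.gsum_nv hu
  rw [Pool.Agent.Helper26.DMC.SU1.gsum_eq_of_S T] at h1
  · exact h1
  · intro v hv
    have h2 : nv (.inr v) u = 1 := hT v hv
    rw [h2, Real.log_one]

theorem vn_smul {r : ℕ} (v : Pl K) {u : K} (hu : u ≠ 0) {F : K[X]} (hF : F.coeff r ≠ 0) :
    Real.log (vn v (cf r (C u * F))) = Real.log (nv v u) + Real.log (vn v (cf r F)) := by
  have h1 : vn v (cf r (C u * F)) = nv v u * vn v (cf r F) := by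
    unfold vn
    rw [Real.mul_iSup_of_nonneg (nv_nonneg v u)]
    refine iSup_congr fun i => ?_
    simp only [cf, coeff_C_mul, nv_mul]
  have h2 : (cf r F) ≠ 0 := by
    intro h
    have := congrFun h (Fin.last r)
    simp only [cf, Fin.val_last, Pi.zero_apply] at this
    exact hF this
  rw [h1, Real.log_mul (nv_pos v hu).ne' (Pool.Agent.V2.vn_pos v h2).ne']

end nvl

theorem rd_C_mul {A : Type*} [CommRing A] {r : ℕ} (hr : 1 ≤ r) (u : A) (F : A[X]) :
    rd r (C u * F) = u ^ (2 * r - 1) * rd r F := by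
  unfold rd
  rw [derivative_C_mul, resultant_C_mul_left, resultant_C_mul_right, ← mul_assoc, ← pow_add]
  congr 2
  omega

theorem rd_map {A B : Type*} [CommRing A] [CommRing B] (φ : A →+* B) (r : ℕ) (F : A[X]) :
    rd r (F.map φ) = φ (rd r F) := by
  unfold rd
  rw [derivative_map, resultant_map_map]

/-- the exponents -/
noncomputable def ex {n : ℕ} (M : ℕ) (a : Fin n → ℤ) : Fin n →₀ ℕ :=
  Finsupp.equivFunOnFinite.symm fun b => (a b + M).toNat

/-- the polynomial family -/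
noncomputable def fam {K : Type*} [Field K] {n m : ℕ} (M : ℕ) (a : Fin m → Fin n → ℤ)
    (c : Fin m → K) (H : Fin m → K[X]) : (MvPolynomial (Fin n) K)[X] :=
  ∑ κ, C (MvPolynomial.monomial (ex M (a κ)) (c κ)) * (H κ).map MvPolynomial.C

theorem fam_map {K : Type*} [Field K] {n m : ℕ} (M : ℕ) (a : Fin m → Fin n → ℤ)
    (hM : ∀ κ b, 0 ≤ a κ b + M) (c : Fin m → K) (H : Fin m → K[X]) (x : Fin n → K)
    (hx : ∀ b, x b ≠ 0) :
    (fam M a c H).map (MvPolynomial.eval x) =
      C (∏ b, x b ^ M) * ∑ κ, C (c κ * ∏ b, x b ^ a κ b) * H κ := by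
  unfold fam
  rw [Polynomial.map_sum, mul_sum]
  refine sum_congr rfl fun κ _ => ?_
  rw [Polynomial.map_mul, map_C, Polynomial.map_map]
  have h1 : (MvPolynomial.eval x).comp (MvPolynomial.C : K →+* MvPolynomial (Fin n) K) =
      RingHom.id K := by
    ext y
    simp
  rw [h1, Polynomial.map_id, MvPolynomial.eval_monomial, ← mul_assoc, ← C_mul]
  congr 2
  rw [Finsupp.prod_fintype _ _ (fun b => pow_zero _), mul_left_comm, ← prod_mul_distrib]
  congr 1
  refine prod_congr rfl fun b _ => ?_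
  have h2 : ((ex M (a κ) b : ℕ) : ℤ) = a κ b + M := by
    simp only [ex, Finsupp.equivFunOnFinite_symm_apply_apply]
    exact Int.toNat_of_nonneg (hM κ b)
  rw [← zpow_natCast, h2, ← zpow_natCast (x b) M, ← zpow_add₀ (hx b), add_comm]

theorem fam_deg {K : Type*} [Field K] {n m r : ℕ} (M : ℕ) (a : Fin m → Fin n → ℤ)
    (c : Fin m → K) (H : Fin m → K[X]) (hH : ∀ κ, (H κ).natDegree ≤ r) :
    (fam M a c H).natDegree ≤ r := by
  unfold fam
  refine natDegree_sum_le_of_forall_le _ _ fun κ _ => ?_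
  exact (natDegree_C_mul_le _ _).trans ((natDegree_map_le).trans (hH κ))

end H94

open H94 in
theorem kseq {K : Type*} [Field K] [NumberField K] (U : Ultrafilter ℕ)
    (T : Finset (FinitePlace K)) {r m : ℕ} (hr : 1 ≤ r) (H : Fin m → K[X])
    (hHr : ∀ κ, (H κ).natDegree ≤ r) (ρ : Fin m → ℕ → K) (hρ : ∀ κ, SUnit U T (ρ κ))
    (F : ℕ → K[X]) (hF : ∀ᶠ i in (U : Filter ℕ), F i = ∑ κ, C (ρ κ i) * H κ)
    (hdeg : ∀ᶠ i in (U : Filter ℕ), (F i).natDegree = r)
    (hres : ∀ᶠ i in (U : Filter ℕ), rd r (F i) ≠ 0) (p : Finset K) (hp : p.Nonempty)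
    (hpF : ∀ x ∈ p, ∀ᶠ i in (U : Filter ℕ), (F i).eval x ≠ 0)
    (hG : ∀ G : K[X], 0 < G.natDegree → ∀ᶠ i in (U : Filter ℕ), ¬ G ∣ F i)
    (t : ℕ → ℝ) (ht : Tendsto t (U : Filter ℕ) atTop)
    (htρ : ∀ κ v, ∀ᶠ i in (U : Filter ℕ), |Real.log (nv v (ρ κ i))| ≤ t i) (δ : ℝ)
    (hδ : 0 < δ) :
    ∀ᶠ i in (U : Filter ℕ), (lsum T fun v =>
      ((p.card : ℝ) - 1) * Real.log (vn v (cf r (F i))) - Real.log (nv v (rd r (F i))) -
        ∑ x ∈ p, Real.log (nv v ((F i).eval x))) ≤ δ * t i := by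
  classical
  have hρ' : ∀ᶠ i in (U : Filter ℕ), ∀ κ, ρ κ i ≠ 0 ∧ ∀ v : FinitePlace K, v ∉ T → v (ρ κ i) = 1 :=
    (eventually_all).2 fun κ => hρ κ
  obtain ⟨n, χ, a, c, hc, hρe, hmi⟩ := units U ρ fun κ => (hρ κ).mono fun i h => h.1
  set e : Fin n → ℕ → K := fun b i => ∏ j', ρ j' i ^ χ b j' with he_def
  have hρe' : ∀ᶠ i in (U : Filter ℕ), ∀ κ, ρ κ i = c κ * ∏ b, e b i ^ a κ b :=
    (eventually_all).2 fun κ => hρe κ
  have he' : ∀ᶠ i in (U : Filter ℕ), ∀ b, e b i ≠ 0 ∧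
      ∀ v : FinitePlace K, v ∉ T → v (e b i) = 1 := by
    filter_upwards [hρ'] with i hi b
    refine ⟨Finset.prod_ne_zero_iff.2 fun κ _ => zpow_ne_zero _ (hi κ).1, fun v hv => ?_⟩
    simp only [e]
    rw [map_prod]
    refine prod_eq_one fun κ _ => ?_
    rw [map_zpow₀, (hi κ).2 v hv, one_zpow]
  have he : ∀ b, SUnit U T (e b) := fun b => he'.mono fun i hi => hi b
  -- the bound
  set B : ℝ := ∑ b, ∑ κ, |(χ b κ : ℝ)| with hB_def
  have hB : ∀ b v, ∀ᶠ i in (U : Filter ℕ), |Real.log (nv v (e b i))| ≤ B * t i := by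
    intro b v
    have h1 : ∀ᶠ i in (U : Filter ℕ), ∀ κ, |Real.log (nv v (ρ κ i))| ≤ t i :=
      (eventually_all).2 fun κ => htρ κ v
    filter_upwards [h1, hρ', ht.eventually_ge_atTop 0] with i h1 h2 h3
    have h4 : Real.log (nv v (e b i)) = ∑ κ, (χ b κ : ℝ) * Real.log (nv v (ρ κ i)) := by
      simp only [e]
      rw [log_nv_prod v _ _ fun κ _ => zpow_ne_zero _ (h2 κ).1]
      exact sum_congr rfl fun κ _ => log_nv_zpow v _ _
    rw [h4]
    calc |∑ κ, (χ b κ : ℝ) * Real.log (nv v (ρ κ i))|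
        ≤ ∑ κ, |(χ b κ : ℝ) * Real.log (nv v (ρ κ i))| := abs_sum_le_sum_abs _ _
      _ ≤ ∑ κ, |(χ b κ : ℝ)| * t i := by
          refine sum_le_sum fun κ _ => ?_
          rw [abs_mul]
          exact mul_le_mul_of_nonneg_left (h1 κ) (abs_nonneg _)
      _ = (∑ κ, |(χ b κ : ℝ)|) * t i := by rw [sum_mul]
      _ ≤ B * t i := by
          refine mul_le_mul_of_nonneg_right ?_ h3
          exact single_le_sum (f := fun b => ∑ κ, |(χ b κ : ℝ)|)
            (fun b _ => sum_nonneg fun κ _ => abs_nonneg _) (mem_univ b)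
  -- the shift
  obtain ⟨M, hM⟩ : ∃ M : ℕ, ∀ κ b, 0 ≤ a κ b + M := by
    refine ⟨∑ κ, ∑ b, (a κ b).natAbs, fun κ b => ?_⟩
    have h1 : (a κ b).natAbs ≤ ∑ κ, ∑ b, (a κ b).natAbs :=
      (single_le_sum (f := fun b => (a κ b).natAbs) (fun _ _ => Nat.zero_le _) (mem_univ b)).trans
        (single_le_sum (f := fun κ => ∑ b, (a κ b).natAbs) (fun _ _ => Nat.zero_le _)
          (mem_univ κ))
    omega
  set 𝓕 := fam M a c H with h𝓕
  set u : ℕ → K := fun i => ∏ b, e b i ^ M with hu_def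
  have hmap : ∀ᶠ i in (U : Filter ℕ), 𝓕.map (MvPolynomial.eval fun b => e b i) =
      C (u i) * F i := by
    filter_upwards [hF, hρe', he'] with i h1 h2 h3
    rw [h𝓕, fam_map M a hM c H _ fun b => (h3 b).1, h1]
    congr 1
    refine sum_congr rfl fun κ _ => ?_
    rw [← h2 κ]
  have hu0 : ∀ᶠ i in (U : Filter ℕ), u i ≠ 0 ∧ ∀ v : FinitePlace K, v ∉ T → v (u i) = 1 := by
    filter_upwards [he'] with i hi
    refine ⟨Finset.prod_ne_zero_iff.2 fun b _ => pow_ne_zero _ (hi b).1, fun v hv => ?_⟩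
    simp only [u]
    rw [map_prod]
    refine prod_eq_one fun b _ => ?_
    rw [map_pow, (hi b).2 v hv, one_pow]
  have hcoeff : ∀ᶠ i in (U : Filter ℕ), (F i).coeff r ≠ 0 := by
    filter_upwards [hdeg] with i hi
    have h1 : F i ≠ 0 := by
      intro h
      rw [h, natDegree_zero] at hi
      omega
    rw [← hi]
    exact leadingCoeff_ne_zero.2 h1
  have hdeg𝓕 : 𝓕.natDegree = r := by
    refine le_antisymm (fam_deg M a c H hHr) (le_natDegree_of_ne_zero ?_)
    intro h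
    obtain ⟨i, h1, h2, h3⟩ := (hmap.and (hu0.and hcoeff)).exists
    have h4 := congrArg (fun P => P.coeff r) h1
    simp only [coeff_map, h, map_zero, coeff_C_mul] at h4
    exact mul_ne_zero h2.1 h3 h4.symm
  have hres𝓕 : rd r 𝓕 ≠ 0 := by
    intro h
    obtain ⟨i, h1, h2, h3⟩ := (hmap.and (hu0.and hres)).exists
    have h4 := rd_map (MvPolynomial.eval fun b => e b i) r 𝓕
    rw [h, map_zero, h1, rd_C_mul hr] at h4
    exact mul_ne_zero (pow_ne_zero _ h2.1) h3 h4
  have hev𝓕 : ∀ x ∈ p, 𝓕.eval (MvPolynomial.C x) ≠ 0 := by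
    intro x hx h
    obtain ⟨i, h1, h2, h3⟩ := (hmap.and (hu0.and (hpF x hx))).exists
    have h4 := congrArg (fun P => P.eval x) h1
    have h5 : (𝓕.map (MvPolynomial.eval fun b => e b i)).eval x = 0 := by
      have h6 := Polynomial.eval_map_apply (MvPolynomial.eval fun b => e b i) (p := 𝓕)
        (MvPolynomial.C x)
      rw [h, map_zero, MvPolynomial.eval_C] at h6
      exact h6
    simp only [h5, eval_mul, eval_C] at h4
    exact mul_ne_zero h2.1 h3 h4.symm
  have hG𝓕 : ∀ G : K[X], 0 < G.natDegree → ∀ a : MvPolynomial (Fin n) K, a ≠ 0 →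
      ¬ (G.map MvPolynomial.C ∣ C a * 𝓕) := by
    intro G hG0 y hy hdvd
    obtain ⟨i, h1, h2, h3, h4⟩ := (hmap.and (hu0.and ((hG G hG0).and (li U T e he hmi y hy)))).exists
    have h5 := Polynomial.map_dvd (MvPolynomial.eval fun b => e b i) hdvd
    rw [Polynomial.map_map, Polynomial.map_mul, map_C, h1] at h5
    have h6 : (MvPolynomial.eval fun b => e b i).comp
        (MvPolynomial.C : K →+* MvPolynomial (Fin n) K) = RingHom.id K := by
      ext z
      simp
    rw [h6, Polynomial.map_id, ← mul_assoc, ← C_mul] at h5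
    refine h3 ?_
    have h7 : IsUnit (C (MvPolynomial.eval (fun b => e b i) y * u i) : K[X]) :=
      isUnit_C.2 (isUnit_iff_ne_zero.2 (mul_ne_zero h4 h2.1))
    exact (h7.dvd_mul_left).1 h5
  have hmain := kpoly U T hr e he hmi 𝓕 hdeg𝓕 hres𝓕 p hp hev𝓕 hG𝓕 t ht B hB δ hδ
  have hpF' : ∀ᶠ i in (U : Filter ℕ), ∀ x ∈ p, (F i).eval x ≠ 0 :=
    (Finset.eventually_all p).2 hpF
  filter_upwards [hmain, hmap, hu0, hcoeff, hres, hpF'] with i h1 h2 h3 h4 h5 h6
  have h7 : (fun v => ((p.card : ℝ) - 1) * Real.log (vn v (cf r (F i))) -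
      Real.log (nv v (rd r (F i))) - ∑ x ∈ p, Real.log (nv v ((F i).eval x))) =
      fun v => (((p.card : ℝ) - 1) *
        Real.log (vn v (cf r (𝓕.map (MvPolynomial.eval fun b => e b i)))) -
        Real.log (nv v (rd r (𝓕.map (MvPolynomial.eval fun b => e b i)))) -
        ∑ x ∈ p, Real.log (nv v ((𝓕.map (MvPolynomial.eval fun b => e b i)).eval x))) +
        (2 * r : ℝ) * Real.log (nv v (u i)) := by
    funext v
    rw [h2, vn_smul v h3.1 h4, rd_C_mul hr, log_nv_mul v (pow_ne_zero _ h3.1) h5, log_nv_pow]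
    have h8 : ∑ x ∈ p, Real.log (nv v ((C (u i) * F i).eval x)) =
        p.card * Real.log (nv v (u i)) + ∑ x ∈ p, Real.log (nv v ((F i).eval x)) := by
      rw [← nsmul_eq_mul, ← sum_const, ← sum_add_distrib]
      refine sum_congr rfl fun x hx => ?_
      rw [eval_mul, eval_C, log_nv_mul v h3.1 (h6 x hx)]
    rw [h8]
    have h9 : ((2 * r - 1 : ℕ) : ℝ) = 2 * r - 1 := by
      rw [Nat.cast_sub (by omega)]
      push_cast
      ring
    rw [h9]
    ring
  rw [h7, lsum_add, lsum_mul, lsum_unit T h3.1 h3.2, mul_zero, add_zero]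
  exact h1

end Pool.Agent.Helper16.TP
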