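import Pool.Agent.Helper16.TP.Defs

/-!
# Block TP-LOW: lower bound for linear combinations of units at one place

Same technique as `Pool.Agent.Helper26.DMC.SU1.core1`. Suppose the conclusion fails; as `U` is
an ultrafilter and `Fin m` is finite, there is `i₀` with
`log |∑ b_i y_i|_v < log |y_{i₀}|_v - δ t` almost everywhere (the sum is not zero almost everywhere by
`Pool.Agent.Helper26.DMC.sunit_indep`). Enlarge `T` so that it contains `v` if `v` is finite. Let `e i w` be the
limit of `log |y_i|_w / s` with `s = (|C| + 1) t`. Linear forms: at `v` the coordinates with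
`y_{i₀}` replaced by `∑ b_i y_i` (determinant `b_{i₀} ≠ 0`), at the other places the coordinates.
Exponents `c w i = e i w`, except `c v i₀ = e i₀ v - δ'`, plus `δ' / m` for every `i` at one fixed infinite place,
so `deg c = 0`. Then `tH F (sc s c) y ≤ - (δ' / m) s + ε s` almost everywhere for every `ε > 0`, and
`subspace_stub` gives a proper subspace which contains `y` almost everywhere, i.e. a nontrivial
relation `∑ a_i y_i = 0`, a contradiction.
-/

namespace Pool.Agent.Helper16.TP

open NumberField Finset Filter
open Pool.Agent.Helper64.Vojta (Pl nv sn)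
open Pool.Agent.Helper26.DMC (SUnit)

namespace LowerLin11

open Pool.Agent.V2 Pool.Agent.Helper26.DMC Pool.Agent.Helper26.DMC.SU1 Topology
open Pool.Agent.Helper64.Vojta (nv_nonneg nv_mul nv_one nv_zero nv_pos nv_inv)

variable {K : Type*} [Field K] [NumberField K]

/-- the relation from a proper subspace -/
theorem no_subspace (U : Ultrafilter ℕ) (T : Finset (FinitePlace K)) {m : ℕ} (y : Fin m → ℕ → K)
    (hy : ∀ i, SUnit U T (y i))
    (hne : ∀ i i', i ≠ i' → ¬ ∃ a : K, ∀ᶠ j in (U : Filter ℕ), y i j = a * y i' j)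
    (W : Submodule K (Fin m → K)) (hW : W ≠ ⊤)
    (hW' : ∀ᶠ j in (U : Filter ℕ), (fun i => y i j) ∈ W) : False := by
  classical
  obtain ⟨φ, hφ, hWφ⟩ := Submodule.exists_le_ker_of_lt_top W (lt_top_iff_ne_top.mpr hW)
  have h1 : ∀ᶠ j in (U : Filter ℕ), ∑ i, φ (Pi.single i 1) * y i j = 0 := by
    filter_upwards [hW'] with j hj
    have h3 : φ (fun l => y l j) = 0 := by
      have := hWφ hj
      rwa [LinearMap.mem_ker] at this
    have h4 : φ (fun l => y l j) = ∑ l, y l j * φ (Pi.single l 1) := by
      conv_lhs => rw [← Finset.univ_sum_single (fun l => y l j)]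
      rw [map_sum]
      refine Finset.sum_congr rfl fun l _ => ?_
      have : (Pi.single l (y l j) : Fin m → K) = y l j • Pi.single l 1 := by
        rw [← Pi.single_smul, smul_eq_mul, mul_one]
      rw [this, map_smul, smul_eq_mul]
    rw [← h3, h4]
    exact Finset.sum_congr rfl fun l _ => mul_comm _ _
  have h2 := sunit_indep U T y hy hne (fun i => φ (Pi.single i 1)) h1
  apply hφ
  refine LinearMap.pi_ext' fun l => ?_
  refine LinearMap.ext_ring ?_
  have := congrFun h2 l
  simpa using this

open Classical in
/-- the system of forms: coordinates, with one coordinate replaced at the place `v` -/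
noncomputable def Gm {r : ℕ} (S : Finset (FinitePlace K)) (b : Fin r → K) (i0 : Fin r)
    (hb : b i0 ≠ 0) (v : Pl K) (hv : ∀ w : FinitePlace K, v = .inr w → w ∈ S) : Frm K (Fin r) where
  S := S
  L := fun w => if w = v then Matrix.updateRow 1 i0 b else 1
  hL := by
    classical
    intro w
    split_ifs
    · rw [det_upd]
      exact hb
    · simp
  hS := by
    intro w hw
    have : (Sum.inr w : Pl K) ≠ v := by
      intro h
      exact hw (hv w h.symm)
    simp only [this, if_false]

end LowerLin11

open LowerLin11 Pool.Agent.V2 Pool.Agent.Helper26.DMC Pool.Agent.Helper26.DMC.SU1 Topology in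
theorem lower_lin {K : Type*} [Field K] [NumberField K] (U : Ultrafilter ℕ)
    (T : Finset (FinitePlace K)) {m : ℕ} (y : Fin m → ℕ → K) (hy : ∀ i, SUnit U T (y i))
    (hne : ∀ i i', i ≠ i' → ¬ ∃ a : K, ∀ᶠ j in (U : Filter ℕ), y i j = a * y i' j)
    (b : Fin m → K) (hb : ∀ i, b i ≠ 0) (t : ℕ → ℝ) (ht : Tendsto t (U : Filter ℕ) atTop)
    (C : ℝ) (hC : ∀ i v, ∀ᶠ j in (U : Filter ℕ), |Real.log (nv v (y i j))| ≤ C * t j)
    (v : Pl K) (δ : ℝ) (hδ : 0 < δ) :
    ∀ᶠ j in (U : Filter ℕ), ∀ i,
      Real.log (nv v (y i j)) - δ * t j ≤ Real.log (nv v (∑ i, b i * y i j)) := by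
  classical
  have nv_pos : ∀ (w : Pl K) {x : K}, x ≠ 0 → 0 < nv w x :=
    fun w _ hx => Pool.Agent.Helper64.Vojta.nv_pos w hx
  rw [Filter.eventually_all]
  intro i0
  by_contra hcon
  rw [← Ultrafilter.eventually_not] at hcon
  have hm : 0 < m := lt_of_le_of_lt (Nat.zero_le _) i0.2
  have hmR : (0 : ℝ) < m := by exact_mod_cast hm
  -- the sum does not vanish
  have hz : ∀ᶠ j in (U : Filter ℕ), ∑ i, b i * y i j ≠ 0 := by
    have h1 : ¬ ∀ᶠ j in (U : Filter ℕ), ∑ i, b i * y i j = 0 := by
      intro h
      have := sunit_indep U T y hy hne b h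
      exact hb i0 (by rw [this]; rfl)
    rwa [← Ultrafilter.eventually_not] at h1
  -- enlarge `T`
  obtain ⟨S, hTS, hvS⟩ : ∃ S : Finset (FinitePlace K), T ⊆ S ∧
      ∀ w : FinitePlace K, v = .inr w → w ∈ S := by
    rcases v with v | v
    · exact ⟨T, subset_rfl, fun w hw => by cases hw⟩
    · refine ⟨insert v T, Finset.subset_insert _ _, fun w hw => ?_⟩
      have : v = w := Sum.inr_injective hw
      rw [← this]
      exact Finset.mem_insert_self _ _
  have hyS : ∀ i, SUnit U S (y i) := by
    intro i
    unfold SUnit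
    filter_upwards [hy i] with j hj
    exact ⟨hj.1, fun w hw => hj.2 w (fun h => hw (hTS h))⟩
  -- rescale `t`
  have hA : 0 < |C| + 1 := by positivity
  obtain ⟨s, hs⟩ : ∃ s : ℕ → ℝ, s = fun j => (|C| + 1) * t j := ⟨_, rfl⟩
  obtain ⟨δ', hδ'⟩ : ∃ δ' : ℝ, δ' = δ / (|C| + 1) := ⟨_, rfl⟩
  have hδ'pos : 0 < δ' := by rw [hδ']; positivity
  have hst : Tendsto s (U : Filter ℕ) atTop := by
    rw [hs]
    exact ht.const_mul_atTop hA
  have hδs : ∀ j, δ * t j = δ' * s j := by
    intro j
    rw [hs, hδ']
    field_simp
  -- exponents of the coordinates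
  have hE : ∀ i, ∃ e : Pl K → ℝ, (∀ v : FinitePlace K, v ∉ S → e (.inr v) = 0) ∧
      (∀ v, Tendsto (fun j => Real.log (nv v (y i j)) / s j) U (𝓝 (e v))) ∧ gsum e = 0 := by
    intro i
    refine exps U S (y i) (hyS i) s hst (fun _ => 0) ?_
    intro w
    filter_upwards [hC i w, ht.eventually_ge_atTop 0] with j hj htj
    rw [zero_add]
    refine hj.trans ?_
    rw [hs]
    have h1 : C * t j ≤ |C| * t j := mul_le_mul_of_nonneg_right (le_abs_self C) htj
    have h2 : (|C| + 1) * t j = |C| * t j + t j := by ring
    simp only [h2]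
    linarith
  choose e he0 he heg using hE
  -- the exponents
  obtain ⟨v₀⟩ : Nonempty (InfinitePlace K) := inferInstance
  set c : Pl K → Fin m → ℝ := fun w i =>
    (e i w + (if w = v then (if i = i0 then -δ' else 0) else 0)) +
      (if w = .inl v₀ then δ' / (m : ℝ) else 0) with hc
  have hvne : ∀ w : FinitePlace K, w ∉ S → (Sum.inr w : Pl K) ≠ v := by
    intro w hw h
    exact hw (hvS w h.symm)
  have hcS : ExpS S c := by
    intro w hw
    funext i
    simp only [hc]
    rw [he0 i w hw]
    simp [hvne w hw]
  have hdeg : deg c = 0 := by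
    have h2 : (fun w => ∑ i, c w i) = fun w => (∑ i, e i w) +
        ((-δ') * (if w = v then 1 else 0) + δ' * (if w = .inl v₀ then 1 else 0)) := by
      funext w
      simp only [hc]
      rw [Finset.sum_add_distrib, Finset.sum_add_distrib, Finset.sum_const, Finset.card_univ,
        Fintype.card_fin, nsmul_eq_mul, add_assoc]
      congr 1
      congr 1
      · split_ifs
        · rw [Finset.sum_ite_eq' Finset.univ i0]
          simp
        · simp
      · split_ifs
        · field_simp
        · simp
    have f1 : ∀ i, FinS (e i) := fun i => SU1.finS_of_S S _ (he0 i)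
    have f2 : FinS (K := K) (fun w => if w = v then 1 else 0) :=
      SU1.finS_of_S S _ (fun w hw => by simp [hvne w hw])
    have f4 : FinS (K := K) (fun w => if w = .inl v₀ then 1 else 0) :=
      SU1.finS_of_S S _ (fun w hw => by simp)
    have g2 : gsum (K := K) (fun w => if w = v then (1 : ℝ) else 0) = 1 := by
      rw [gsum_eq_of_S S _ (fun w hw => by simp [hvne w hw])]
      rcases v with v | v
      · simp
      · have := hvS v rfl
        simp [this]
    have g4 : gsum (K := K) (fun w => if w = .inl v₀ then (1 : ℝ) else 0) = 1 := by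
      rw [gsum_eq_of_S S _ (fun w hw => by simp)]
      simp
    unfold deg
    rw [h2, gsum_add (FinS.sum _ fun i _ => f1 i) ((f2.const_mul _).add (f4.const_mul _)),
      gsum_sum _ (fun i _ => f1 i), gsum_add (f2.const_mul _) (f4.const_mul _),
      gsum_const_mul, gsum_const_mul, g2, g4]
    have : ∀ i, gsum (fun v => e i v) = 0 := heg
    rw [Finset.sum_congr rfl fun i _ => this i]
    simp
  -- the twisted height
  set M : ℝ := Fintype.card (InfinitePlace K) + S.card with hM
  have hMpos : 0 < M := by
    have h2 : 0 < Fintype.card (InfinitePlace K) := Fintype.card_pos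
    have h3 : (0 : ℝ) < Fintype.card (InfinitePlace K) := by exact_mod_cast h2
    positivity
  set ε : ℝ := δ' / (2 * m * M) with hε
  have hεpos : 0 < ε := by positivity
  have hall : ∀ᶠ j in (U : Filter ℕ), (∀ i, (y i j ≠ 0 ∧ ∀ v : FinitePlace K, v ∉ S →
      v (y i j) = 1)) := by
    rw [Filter.eventually_all]
    exact fun i => hyS i
  have hloc : ∀ w : Pl K, ∀ᶠ j in (U : Filter ℕ), ∀ i,
      Real.log (nv w (if w = v then (if i = i0 then ∑ l, b l * y l j else y i j) else y i j) *
        Real.exp (-(s j * c w i))) ≤ ε * s j - (if w = .inl v₀ then δ' / m * s j else 0) := by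
    intro w
    rw [Filter.eventually_all]
    intro i
    have h2 := (he i w).eventually (Iio_mem_nhds (show e i w < e i w + ε by linarith))
    filter_upwards [h2, hyS i, hz, hcon, hst.eventually_gt_atTop 0] with j hj hyj hzj hcj hsj
    have h3 : Real.log (nv w (y i j)) < (e i w + ε) * s j := by
      have : Real.log (nv w (y i j)) / s j < e i w + ε := hj
      rwa [div_lt_iff₀ hsj] at this
    have hx : (if w = v then (if i = i0 then ∑ l, b l * y l j else y i j) else y i j) ≠ 0 := by
      split_ifs
      · exact hzj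
      · exact hyj.1
      · exact hyj.1
    rw [Real.log_mul (nv_pos w hx).ne' (Real.exp_pos _).ne', Real.log_exp]
    have h4 : Real.log (nv w (if w = v then (if i = i0 then ∑ l, b l * y l j else y i j)
        else y i j)) ≤ (e i w + ε) * s j + (if w = v then (if i = i0 then -δ' else 0) else 0) * s j := by
      by_cases hw : w = v
      · by_cases hi : i = i0
        · simp only [hw, hi, if_true]
          rw [hw, hi] at h3
          have h5 : Real.log (nv v (∑ i, b i * y i j)) < Real.log (nv v (y i0 j)) - δ * t j :=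
            not_le.mp hcj
          rw [hδs j] at h5
          linarith
        · simp only [hw, hi, if_true, if_false]
          rw [hw] at h3
          linarith
      · simp only [hw, if_false]
        linarith
    simp only [hc]
    have h5 : s j * (e i w + (if w = v then (if i = i0 then -δ' else 0) else 0) +
        (if w = .inl v₀ then δ' / (m : ℝ) else 0)) = e i w * s j +
        (if w = v then (if i = i0 then -δ' else 0) else 0) * s j +
        (if w = .inl v₀ then δ' / m * s j else 0) := by
      split_ifs <;> ring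
    rw [h5]
    linarith
  have hmv : ∀ (w : Pl K) (j : ℕ) (i : Fin m),
      Matrix.mulVec ((Gm S b i0 (hb i0) v hvS).L w) (fun l => y l j) i =
        if w = v then (if i = i0 then ∑ l, b l * y l j else y i j) else y i j := by
    intro w j i
    simp only [Gm]
    split_ifs with h1 h2
    · rw [upd_mulVec]
      simp [h2]
    · rw [upd_mulVec]
      simp [h2]
    · simp
  have hpos : ∀ᶠ j in (U : Filter ℕ), ∀ (w : Pl K) (i : Fin m),
      0 < nv w (if w = v then (if i = i0 then ∑ l, b l * y l j else y i j) else y i j) *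
        Real.exp (-(s j * c w i)) := by
    filter_upwards [hz, hall] with j hzj hyj w i
    refine mul_pos (nv_pos w ?_) (Real.exp_pos _)
    split_ifs
    · exact hzj
    · exact (hyj i).1
    · exact (hyj i).1
  have hlocI : ∀ᶠ j in (U : Filter ℕ), ∀ w : InfinitePlace K,
      Real.log (tn (Gm S b i0 (hb i0) v hvS) (sc (s j) c) (.inl w) (fun l => y l j)) ≤
        ε * s j - (if w = v₀ then δ' / m * s j else 0) := by
    have h2 : ∀ᶠ j in (U : Filter ℕ), ∀ w : InfinitePlace K, ∀ i,
      Real.log (nv (.inl w) (if (Sum.inl w : Pl K) = v then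
          (if i = i0 then ∑ l, b l * y l j else y i j) else y i j) *
        Real.exp (-(s j * c (.inl w) i))) ≤
          ε * s j - (if (Sum.inl w : Pl K) = .inl v₀ then δ' / m * s j else 0) := by
      rw [Filter.eventually_all]
      exact fun w => hloc (.inl w)
    filter_upwards [h2, hpos] with j hj hpj w
    unfold tn
    refine log_iSup_le hm _ ?_ _ ?_
    · intro i
      rw [hmv]
      exact hpj (.inl w) i
    · intro i
      rw [hmv]
      have := hj w i
      simpa [sc] using this
  have hlocS : ∀ᶠ j in (U : Filter ℕ), ∀ w ∈ S,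
      Real.log (tn (Gm S b i0 (hb i0) v hvS) (sc (s j) c) (.inr w) (fun l => y l j)) ≤
        ε * s j := by
    have h2 : ∀ᶠ j in (U : Filter ℕ), ∀ w ∈ S, ∀ i,
      Real.log (nv (.inr w) (if (Sum.inr w : Pl K) = v then
          (if i = i0 then ∑ l, b l * y l j else y i j) else y i j) *
        Real.exp (-(s j * c (.inr w) i))) ≤
          ε * s j - (if (Sum.inr w : Pl K) = .inl v₀ then δ' / m * s j else 0) := by
      rw [Filter.eventually_all_finset]
      exact fun w _ => hloc (.inr w)
    filter_upwards [h2, hpos] with j hj hpj w hw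
    unfold tn
    refine log_iSup_le hm _ ?_ _ ?_
    · intro i
      rw [hmv]
      exact hpj (.inr w) i
    · intro i
      rw [hmv]
      have := hj w hw i
      simpa [sc] using this
  have hlocO : ∀ᶠ j in (U : Filter ℕ), ∀ w : FinitePlace K, w ∉ S →
      Real.log (tn (Gm S b i0 (hb i0) v hvS) (sc (s j) c) (.inr w) (fun l => y l j)) = 0 := by
    filter_upwards [hall] with j hj w hw
    have h2 : tn (Gm S b i0 (hb i0) v hvS) (sc (s j) c) (.inr w) (fun l => y l j) = 1 := by
      have h3 : ∀ i, nv (.inr w) (Matrix.mulVec ((Gm S b i0 (hb i0) v hvS).L (.inr w))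
          (fun l => y l j) i) * Real.exp (-(sc (s j) c (.inr w) i)) = 1 := by
        intro i
        rw [hmv]
        simp only [hvne w hw, if_false, sc]
        rw [hcS w hw]
        have : nv (.inr w) (y i j) = 1 := (hj i).2 w hw
        rw [this]
        simp
      unfold tn
      have : Nonempty (Fin m) := ⟨i0⟩
      simp_rw [h3]
      exact ciSup_const
    rw [h2, Real.log_one]
  have hfin := subspace_stub (Gm S b i0 (hb i0) v hvS) c hcS hdeg U s hst (δ' / (2 * m))
    (by positivity) (fun j l => y l j) ?_
  · obtain ⟨W, hW, hW'⟩ := hfin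
    exact no_subspace U T y hy hne W hW hW'
  filter_upwards [hlocI, hlocS, hlocO, hall] with j hI hS hO hA'
  refine ⟨fun h => (hA' i0).1 (congrFun h i0), ?_⟩
  unfold tH
  rw [gsum_eq_of_S S _ hO]
  have s1 : ∑ w : InfinitePlace K,
      Real.log (tn (Gm S b i0 (hb i0) v hvS) (sc (s j) c) (.inl w) (fun l => y l j)) ≤
      ∑ w : InfinitePlace K, (ε * s j - (if w = v₀ then δ' / m * s j else 0)) :=
    Finset.sum_le_sum fun w _ => hI w
  have s2 : ∑ w ∈ S,
      Real.log (tn (Gm S b i0 (hb i0) v hvS) (sc (s j) c) (.inr w) (fun l => y l j)) ≤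
      ∑ w ∈ S, ε * s j := Finset.sum_le_sum fun w hw => hS w hw
  rw [Finset.sum_sub_distrib, Finset.sum_const, Finset.sum_ite_eq' Finset.univ v₀,
    Finset.card_univ, nsmul_eq_mul] at s1
  rw [Finset.sum_const, nsmul_eq_mul] at s2
  simp only [Finset.mem_univ, if_true] at s1
  have s3 : ε * M = δ' / (2 * m) := by
    rw [hε]
    field_simp
  have s4 : (Fintype.card (InfinitePlace K) : ℝ) * (ε * s j) + S.card * (ε * s j) =
      (ε * M) * s j := by
    rw [hM]
    ring
  rw [s3] at s4
  have s5 : δ' / m * s j = δ' / (2 * m) * s j + δ' / (2 * m) * s j := by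
    field_simp
    ring
  linarith

end Pool.Agent.Helper16.TP
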