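import Pool.Agent.Helper16.TP.FracDer

/-!
# Block TP-MOD: the field `L(s)` with `X_b ↦ X_b s^{a_b}`

PROOF. `A = MvPolynomial (Fin n) K`, `L = FractionRing A`, `R = L[X]` (write `s` for the variable),
`E = FractionRing R` (or `RatFunc L`), `v` the prime ideal generated by `s`. Let `D` be the extension of
`der lam` to `L` (`exists_frac_der`, with `der lam` as a `ℤ`-derivation: `Derivation.restrictScalars ℤ`),
`D₁` the derivation of `L[X]` which applies `D` to the coefficients (Mathlib: `Mathlib/RingTheory/Derivation/MapCoeffs.lean`,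
or direct), `d` its extension to `E` (`exists_frac_der`).
`φ`: the ring homomorphism `A → E` with `φ c = c` for constants and `φ (X b) = X_b * s ^ a b`
(`MvPolynomial.eval₂Hom`). `d (φ (X b)) = lam b * φ (X b)` because `d s = 0`, so `d ∘ φ = φ ∘ der lam`
(both are derivations along `φ`, they agree on the variables and on constants).
`v (d x) ≤ v x`: for `f ∈ L[s]`, `s ^ k ∣ f → s ^ k ∣ D₁ f`; for a fraction `x = f / g`:
`d x = (g d f - f d g) / g ^ 2`.
`φ P = ∑ m, P.coeff m * X^m * s ^ (∑ a b * m b) = s ^ (-N) * (polynomial in s)` with `N` large; the coefficient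
of `s ^ j` of the polynomial is `∑ P.coeff m * X^m` over the `m` with `∑ a b * m b = j - N`, which is `≠ 0` if
there is such an `m` in the support. So for `P ≠ 0` `v (φ P) = exp (-min_{m ∈ supp P} ∑ a b * m b)` (in particular
`φ P ≠ 0`), and constants `c ≠ 0` have valuation 1.
-/

namespace Pool.Agent.Helper16.TP

open IsDedekindDomain

universe u

section h40

open Polynomial

variable {L : Type u} [Field L]

theorem h40_exists_der_poly (D : Derivation ℤ L L) :
    ∃ D1 : Derivation ℤ L[X] L[X], (∀ p i, (D1 p).coeff i = D (p.coeff i)) ∧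
      (∀ x, D1 (C x) = C (D x)) ∧ D1 X = 0 := by
  letI : Differential L := ⟨D⟩
  exact ⟨Differential.mapCoeffs, fun p i => Differential.coeff_mapCoeffs p i,
    fun x => Differential.mapCoeffs_C x, Differential.mapCoeffs_X⟩

theorem h40_le_iff (f : L[X]) (k : ℕ) :
    (idealX L).intValuation f ≤ WithZero.exp (-(k : ℤ)) ↔ X ^ k ∣ f := by
  rw [HeightOneSpectrum.intValuation_le_pow_iff_mem, idealX_span, Ideal.span_singleton_pow,
    Ideal.mem_span_singleton]

theorem h40_intVal_le_of {f g : L[X]} (h : ∀ k : ℕ, X ^ k ∣ g → X ^ k ∣ f) :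
    (idealX L).intValuation f ≤ (idealX L).intValuation g := by
  by_cases hg : g = 0
  · have hf : f = 0 := by
      by_contra hf
      have h1 := h (f.natDegree + 1) (hg ▸ dvd_zero _)
      have h2 := Polynomial.natDegree_le_of_dvd h1 hf
      rw [natDegree_X_pow] at h2
      omega
    rw [hf, hg]
  · have h1 := (idealX L).intValuation_if_neg hg
    rw [h1]
    exact (h40_le_iff f _).2 (h _ ((h40_le_iff g _).1 h1.le))

theorem h40_val_der {E : Type u} [Field E] [Algebra L[X] E] [IsFractionRing L[X] E]
    (D : Derivation ℤ L L) (D1 : Derivation ℤ L[X] L[X]) (d : Derivation ℤ E E)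
    (h1 : ∀ p i, (D1 p).coeff i = D (p.coeff i))
    (h2 : ∀ p, d (algebraMap L[X] E p) = algebraMap L[X] E (D1 p)) (x : E) :
    (idealX L).valuation E (d x) ≤ (idealX L).valuation E x := by
  have key : ∀ f : L[X], (idealX L).valuation E (d (algebraMap L[X] E f)) ≤
      (idealX L).valuation E (algebraMap L[X] E f) := by
    intro f
    rw [h2, HeightOneSpectrum.valuation_of_algebraMap, HeightOneSpectrum.valuation_of_algebraMap]
    refine h40_intVal_le_of fun k hk => ?_
    rw [X_pow_dvd_iff] at hk ⊢
    intro i hi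
    rw [h1, hk i hi, map_zero]
  obtain ⟨f, g, hg, rfl⟩ := IsFractionRing.div_surjective (A := L[X]) x
  have hg0 : algebraMap L[X] E g ≠ 0 :=
    IsFractionRing.to_map_ne_zero_of_mem_nonZeroDivisors hg
  set x : E := algebraMap L[X] E f / algebraMap L[X] E g with hx
  have hxf : x * algebraMap L[X] E g = algebraMap L[X] E f := by
    rw [hx, div_mul_cancel₀ _ hg0]
  have h3 : algebraMap L[X] E g * d x = d (algebraMap L[X] E f) - x * d (algebraMap L[X] E g) := by
    rw [← hxf, Derivation.leibniz]
    simp only [smul_eq_mul]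
    ring
  have h4 : (idealX L).valuation E (algebraMap L[X] E g * d x) ≤
      (idealX L).valuation E (algebraMap L[X] E g * x) := by
    rw [h3]
    refine (Valuation.map_sub _ _ _).trans (max_le ?_ ?_)
    · refine (key f).trans ?_
      rw [← hxf, mul_comm]
    · rw [map_mul, map_mul, mul_comm]
      exact mul_le_mul_left (key g) _
  rw [map_mul, map_mul] at h4
  have hv : (idealX L).valuation E (algebraMap L[X] E g) ≠ 0 := by
    rw [Valuation.ne_zero_iff]
    exact hg0
  exact (mul_le_mul_iff_right₀ (zero_lt_iff.2 hv)).1 h4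

theorem h40_exists_der_E {E : Type u} [Field E] [Algebra L[X] E] [IsFractionRing L[X] E]
    (D : Derivation ℤ L L) :
    ∃ d : Derivation ℤ E E, (∀ x, d (algebraMap L[X] E (C x)) = algebraMap L[X] E (C (D x))) ∧
      d (algebraMap L[X] E X) = 0 ∧
      ∀ x, (idealX L).valuation E (d x) ≤ (idealX L).valuation E x := by
  obtain ⟨D1, hD1, hD1C, hD1X⟩ := h40_exists_der_poly D
  obtain ⟨d, hd⟩ := exists_frac_der (A := L[X]) (L := E) D1
  exact ⟨d, fun x => (hd _).trans (congrArg _ (hD1C x)),
    (hd _).trans ((congrArg _ hD1X).trans (map_zero _)), h40_val_der D D1 d hD1 hd⟩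

end h40

section h40b

variable {K : Type u} [Field K] {n : ℕ}
variable (L : Type u) [Field L] [Algebra (MvPolynomial (Fin n) K) L]
variable (E : Type u) [Field E] [Algebra (Polynomial L) E]

/-- The variable `s`. -/
noncomputable def h40s : E :=
  algebraMap (Polynomial L) E Polynomial.X

/-- The constant embedding of the polynomial ring. -/
noncomputable def h40c : MvPolynomial (Fin n) K →+* E :=
  (algebraMap (Polynomial L) E).comp
    ((Polynomial.C).comp (algebraMap (MvPolynomial (Fin n) K) L))

/-- The twisted embedding. -/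
noncomputable def h40phi (a : Fin n → ℤ) : MvPolynomial (Fin n) K →+* E :=
  MvPolynomial.eval₂Hom
    ((h40c (K := K) (n := n) L E).comp (MvPolynomial.C : K →+* MvPolynomial (Fin n) K))
    fun b => h40c (K := K) (n := n) L E (MvPolynomial.X b) * h40s L E ^ a b

/-- The weight. -/
def h40w {n : ℕ} (a : Fin n → ℤ) (m : Fin n →₀ ℕ) : ℤ := ∑ b, a b * (m b : ℤ)

theorem h40s_ne [IsFractionRing (Polynomial L) E] : h40s L E ≠ 0 := by
  unfold h40s
  rw [Ne, FaithfulSMul.algebraMap_eq_zero_iff]
  exact Polynomial.X_ne_zero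

theorem h40_prod_zpow {E : Type*} [Field E] {s : E} (hs : s ≠ 0) {ι : Type*} (S : Finset ι)
    (e : ι → ℤ) : ∏ b ∈ S, s ^ e b = s ^ ∑ b ∈ S, e b := by
  classical
  induction S using Finset.induction_on with
  | empty => simp
  | insert b S hb ih => rw [Finset.prod_insert hb, Finset.sum_insert hb, zpow_add₀ hs, ih]

theorem h40phi_eq [IsFractionRing (Polynomial L) E] (a : Fin n → ℤ)
    (P : MvPolynomial (Fin n) K) :
    h40phi L E a P = ∑ m ∈ P.support,
      h40c L E (MvPolynomial.monomial m (P.coeff m)) * h40s L E ^ h40w a m := by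
  unfold h40phi
  rw [MvPolynomial.coe_eval₂Hom, MvPolynomial.eval₂_eq']
  refine Finset.sum_congr rfl fun m _ => ?_
  have h1 : ∏ i : Fin n, (h40c L E (MvPolynomial.X i : MvPolynomial (Fin n) K) *
        h40s L E ^ a i) ^ m i =
      (∏ i : Fin n, h40c L E (MvPolynomial.X i : MvPolynomial (Fin n) K) ^ m i) *
        h40s L E ^ h40w a m := by
    unfold h40w
    rw [← h40_prod_zpow (h40s_ne L E), ← Finset.prod_mul_distrib]
    refine Finset.prod_congr rfl fun i _ => ?_
    rw [mul_pow, zpow_mul, zpow_natCast]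
  rw [h1, ← mul_assoc]
  congr 1
  rw [MvPolynomial.monomial_eq, map_mul, RingHom.comp_apply]
  congr 1
  rw [Finsupp.prod_fintype _ _ (fun i => pow_zero _), map_prod]
  exact Finset.prod_congr rfl fun i _ => (map_pow _ _ _).symm

/-- The polynomial `s ^ N * φ P`. -/
noncomputable def h40G (a : Fin n → ℤ) (N : ℕ) (P : MvPolynomial (Fin n) K) :
    Polynomial L :=
  ∑ m ∈ P.support, Polynomial.monomial (h40w a m + N).toNat
    (algebraMap (MvPolynomial (Fin n) K) L (MvPolynomial.monomial m (P.coeff m)))

theorem h40G_eq [IsFractionRing (Polynomial L) E] (a : Fin n → ℤ) (N : ℕ)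
    (P : MvPolynomial (Fin n) K) (hN : ∀ m ∈ P.support, 0 ≤ h40w a m + N) :
    algebraMap (Polynomial L) E (h40G L a N P) =
      h40s L E ^ (N : ℤ) * h40phi L E a P := by
  unfold h40G
  rw [h40phi_eq, map_sum, Finset.mul_sum]
  refine Finset.sum_congr rfl fun m hm => ?_
  rw [← Polynomial.C_mul_X_pow_eq_monomial, map_mul, map_pow, mul_comm, mul_left_comm]
  rw [← zpow_add₀ (h40s_ne L E), mul_comm]
  have h1 : ((N : ℤ) + h40w a m) = (((h40w a m + N).toNat : ℕ) : ℤ) := by
    rw [Int.toNat_of_nonneg (hN m hm)]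
    ring
  rw [h1, zpow_natCast]
  rfl

theorem h40G_coeff_ne [IsFractionRing (MvPolynomial (Fin n) K) L] (a : Fin n → ℤ) (N : ℕ)
    (P : MvPolynomial (Fin n) K) {m : Fin n →₀ ℕ}
    (hm : m ∈ P.support) : (h40G L a N P).coeff (h40w a m + N).toNat ≠ 0 := by
  classical
  unfold h40G
  rw [Polynomial.finsetSum_coeff]
  simp only [Polynomial.coeff_monomial]
  rw [← Finset.sum_filter, ← map_sum]
  rw [Ne, FaithfulSMul.algebraMap_eq_zero_iff]
  intro h0
  have h1 := congrArg (MvPolynomial.coeff m) h0
  rw [MvPolynomial.coeff_sum, MvPolynomial.coeff_zero] at h1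
  simp only [MvPolynomial.coeff_monomial] at h1
  have hmem : m ∈ Finset.filter (fun x => (h40w a x + (N : ℤ)).toNat = (h40w a m + (N : ℤ)).toNat)
      P.support := Finset.mem_filter.2 ⟨hm, rfl⟩
  rw [Finset.sum_ite_eq', if_pos hmem] at h1
  exact MvPolynomial.mem_support_iff.1 hm h1

theorem h40G_dvd (a : Fin n → ℤ) (N : ℕ) (Q : MvPolynomial (Fin n) K) (w : ℤ)
    (hw : 0 ≤ w + N) (hQ : ∀ m ∈ Q.support, w < h40w a m) :
    Polynomial.X ^ ((w + N).toNat + 1) ∣ h40G L a N Q := by
  unfold h40G
  refine Finset.dvd_sum fun m hm => ?_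
  rw [← Polynomial.C_mul_X_pow_eq_monomial]
  refine Dvd.dvd.mul_left (pow_dvd_pow _ ?_) _
  have := hQ m hm
  omega

theorem h40_compare [IsFractionRing (MvPolynomial (Fin n) K) L]
    [IsFractionRing (Polynomial L) E] (a : Fin n → ℤ) (P Q : MvPolynomial (Fin n) K)
    (h : (Polynomial.idealX L).valuation E (h40phi L E a P) ≤
      (Polynomial.idealX L).valuation E (h40phi L E a Q))
    (m : Fin n →₀ ℕ) (hm : m ∈ P.support) : ∃ m' ∈ Q.support, h40w a m' ≤ h40w a m := by
  classical
  by_contra hcon
  push Not at hcon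
  set N : ℕ := ∑ m' ∈ P.support ∪ Q.support, (h40w a m').natAbs with hN
  have hle : ∀ m' ∈ P.support ∪ Q.support, 0 ≤ h40w a m' + N := by
    intro m' hm'
    have h1 : (h40w a m').natAbs ≤ N :=
      Finset.single_le_sum (f := fun m' => (h40w a m').natAbs) (fun _ _ => Nat.zero_le _) hm'
    omega
  have hP := h40G_eq L E a N P fun m' hm' => hle m' (Finset.mem_union_left _ hm')
  have hQ := h40G_eq L E a N Q fun m' hm' => hle m' (Finset.mem_union_right _ hm')
  have h2 : (Polynomial.idealX L).intValuation (h40G L a N P) ≤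
      (Polynomial.idealX L).intValuation (h40G L a N Q) := by
    rw [← HeightOneSpectrum.valuation_of_algebraMap (K := E),
      ← HeightOneSpectrum.valuation_of_algebraMap (K := E)]
    change (Polynomial.idealX L).valuation E (algebraMap (Polynomial L) E (h40G L a N P)) ≤
      (Polynomial.idealX L).valuation E (algebraMap (Polynomial L) E (h40G L a N Q))
    rw [hP, hQ, map_mul, map_mul]
    exact mul_le_mul_right h _
  have h3 := h40G_dvd L a N Q (h40w a m) (hle m (Finset.mem_union_left _ hm)) hcon
  have h4 := (h40_le_iff _ _).2 h3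
  have h5 := (h40_le_iff _ _).1 (h2.trans h4)
  rw [Polynomial.X_pow_dvd_iff] at h5
  exact h40G_coeff_ne L a N P hm (h5 _ (Nat.lt_succ_self _))

theorem h40_model [CharZero K] [IsFractionRing (MvPolynomial (Fin n) K) L]
    [IsFractionRing (Polynomial L) E] (lam : Fin n → K) (a : Fin n → ℤ) :
    ∃ (d : Derivation ℤ E E),
      CharZero E ∧ Function.Injective (h40phi L E (K := K) a) ∧
      (∀ c : K, c ≠ 0 →
        (Polynomial.idealX L).valuation E (h40phi L E a (MvPolynomial.C c)) = 1) ∧
      (∀ P, d (h40phi L E a P) = h40phi L E a (der lam P)) ∧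
      (∀ x, (Polynomial.idealX L).valuation E (d x) ≤ (Polynomial.idealX L).valuation E x) := by
  obtain ⟨D, hD0⟩ := exists_frac_der (A := MvPolynomial (Fin n) K) (L := L)
    ((der lam).restrictScalars ℤ)
  have hD : ∀ P : MvPolynomial (Fin n) K,
      D (algebraMap (MvPolynomial (Fin n) K) L P) =
        algebraMap (MvPolynomial (Fin n) K) L (der lam P) := fun P => hD0 P
  obtain ⟨d, hd, hdX, hdv⟩ := h40_exists_der_E (E := E) D
  have hdc : ∀ P : MvPolynomial (Fin n) K, d (h40c L E P) = h40c L E (der lam P) := by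
    intro P
    unfold h40c
    simp only [RingHom.comp_apply]
    rw [hd, hD]
  have hds : d (h40s L E) = 0 := by
    unfold h40s
    exact hdX
  have hdz : ∀ k : ℤ, d (h40s L E ^ k) = 0 := by
    intro k
    rw [Derivation.leibniz_zpow, hds, smul_zero, smul_zero]
  have hphiC : ∀ c : K, h40phi L E a (MvPolynomial.C c : MvPolynomial (Fin n) K) =
      h40c L E (MvPolynomial.C c : MvPolynomial (Fin n) K) := by
    intro c
    unfold h40phi
    rw [MvPolynomial.coe_eval₂Hom, MvPolynomial.eval₂_C, RingHom.comp_apply]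
  have hphiX : ∀ b : Fin n, h40phi L E a (MvPolynomial.X b : MvPolynomial (Fin n) K) =
      h40c L E (MvPolynomial.X b : MvPolynomial (Fin n) K) * h40s L E ^ a b := by
    intro b
    unfold h40phi
    rw [MvPolynomial.coe_eval₂Hom, MvPolynomial.eval₂_X]
  have hderC : ∀ c : K, der lam (MvPolynomial.C c) = 0 := by
    intro c
    exact Derivation.map_algebraMap (der lam) c
  have hderX : ∀ b, der lam (MvPolynomial.X b) = MvPolynomial.C (lam b) * MvPolynomial.X b := by
    intro b
    unfold der
    rw [MvPolynomial.mkDerivation_X]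
  refine ⟨d, ?_, ?_, ?_, ?_, hdv⟩
  · exact charZero_of_injective_ringHom
      (f := (h40phi L E (K := K) a).comp MvPolynomial.C) (RingHom.injective _)
  · rw [injective_iff_map_eq_zero]
    intro P hP
    by_contra hne
    obtain ⟨m, hm⟩ := MvPolynomial.support_nonempty.2 hne
    obtain ⟨m', hm', -⟩ := h40_compare L E a P 0 (by rw [hP, map_zero]; exact zero_le) m hm
    simp at hm'
  · intro c hc
    rw [hphiC]
    unfold h40c
    simp only [RingHom.comp_apply]
    have h1 := HeightOneSpectrum.valuation_of_algebraMap (K := E) (Polynomial.idealX L)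
      (Polynomial.C (algebraMap (MvPolynomial (Fin n) K) L (MvPolynomial.C c)))
    refine Eq.trans h1 ?_
    rw [HeightOneSpectrum.intValuation_eq_one_iff,
      Polynomial.idealX_span, Ideal.mem_span_singleton, Polynomial.X_dvd_iff, Polynomial.coeff_C_zero,
      FaithfulSMul.algebraMap_eq_zero_iff, MvPolynomial.C_eq_zero]
    exact hc
  · intro P
    induction P using MvPolynomial.induction_on with
    | C c => rw [hphiC, hdc, hderC, map_zero, map_zero]
    | add P Q hP hQ => rw [map_add, map_add, map_add, map_add, hP, hQ]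
    | mul_X P b hP =>
      have h1 : d (h40phi L E a (MvPolynomial.X b : MvPolynomial (Fin n) K)) =
          h40phi L E a (der lam (MvPolynomial.X b)) := by
        rw [hphiX, Derivation.leibniz, hdz, hdc, hderX, map_mul, map_mul, hphiX, hphiC]
        simp only [smul_eq_mul]
        ring
      rw [map_mul, Derivation.leibniz, Derivation.leibniz, hP, h1, map_add]
      simp only [smul_eq_mul, map_mul]

end h40b

theorem exists_model {K : Type u} [Field K] [CharZero K] {n : ℕ} (lam : Fin n → K)
    (a : Fin n → ℤ) :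
    ∃ (R E : Type u) (_ : CommRing R) (_ : IsDedekindDomain R) (_ : Field E) (_ : Algebra R E)
      (_ : IsFractionRing R E) (v : HeightOneSpectrum R) (φ : MvPolynomial (Fin n) K →+* E)
      (d : Derivation ℤ E E),
      CharZero E ∧ Function.Injective φ ∧
      (∀ c : K, c ≠ 0 → v.valuation E (φ (MvPolynomial.C c)) = 1) ∧
      (∀ P, d (φ P) = φ (der lam P)) ∧
      (∀ x, v.valuation E (d x) ≤ v.valuation E x) ∧
      ∀ P Q : MvPolynomial (Fin n) K, v.valuation E (φ P) ≤ v.valuation E (φ Q) →
        ∀ m ∈ P.support, ∃ m' ∈ Q.support,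
          ∑ b, a b * (m' b : ℤ) ≤ ∑ b, a b * (m b : ℤ) := by
  obtain ⟨d, h1, h2, h3, h4, h5⟩ := h40_model (FractionRing (MvPolynomial (Fin n) K))
    (FractionRing (Polynomial (FractionRing (MvPolynomial (Fin n) K)))) lam a
  exact ⟨Polynomial (FractionRing (MvPolynomial (Fin n) K)),
    FractionRing (Polynomial (FractionRing (MvPolynomial (Fin n) K))), inferInstance,
    inferInstance, inferInstance, inferInstance, inferInstance,
    Polynomial.idealX _, h40phi _ _ a, d, h1, h2, h3, h4, h5,
    fun P Q h m hm => h40_compare _ _ a P Q h m hm⟩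

end Pool.Agent.Helper16.TP
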